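import Pool.Agent.Helper72.PG.Blocks
import Pool.Agent.Helper3.ThinMain

/-! Unbounded look-ahead: bases with few representations. -/

namespace Pool.Agent.Helper72.PG

open Finset Filter Pool.Agent.Helper72.NS Pool.Agent.Helper72.PL

/-- a basis with few representations -/
lemma base_few : ∃ (A : Set ℕ) (α : ℕ → ℕ) (K : ℕ), 1 ≤ K ∧
    (∀ d, α d ≤ d ∧ α d ∈ A ∧ d - α d ∈ A) ∧ ∀ s, ∀ m < 2 * 2 ^ s, rep A m ≤ K * (s + 1) := by
  obtain ⟨A, hA, C, hC⟩ := Pool.Agent.Helper3.Thin.thin_basis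
  have hα : ∀ d, ∃ a, a ≤ d ∧ a ∈ A ∧ d - a ∈ A := by
    intro d
    obtain ⟨a, ha, b, hb, hab⟩ := hA d
    exact ⟨a, by omega, ha, by rwa [show d - a = b by omega]⟩
  choose α hα using hα
  have hlog : ∀ᶠ n : ℕ in atTop, Real.exp 1 ≤ Real.log n :=
    (Real.tendsto_log_atTop.comp tendsto_natCast_atTop_atTop).eventually_ge_atTop _
  obtain ⟨n₀, hn₀⟩ := Filter.eventually_atTop.1 (hC.and hlog)
  obtain ⟨K, hK⟩ := exists_nat_ge (|C| + n₀ + 1)
  have hK1 : (1 : ℝ) ≤ K := by
    have := abs_nonneg C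
    have h2 : (0 : ℝ) ≤ n₀ := Nat.cast_nonneg _
    linarith
  refine ⟨A, α, K, by exact_mod_cast hK1, hα, fun s m hm => ?_⟩
  have hs0 : (0 : ℝ) ≤ s := Nat.cast_nonneg _
  have hgoal : (rep A m : ℝ) ≤ K * (s + 1) := by
    rcases Nat.lt_or_ge m n₀ with h | h
    · have h1 : rep A m ≤ m + 1 := rep_le_succ' A m
      have h2 : (rep A m : ℝ) ≤ n₀ := by
        have : rep A m ≤ n₀ := by omega
        exact_mod_cast this
      have h3 : (K : ℝ) ≤ K * (s + 1) := le_mul_of_one_le_right (by linarith) (by linarith)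
      have := abs_nonneg C
      linarith
    · obtain ⟨h1, h2⟩ := hn₀ m h
      have he : (1 : ℝ) ≤ Real.exp 1 := by
        have := Real.add_one_le_exp (1 : ℝ)
        linarith
      have hl0 : 0 < Real.log m := by linarith
      have hll : 1 ≤ Real.log (Real.log m) := by
        rw [Real.le_log_iff_exp_le hl0]
        exact h2
      have hm0 : 0 < (m : ℝ) := by
        by_contra hcon
        have : (m : ℝ) = 0 := le_antisymm (not_lt.1 hcon) (Nat.cast_nonneg _)
        rw [this, Real.log_zero] at hl0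
        exact lt_irrefl _ hl0
      have h3 : Real.log m ≤ s + 1 := by
        have e1 : (m : ℝ) ≤ 2 ^ (s + 1) := by
          have : m ≤ 2 ^ (s + 1) := by rw [pow_succ]; omega
          exact_mod_cast this
        have e2 := Real.log_le_log hm0 e1
        rw [Real.log_pow] at e2
        have e3 : Real.log 2 ≤ 1 := by
          have := Real.log_two_lt_d9
          linarith
        push_cast at e2
        nlinarith
      have h4 : Real.log m / Real.log (Real.log m) ≤ s + 1 :=
        (div_le_self hl0.le hll).trans h3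
      have h5 : (0 : ℝ) ≤ Real.log m / Real.log (Real.log m) := by positivity
      calc (rep A m : ℝ) ≤ C * (Real.log m / Real.log (Real.log m)) := h1
        _ ≤ |C| * (Real.log m / Real.log (Real.log m)) :=
          mul_le_mul_of_nonneg_right (le_abs_self C) h5
        _ ≤ |C| * (s + 1) := mul_le_mul_of_nonneg_left h4 (abs_nonneg C)
        _ ≤ K * (s + 1) := by
          refine mul_le_mul_of_nonneg_right ?_ (by linarith)
          have h2 : (0 : ℝ) ≤ n₀ := Nat.cast_nonneg _
          linarith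
  have : (rep A m : ℝ) ≤ ((K * (s + 1) : ℕ) : ℝ) := by
    push_cast
    exact hgoal
  exact_mod_cast this

/-- the lengths of the blocks -/
lemma exists_lengths {h : ℕ → ℕ} (hh : Tendsto h atTop atTop) : ∃ s : ℕ → ℕ, (∀ l, 1 ≤ s l) ∧
    (∀ l, s l ≤ l + 1) ∧ Tendsto s atTop atTop ∧
    ∀ k j, bpos s k < j → j < bpos s (k + 1) → bpos s (k + 1) ≤ j + h j := by
  set H : ℕ → ℕ := fun l => sInf (h '' Set.Ici l) with hH
  have hHle : ∀ l j, l ≤ j → H l ≤ h j := fun l j hlj =>
    Nat.sInf_le ⟨j, hlj, rfl⟩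
  have hHt : Tendsto H atTop atTop := by
    rw [tendsto_atTop]
    intro K
    obtain ⟨T, hT⟩ := Filter.eventually_atTop.1 (hh.eventually_ge_atTop K)
    refine Filter.eventually_atTop.2 ⟨T, fun l hl => ?_⟩
    have hne : (h '' Set.Ici l).Nonempty := ⟨h l, l, Set.mem_Ici.2 le_rfl, rfl⟩
    obtain ⟨j, hj, hj2⟩ := Nat.sInf_mem hne
    rw [hH]
    simp only
    rw [← hj2]
    exact hT j (hl.trans hj)
  set s : ℕ → ℕ := fun l => max 1 (min (H l) (l + 1)) with hs
  have h1 : ∀ l, 1 ≤ s l := fun l => le_max_left _ _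
  refine ⟨s, h1, fun l => ?_, ?_, ?_⟩
  · rw [hs]
    simp only
    omega
  · rw [tendsto_atTop]
    intro K
    filter_upwards [hHt.eventually_ge_atTop K, Filter.eventually_ge_atTop K] with l hl1 hl2
    rw [hs]
    simp only
    omega
  · intro k j hj1 hj2
    rw [bpos_succ] at hj2 ⊢
    have h2 : k ≤ bpos s k := le_bpos h1 k
    have h3 := hHle k j (by omega)
    have h4 : s k ≤ max 1 (H k) := by
      rw [hs]
      simp only
      omega
    omega

lemma sum_log_le {s : ℕ → ℕ} (hs : Tendsto s atTop atTop) (K : ℕ) (hK : 1 ≤ K) {ε : ℝ}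
    (hε : 0 < ε) : ∃ B : ℝ, 0 ≤ B ∧ ∀ l, Real.log ((∏ i ∈ Finset.range l, (2 * (K * (s i + 1))) : ℕ) : ℝ) ≤
      B + ε * bpos s l := by
  have hKr : (1 : ℝ) ≤ K := by exact_mod_cast hK
  have hlog0 : ∀ i, 0 ≤ Real.log (2 * (K * ((s i : ℝ) + 1))) := by
    intro i
    refine Real.log_nonneg ?_
    have : (0 : ℝ) ≤ s i := Nat.cast_nonneg _
    have h2 : (1 : ℝ) ≤ K * ((s i : ℝ) + 1) := one_le_mul_of_one_le_of_one_le hKr (by linarith)
    linarith
  have hlim : ∀ᶠ t : ℕ in atTop, Real.log (2 * (K * ((t : ℝ) + 1))) ≤ ε * t := by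
    have h1 : Tendsto (fun x : ℝ => Real.log x / x) atTop (nhds 0) := by
      have := Real.isLittleO_log_id_atTop.tendsto_div_nhds_zero
      exact this
    have h2 : Tendsto (fun t : ℕ => 2 * (K * ((t : ℝ) + 1))) atTop atTop := by
      have e1 : Tendsto (fun t : ℕ => (t : ℝ) + 1) atTop atTop :=
        tendsto_atTop_add_const_right _ _ tendsto_natCast_atTop_atTop
      exact (e1.const_mul_atTop (by linarith : (0 : ℝ) < K)).const_mul_atTop (by norm_num)
    have h3 : 0 < ε / (4 * K) := by positivity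
    filter_upwards [(h1.comp h2).eventually_lt_const h3, Filter.eventually_ge_atTop 1] with t ht ht1
    have ht1r : (1 : ℝ) ≤ t := by exact_mod_cast ht1
    simp only [Function.comp_apply] at ht
    have hpos : (0 : ℝ) < 2 * (K * ((t : ℝ) + 1)) := by positivity
    rw [div_lt_iff₀ hpos] at ht
    have e2 : ε / (4 * K) * (2 * (K * ((t : ℝ) + 1))) = ε / 2 * (t + 1) := by
      have : (K : ℝ) ≠ 0 := by positivity
      field_simp
      ring
    rw [e2] at ht
    nlinarith
  obtain ⟨i₀, hi₀⟩ := Filter.eventually_atTop.1 (hs.eventually hlim)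
  refine ⟨∑ i ∈ Finset.range i₀, Real.log (2 * (K * ((s i : ℝ) + 1))),
    Finset.sum_nonneg fun i _ => hlog0 i, fun l => ?_⟩
  have hprod : Real.log ((∏ i ∈ Finset.range l, (2 * (K * (s i + 1))) : ℕ) : ℝ) =
      ∑ i ∈ Finset.range l, Real.log (2 * (K * ((s i : ℝ) + 1))) := by
    rw [Nat.cast_prod, Real.log_prod]
    · refine Finset.sum_congr rfl fun i _ => ?_
      push_cast
      rfl
    · intro i _
      have : 0 < 2 * (K * (s i + 1)) := by positivity
      exact_mod_cast this.ne'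
  rw [hprod]
  clear hprod
  induction l with
  | zero =>
    rw [Finset.sum_range_zero, bpos_zero]
    simp only [Nat.cast_zero, mul_zero, add_zero]
    exact Finset.sum_nonneg fun i _ => hlog0 i
  | succ l ih =>
    rcases Nat.lt_or_ge l i₀ with h | h
    · have h1 : ∑ i ∈ Finset.range (l + 1), Real.log (2 * (K * ((s i : ℝ) + 1))) ≤
          ∑ i ∈ Finset.range i₀, Real.log (2 * (K * ((s i : ℝ) + 1))) :=
        Finset.sum_le_sum_of_subset_of_nonneg (Finset.range_subset_range.2 h)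
          fun i _ _ => hlog0 i
      have h2 : 0 ≤ ε * (bpos s (l + 1) : ℝ) := by positivity
      linarith
    · rw [Finset.sum_range_succ, bpos_succ]
      have h1 := hi₀ l h
      push_cast
      linarith

/-- Unbounded look-ahead does not force a power. -/
theorem sharp (h : ℕ → ℕ) (hh : Tendsto h atTop atTop) : ∃ (A : Set ℕ) (f : ℕ → ℕ),
    (∀ n, f n ≤ n ∧ f n ∈ A ∧ n - f n ∈ A) ∧
    (∀ j n n', n % 2 ^ (j + h j) = n' % 2 ^ (j + h j) → f n % 2 ^ j = f n' % 2 ^ j) ∧
    ∀ ε : ℝ, 0 < ε → ∀ᶠ n : ℕ in atTop, (rep A n : ℝ) ≤ (n : ℝ) ^ ε := by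
  obtain ⟨A, α, K, hK, hα, hrep⟩ := base_few
  obtain ⟨s, hs1, hs2, hst, hlook⟩ := exists_lengths hh
  refine ⟨BA s A, brule s α, fun n => brule_spec hs1 hα n,
    fun j n n' hn => brule_look hs1 (fun d => (hα d).1) hlook j n n' hn, fun ε hε => ?_⟩
  obtain ⟨B, hB0, hB⟩ := sum_log_le hst K hK (show 0 < ε * Real.log 2 / 4 by
    have := Real.log_pos (by norm_num : (1 : ℝ) < 2)
    positivity)
  have hl2 : 0 < Real.log 2 := Real.log_pos (by norm_num)
  set δ := ε * Real.log 2 / 4 with hδ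
  have hδ0 : 0 < δ := by positivity
  have hlarge : ∀ᶠ n : ℕ in atTop, B + δ ≤ ε / 2 * Real.log n := by
    have h1 : Tendsto (fun n : ℕ => ε / 2 * Real.log n) atTop atTop :=
      (Real.tendsto_log_atTop.comp tendsto_natCast_atTop_atTop).const_mul_atTop (by positivity)
    exact h1.eventually_ge_atTop _
  filter_upwards [hlarge, Filter.eventually_ge_atTop 1] with n hn hn1
  have hn0 : (0 : ℝ) < n := by exact_mod_cast hn1
  obtain ⟨k, hk1, hk2⟩ : ∃ k, 2 ^ bpos s k ≤ n ∧ n < 2 ^ bpos s (k + 1) := by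
    obtain ⟨k, hk1, hk2⟩ := exists_block hs1 (Nat.log 2 n)
    refine ⟨k, ?_, ?_⟩
    · exact (Nat.pow_le_pow_right (by norm_num) hk1).trans (Nat.pow_log_le_self 2 (by omega))
    · exact (Nat.lt_pow_succ_log_self (by norm_num) n).trans_le
        (Nat.pow_le_pow_right (by norm_num) hk2)
  have h1 := rep_BA_le (s := s) (A := A) (ρ := fun i => K * (s i + 1))
    (fun i m hm => hrep (s i) m hm) hk2
  rcases Nat.eq_zero_or_pos (rep (BA s A) n) with h0 | h0
  · rw [h0, Nat.cast_zero]
    positivity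
  · have h0r : (0 : ℝ) < rep (BA s A) n := by exact_mod_cast h0
    have h1r : (rep (BA s A) n : ℝ) ≤
        ((∏ i ∈ Finset.range (k + 1), (2 * (K * (s i + 1))) : ℕ) : ℝ) := by exact_mod_cast h1
    have h2 := (Real.log_le_log h0r h1r).trans (hB (k + 1))
    have h3 : bpos s (k + 1) ≤ 2 * bpos s k + 1 := by
      rw [bpos_succ]
      have e1 := hs2 k
      have e2 := le_bpos hs1 k
      omega
    have h3r : (bpos s (k + 1) : ℝ) ≤ 2 * bpos s k + 1 := by exact_mod_cast h3
    have h4 : (bpos s k : ℝ) * Real.log 2 ≤ Real.log n := by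
      have e1 : ((2 : ℝ) ^ bpos s k) ≤ n := by exact_mod_cast hk1
      have e2 := Real.log_le_log (by positivity) e1
      rwa [Real.log_pow] at e2
    have h5 : Real.log (rep (BA s A) n) ≤ ε * Real.log n := by
      have e1 : δ * (bpos s (k + 1) : ℝ) ≤ δ * (2 * bpos s k + 1) :=
        mul_le_mul_of_nonneg_left h3r hδ0.le
      have e2 : δ * (2 * bpos s k + 1) = ε / 2 * (bpos s k * Real.log 2) + δ := by
        rw [hδ]
        ring
      have e3 : ε / 2 * (bpos s k * Real.log 2) ≤ ε / 2 * Real.log n :=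
        mul_le_mul_of_nonneg_left h4 (by positivity)
      linarith
    rw [← Real.log_le_log_iff h0r (by positivity), Real.log_rpow hn0]
    exact h5

end Pool.Agent.Helper72.PG
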