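import Pool.Agent.Helper72.PL.Main4

/-! Products of consecutive ratios, residues and subtrees. -/

namespace Pool.Agent.Helper72.PG

open Finset Pool.Agent.Helper72.PW Pool.Agent.Helper72.PL

/-- the product of `k` consecutive ratios, from the place `i` on -/
def rr (g : ℕ → ℕ) (i : ℕ) : ℕ → ℕ
  | 0 => 1
  | k + 1 => rr g i k * g (i + k)

variable {g : ℕ → ℕ}

@[simp] lemma rr_zero (g : ℕ → ℕ) (i : ℕ) : rr g i 0 = 1 := rfl

lemma rr_succ (g : ℕ → ℕ) (i k : ℕ) : rr g i (k + 1) = rr g i k * g (i + k) := rfl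

lemma rr_add (g : ℕ → ℕ) (i k l : ℕ) : rr g i (k + l) = rr g i k * rr g (i + k) l := by
  induction l with
  | zero => simp
  | succ l ih => rw [← add_assoc, rr_succ, ih, rr_succ, mul_assoc, add_assoc]

lemma rr_pos (hg : ∀ j, 2 ≤ g j) (i k : ℕ) : 0 < rr g i k := by
  induction k with
  | zero => exact one_pos
  | succ k ih => exact Nat.mul_pos ih (by have := hg (i + k); omega)

lemma rr_ge (hg : ∀ j, 2 ≤ g j) (i k : ℕ) : 2 ^ k ≤ rr g i k := by
  induction k with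
  | zero => exact le_rfl
  | succ k ih =>
    rw [pow_succ, rr_succ]
    exact Nat.mul_le_mul ih (hg _)

lemma rr_le {Q : ℕ} (hQ : ∀ j, g j ≤ Q) (i k : ℕ) : rr g i k ≤ Q ^ k := by
  induction k with
  | zero => exact le_rfl
  | succ k ih =>
    rw [pow_succ, rr_succ]
    exact Nat.mul_le_mul ih (hQ _)

lemma rr_dvd (g : ℕ → ℕ) (i : ℕ) {k l : ℕ} (h : k ≤ l) : rr g i k ∣ rr g i l := by
  obtain ⟨d, rfl⟩ := Nat.exists_eq_add_of_le h
  rw [rr_add]
  exact Dvd.intro _ rfl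

lemma rr_mono (hg : ∀ j, 2 ≤ g j) (i : ℕ) {k l : ℕ} (h : k ≤ l) : rr g i k ≤ rr g i l :=
  Nat.le_of_dvd (rr_pos hg i l) (rr_dvd g i h)

lemma rr_two (hg : ∀ j, 2 ≤ g j) (i k : ℕ) : 2 * rr g i k ≤ rr g i (k + 1) := by
  rw [rr_succ, mul_comm]
  exact Nat.mul_le_mul_left _ (hg _)

/-- the residues of a set -/
def im (M : ℕ) (X : Finset ℕ) : Finset ℕ := X.image fun x => x % M

lemma mem_im {M : ℕ} {X : Finset ℕ} {a : ℕ} : a ∈ im M X ↔ ∃ x ∈ X, x % M = a := by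
  unfold im
  rw [Finset.mem_image]

lemma im_lt {M : ℕ} (hM : 0 < M) {X : Finset ℕ} {a : ℕ} (ha : a ∈ im M X) : a < M := by
  rw [mem_im] at ha
  obtain ⟨x, _, rfl⟩ := ha
  exact Nat.mod_lt _ hM

/-- the subtree at the residue `a` -/
def sb (M : ℕ) (X : Finset ℕ) (a : ℕ) : Finset ℕ := (X.filter fun x => x % M = a).image fun x => x / M

lemma mem_sb {M : ℕ} (hM : 0 < M) {X : Finset ℕ} {a : ℕ} (ha : a < M) {y : ℕ} :
    y ∈ sb M X a ↔ a + M * y ∈ X := by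
  unfold sb
  rw [Finset.mem_image]
  constructor
  · rintro ⟨x, hx, rfl⟩
    rw [Finset.mem_filter] at hx
    have h1 := Nat.div_add_mod x M
    rw [hx.2] at h1
    rw [add_comm, h1]
    exact hx.1
  · intro h
    refine ⟨a + M * y, Finset.mem_filter.2 ⟨h, ?_⟩, ?_⟩
    · rw [Nat.add_mul_mod_self_left, Nat.mod_eq_of_lt ha]
    · rw [Nat.add_mul_div_left _ _ hM, Nat.div_eq_of_lt ha, zero_add]

lemma sb_ne {M : ℕ} {X : Finset ℕ} {a : ℕ} (ha : a ∈ im M X) : (sb M X a).Nonempty := by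
  rw [mem_im] at ha
  obtain ⟨x, hx, h1⟩ := ha
  exact ⟨x / M, Finset.mem_image.2 ⟨x, Finset.mem_filter.2 ⟨hx, h1⟩, rfl⟩⟩

lemma mem_im_of_sb {M : ℕ} {X : Finset ℕ} {a y : ℕ} (h : y ∈ sb M X a) : a ∈ im M X := by
  unfold sb at h
  rw [Finset.mem_image] at h
  obtain ⟨x, hx, _⟩ := h
  rw [Finset.mem_filter] at hx
  exact mem_im.2 ⟨x, hx.1, hx.2⟩

lemma card_sb {M : ℕ} (X : Finset ℕ) (a : ℕ) :
    (sb M X a).card = (X.filter fun x => x % M = a).card := by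
  unfold sb
  refine Finset.card_image_of_injOn ?_
  intro x hx y hy hxy
  rw [Finset.mem_coe, Finset.mem_filter] at hx hy
  have h1 := Nat.div_add_mod x M
  have h2 := Nat.div_add_mod y M
  simp only at hxy
  rw [hx.2, hxy] at h1
  rw [hy.2] at h2
  omega

lemma card_eq_sum (M : ℕ) (X : Finset ℕ) : X.card = ∑ a ∈ im M X, (sb M X a).card := by
  have h1 : X.card = ∑ a ∈ im M X, (X.filter fun x => x % M = a).card := by
    refine Finset.card_eq_sum_card_fiberwise fun x hx => ?_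
    exact Finset.mem_coe.2 (mem_im.2 ⟨x, hx, rfl⟩)
  rw [h1]
  exact Finset.sum_congr rfl fun a _ => (card_sb X a).symm

/-- the subtrees with the modulus `M` -/
def tys (M : ℕ) (X : Finset ℕ) : Finset (Finset ℕ) := (im M X).image fun a => sb M X a

lemma mem_tys {M : ℕ} {X σ : Finset ℕ} : σ ∈ tys M X ↔ ∃ a ∈ im M X, sb M X a = σ := by
  unfold tys
  rw [Finset.mem_image]

lemma sb_mem_tys {M : ℕ} {X : Finset ℕ} {a : ℕ} (ha : a ∈ im M X) : sb M X a ∈ tys M X :=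
  mem_tys.2 ⟨a, ha, rfl⟩

lemma tys_ne {M : ℕ} {X σ : Finset ℕ} (h : σ ∈ tys M X) : σ.Nonempty := by
  rw [mem_tys] at h
  obtain ⟨a, ha, rfl⟩ := h
  exact sb_ne ha

lemma tys_nonempty {M : ℕ} {X : Finset ℕ} (h : X.Nonempty) : (tys M X).Nonempty := by
  obtain ⟨x, hx⟩ := h
  exact ⟨_, sb_mem_tys (mem_im.2 ⟨x, hx, rfl⟩)⟩

lemma tys_one {X : Finset ℕ} (h : X.Nonempty) : tys 1 X = {X} := by
  obtain ⟨x, hx⟩ := h
  have h0 : sb 1 X 0 = X := by
    ext y
    rw [mem_sb one_pos one_pos, zero_add, one_mul]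
  ext σ
  rw [mem_tys, Finset.mem_singleton]
  constructor
  · rintro ⟨a, ha, rfl⟩
    have := im_lt one_pos ha
    have e : a = 0 := by omega
    rw [e, h0]
  · rintro rfl
    exact ⟨0, mem_im.2 ⟨x, hx, Nat.mod_one x⟩, h0⟩

/-- subtrees of subtrees -/
lemma sb_sb {M M' : ℕ} (hM : 0 < M) (hM' : 0 < M') (X : Finset ℕ) {a b : ℕ} (ha : a < M)
    (hb : b < M') : sb M' (sb M X a) b = sb (M * M') X (a + M * b) := by
  have hlt : a + M * b < M * M' := by
    calc a + M * b < M + M * b := by omega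
      _ = M * (b + 1) := by ring
      _ ≤ M * M' := Nat.mul_le_mul_left _ hb
  ext y
  rw [mem_sb hM' hb, mem_sb hM ha, mem_sb (Nat.mul_pos hM hM') hlt]
  have : a + M * (b + M' * y) = a + M * b + M * M' * y := by ring
  rw [this]

lemma mem_im_mul {M M' : ℕ} (hM : 0 < M) (hM' : 0 < M') {X : Finset ℕ} {a b : ℕ} (ha : a < M)
    (hb : b < M') : a + M * b ∈ im (M * M') X ↔ a ∈ im M X ∧ b ∈ im M' (sb M X a) := by
  have hlt : a + M * b < M * M' := by
    calc a + M * b < M + M * b := by omega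
      _ = M * (b + 1) := by ring
      _ ≤ M * M' := Nat.mul_le_mul_left _ hb
  constructor
  · intro h
    obtain ⟨y, hy⟩ := sb_ne h
    rw [← sb_sb hM hM' X ha hb] at hy
    have h1 := mem_im_of_sb hy
    obtain ⟨z, hz⟩ := sb_ne h1
    rw [mem_sb hM' hb] at hz
    exact ⟨mem_im_of_sb hz, h1⟩
  · rintro ⟨_, h2⟩
    obtain ⟨y, hy⟩ := sb_ne h2
    rw [sb_sb hM hM' X ha hb] at hy
    exact mem_im_of_sb hy

lemma exists_split {M M' : ℕ} (hM : 0 < M) {c : ℕ} (hc : c < M * M') :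
    ∃ a < M, ∃ b < M', c = a + M * b :=
  ⟨c % M, Nat.mod_lt _ hM, c / M, Nat.div_lt_of_lt_mul hc, by
    have := Nat.div_add_mod c M
    omega⟩

/-- the types at a deeper level are the types of the types -/
lemma mem_tys_mul {M M' : ℕ} (hM : 0 < M) (hM' : 0 < M') {X τ : Finset ℕ} :
    τ ∈ tys (M * M') X ↔ ∃ σ ∈ tys M X, τ ∈ tys M' σ := by
  constructor
  · intro h
    rw [mem_tys] at h
    obtain ⟨c, hc, rfl⟩ := h
    obtain ⟨a, ha, b, hb, rfl⟩ := exists_split hM (im_lt (Nat.mul_pos hM hM') hc)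
    rw [mem_im_mul hM hM' ha hb] at hc
    refine ⟨sb M X a, sb_mem_tys hc.1, ?_⟩
    rw [← sb_sb hM hM' X ha hb]
    exact sb_mem_tys hc.2
  · rintro ⟨σ, hσ, hτ⟩
    rw [mem_tys] at hσ hτ
    obtain ⟨a, ha, rfl⟩ := hσ
    obtain ⟨b, hb, rfl⟩ := hτ
    have ha' := im_lt hM ha
    have hb' := im_lt hM' hb
    rw [sb_sb hM hM' X ha' hb']
    exact sb_mem_tys ((mem_im_mul hM hM' ha' hb').2 ⟨ha, hb⟩)

end Pool.Agent.Helper72.PG
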