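import Pool.Agent.Helper72.PL.Final2

/-! Integers with digits in blocks of variable length. -/

namespace Pool.Agent.Helper72.PG

open Finset Filter Pool.Agent.Helper72.NS Pool.Agent.Helper72.PL

/-- the positions of the blocks -/
def bpos (s : ℕ → ℕ) (l : ℕ) : ℕ := ∑ i ∈ Finset.range l, s i

/-- the digit of a block -/
def bdg (s : ℕ → ℕ) (l n : ℕ) : ℕ := n / 2 ^ bpos s l % 2 ^ s l

/-- the integer with given digits -/
def basm (s x : ℕ → ℕ) (L : ℕ) : ℕ := ∑ l ∈ Finset.range L, x l * 2 ^ bpos s l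

variable {s x : ℕ → ℕ}

lemma bpos_zero (s : ℕ → ℕ) : bpos s 0 = 0 := rfl

lemma bpos_succ (s : ℕ → ℕ) (l : ℕ) : bpos s (l + 1) = bpos s l + s l :=
  Finset.sum_range_succ _ _

lemma bpos_mono (s : ℕ → ℕ) : Monotone (bpos s) :=
  monotone_nat_of_le_succ fun l => by rw [bpos_succ]; exact Nat.le_add_right _ _

lemma le_bpos (hs : ∀ l, 1 ≤ s l) (l : ℕ) : l ≤ bpos s l := by
  induction l with
  | zero => exact Nat.zero_le _
  | succ l ih => rw [bpos_succ]; have := hs l; omega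

lemma basm_succ (s x : ℕ → ℕ) (L : ℕ) : basm s x (L + 1) = basm s x L + x L * 2 ^ bpos s L :=
  Finset.sum_range_succ _ _

lemma basm_lt (hx : ∀ l, x l < 2 ^ s l) (L : ℕ) : basm s x L < 2 ^ bpos s L := by
  induction L with
  | zero => simp [basm, bpos]
  | succ L ih =>
    rw [basm_succ, bpos_succ, pow_add]
    calc basm s x L + x L * 2 ^ bpos s L < 2 ^ bpos s L + x L * 2 ^ bpos s L := by omega
      _ = (x L + 1) * 2 ^ bpos s L := by ring
      _ ≤ 2 ^ s L * 2 ^ bpos s L := Nat.mul_le_mul_right _ (hx L)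
      _ = _ := by ring

lemma basm_mod (hx : ∀ l, x l < 2 ^ s l) {k L : ℕ} (h : k ≤ L) :
    basm s x L % 2 ^ bpos s k = basm s x k := by
  induction L, h using Nat.le_induction with
  | base => exact Nat.mod_eq_of_lt (basm_lt hx k)
  | succ L hkL ih =>
    rw [basm_succ]
    have h1 : 2 ^ bpos s k ∣ x L * 2 ^ bpos s L :=
      (pow_dvd_pow 2 (bpos_mono s hkL)).mul_left _
    obtain ⟨w, hw⟩ := h1
    rw [hw, Nat.add_mul_mod_self_left]
    exact ih

lemma bdg_eq (s : ℕ → ℕ) (l n : ℕ) : bdg s l n = n % 2 ^ bpos s (l + 1) / 2 ^ bpos s l := by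
  unfold bdg
  rw [bpos_succ, pow_add, Nat.mod_mul_right_div_self]

lemma bdg_lt (s : ℕ → ℕ) (l n : ℕ) : bdg s l n < 2 ^ s l := Nat.mod_lt _ (by positivity)

lemma bdg_basm (hx : ∀ l, x l < 2 ^ s l) {k L : ℕ} (h : k < L) : bdg s k (basm s x L) = x k := by
  rw [bdg_eq, basm_mod hx h, basm_succ, Nat.add_mul_div_right _ _ (by positivity),
    Nat.div_eq_of_lt (basm_lt hx k), zero_add]

lemma bdg_zero_of_lt {k n : ℕ} (h : n < 2 ^ bpos s k) : bdg s k n = 0 := by
  unfold bdg
  rw [Nat.div_eq_of_lt h, Nat.zero_mod]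

lemma bdg_zero_mono {k l n : ℕ} (h : n < 2 ^ bpos s k) (hl : k ≤ l) : bdg s l n = 0 :=
  bdg_zero_of_lt (h.trans_le (Nat.pow_le_pow_right (by norm_num) (bpos_mono s hl)))

lemma basm_bdg (s : ℕ → ℕ) (n L : ℕ) : basm s (fun l => bdg s l n) L = n % 2 ^ bpos s L := by
  induction L with
  | zero => simp [basm, bpos, Nat.mod_one]
  | succ L ih =>
    rw [basm_succ, ih, bpos_succ, pow_add, Nat.mod_mul]
    unfold bdg
    ring

lemma bdg_congr {k l n n' : ℕ} (h : n % 2 ^ bpos s k = n' % 2 ^ bpos s k) (hl : l < k) :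
    bdg s l n = bdg s l n' := by
  have h1 : n % 2 ^ bpos s (l + 1) = n' % 2 ^ bpos s (l + 1) := by
    have h2 : 2 ^ bpos s (l + 1) ∣ 2 ^ bpos s k := pow_dvd_pow 2 (bpos_mono s hl)
    have h3 : n ≡ n' [MOD 2 ^ bpos s k] := h
    exact h3.of_dvd h2
  rw [bdg_eq, bdg_eq, h1]

lemma lt_two_pow_bpos (hs : ∀ l, 1 ≤ s l) (n : ℕ) : n < 2 ^ bpos s (n + 1) := by
  have h1 := le_bpos hs (n + 1)
  calc n < 2 ^ n := Nat.lt_two_pow_self
    _ ≤ 2 ^ bpos s (n + 1) := Nat.pow_le_pow_right (by norm_num) (by omega)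

/-- the integers whose digits are in a set -/
def BA (s : ℕ → ℕ) (A : Set ℕ) : Set ℕ := {n | ∀ l, bdg s l n ∈ A}

lemma basm_mem {A : Set ℕ} (h0 : 0 ∈ A) (hx : ∀ l, x l < 2 ^ s l) (hA : ∀ l, x l ∈ A) (L : ℕ) :
    basm s x L ∈ BA s A := by
  intro l
  rcases Nat.lt_or_ge l L with h | h
  · rw [bdg_basm hx h]
    exact hA l
  · rw [bdg_zero_mono (basm_lt hx L) h]
    exact h0

/-- the rule -/
def brule (s α : ℕ → ℕ) (n : ℕ) : ℕ := basm s (fun l => α (bdg s l n)) (n + 1)

lemma brule_mod (hs : ∀ l, 1 ≤ s l) {α : ℕ → ℕ} (hα : ∀ d, α d ≤ d) (n k : ℕ) :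
    brule s α n % 2 ^ bpos s k = basm s (fun l => α (bdg s l n)) k := by
  have hx : ∀ l, α (bdg s l n) < 2 ^ s l := fun l => (hα _).trans_lt (bdg_lt s l n)
  rcases le_total k (n + 1) with h | h
  · exact basm_mod hx h
  · have h1 : basm s (fun l => α (bdg s l n)) k = basm s (fun l => α (bdg s l n)) (n + 1) := by
      induction k, h using Nat.le_induction with
      | base => rfl
      | succ k hk ih =>
        rw [basm_succ, ih]
        have h2 : bdg s k n = 0 := bdg_zero_mono (lt_two_pow_bpos hs n) hk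
        have h3 : α (bdg s k n) = 0 := by
          rw [h2]
          exact Nat.le_zero.1 (hα 0)
        rw [h3, zero_mul, add_zero]
    rw [h1]
    exact Nat.mod_eq_of_lt ((basm_lt hx (n + 1)).trans_le
      (Nat.pow_le_pow_right (by norm_num) (bpos_mono s h)))

lemma brule_spec (hs : ∀ l, 1 ≤ s l) {A : Set ℕ} {α : ℕ → ℕ}
    (hα : ∀ d, α d ≤ d ∧ α d ∈ A ∧ d - α d ∈ A) (n : ℕ) :
    brule s α n ≤ n ∧ brule s α n ∈ BA s A ∧ n - brule s α n ∈ BA s A := by
  have h00 : α 0 = 0 := Nat.le_zero.1 (hα 0).1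
  have h0 : 0 ∈ A := by
    have := (hα 0).2.1
    rwa [h00] at this
  have hx : ∀ l, α (bdg s l n) < 2 ^ s l := fun l => (hα _).1.trans_lt (bdg_lt s l n)
  have hy : ∀ l, bdg s l n - α (bdg s l n) < 2 ^ s l := fun l =>
    (Nat.sub_le _ _).trans_lt (bdg_lt s l n)
  have hsum : brule s α n + basm s (fun l => bdg s l n - α (bdg s l n)) (n + 1) = n := by
    unfold brule basm
    rw [← Finset.sum_add_distrib]
    have h1 : ∀ l ∈ Finset.range (n + 1), α (bdg s l n) * 2 ^ bpos s l +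
        (bdg s l n - α (bdg s l n)) * 2 ^ bpos s l = bdg s l n * 2 ^ bpos s l := by
      intro l _
      rw [← add_mul, Nat.add_sub_cancel' (hα _).1]
    rw [Finset.sum_congr rfl h1]
    have h2 := basm_bdg s n (n + 1)
    unfold basm at h2
    rw [h2]
    exact Nat.mod_eq_of_lt (lt_two_pow_bpos hs n)
  refine ⟨by omega, basm_mem h0 hx (fun l => (hα _).2.1) _, ?_⟩
  have h3 : n - brule s α n = basm s (fun l => bdg s l n - α (bdg s l n)) (n + 1) := by omega
  rw [h3]
  exact basm_mem h0 hy (fun l => (hα _).2.2) _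

lemma exists_block (hs : ∀ l, 1 ≤ s l) (j : ℕ) : ∃ k, bpos s k ≤ j ∧ j < bpos s (k + 1) := by
  classical
  have hex : ∃ k, j < bpos s k := ⟨j + 1, by have := le_bpos hs (j + 1); omega⟩
  have h1 := Nat.find_spec hex
  rcases Nat.eq_zero_or_pos (Nat.find hex) with h0 | h0
  · rw [h0, bpos_zero] at h1
    omega
  · obtain ⟨k, hk⟩ := Nat.exists_eq_succ_of_ne_zero h0.ne'
    refine ⟨k, ?_, ?_⟩
    · have := Nat.find_min hex (m := k) (by omega)
      omega
    · rwa [hk] at h1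

/-- the look-ahead of the rule -/
lemma brule_look (hs : ∀ l, 1 ≤ s l) {α : ℕ → ℕ} (hα : ∀ d, α d ≤ d) {h : ℕ → ℕ}
    (hh : ∀ k j, bpos s k < j → j < bpos s (k + 1) → bpos s (k + 1) ≤ j + h j) (j n n' : ℕ)
    (hn : n % 2 ^ (j + h j) = n' % 2 ^ (j + h j)) : brule s α n % 2 ^ j = brule s α n' % 2 ^ j := by
  have key : ∀ k, n % 2 ^ bpos s k = n' % 2 ^ bpos s k →
      brule s α n % 2 ^ bpos s k = brule s α n' % 2 ^ bpos s k := by
    intro k hk
    rw [brule_mod hs hα, brule_mod hs hα]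
    unfold basm
    refine Finset.sum_congr rfl fun l hl => ?_
    rw [Finset.mem_range] at hl
    simp only
    rw [bdg_congr hk hl]
  have hn' : n ≡ n' [MOD 2 ^ (j + h j)] := hn
  obtain ⟨k, hk1, hk2⟩ := exists_block hs j
  rcases hk1.lt_or_eq with hlt | heq
  · have h1 : n % 2 ^ bpos s (k + 1) = n' % 2 ^ bpos s (k + 1) :=
      hn'.of_dvd (pow_dvd_pow 2 (hh k j hlt hk2))
    have h2 : brule s α n ≡ brule s α n' [MOD 2 ^ bpos s (k + 1)] := key _ h1
    exact h2.of_dvd (pow_dvd_pow 2 hk2.le)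
  · have h1 : n % 2 ^ bpos s k = n' % 2 ^ bpos s k :=
      hn'.of_dvd (pow_dvd_pow 2 (by omega))
    have h2 := key _ h1
    rwa [heq] at h2

open Classical in
/-- pairs with digits in a set, up to a level -/
noncomputable def bprs (s : ℕ → ℕ) (A : Set ℕ) (l n : ℕ) : Finset (ℕ × ℕ) :=
  (Finset.range (2 ^ bpos s l) ×ˢ Finset.range (2 ^ bpos s l)).filter fun q =>
    (∀ i < l, bdg s i q.1 ∈ A ∧ bdg s i q.2 ∈ A) ∧ (q.1 + q.2) % 2 ^ bpos s l = n % 2 ^ bpos s l

lemma mem_bprs {A : Set ℕ} {l n : ℕ} {q : ℕ × ℕ} : q ∈ bprs s A l n ↔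
    (q.1 < 2 ^ bpos s l ∧ q.2 < 2 ^ bpos s l) ∧ (∀ i < l, bdg s i q.1 ∈ A ∧ bdg s i q.2 ∈ A) ∧
      (q.1 + q.2) % 2 ^ bpos s l = n % 2 ^ bpos s l := by
  classical
  unfold bprs
  rw [Finset.mem_filter, Finset.mem_product, Finset.mem_range, Finset.mem_range]

lemma bdg_mod_self {i l n : ℕ} (hi : i < l) : bdg s i (n % 2 ^ bpos s l) = bdg s i n :=
  bdg_congr (Nat.mod_mod _ _) hi

lemma bprs_card {A : Set ℕ} {ρ : ℕ → ℕ} (hρ : ∀ i, ∀ m < 2 * 2 ^ s i, rep A m ≤ ρ i) (l n : ℕ) :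
    (bprs s A l n).card ≤ ∏ i ∈ Finset.range l, (2 * ρ i) := by
  classical
  induction l with
  | zero =>
    rw [Finset.prod_range_zero]
    refine Finset.card_le_one.2 fun q hq q' hq' => ?_
    rw [mem_bprs, bpos_zero, pow_zero] at hq hq'
    exact Prod.ext (by omega) (by omega)
  | succ l ih =>
    set M := 2 ^ bpos s l with hM
    set N := 2 ^ s l with hN
    have hM0 : 0 < M := by positivity
    have hN0 : 0 < N := by positivity
    have hMN : 2 ^ bpos s (l + 1) = M * N := by rw [bpos_succ, pow_add]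
    have himg : (bprs s A (l + 1) n).image (fun q => (q.1 % M, q.2 % M)) ⊆ bprs s A l n := by
      intro p hp
      rw [Finset.mem_image] at hp
      obtain ⟨q, hq, rfl⟩ := hp
      rw [mem_bprs] at hq ⊢
      obtain ⟨-, h2, h3⟩ := hq
      refine ⟨⟨Nat.mod_lt _ hM0, Nat.mod_lt _ hM0⟩, fun i hi => ?_, ?_⟩
      · simp only
        rw [bdg_mod_self hi, bdg_mod_self hi]
        exact h2 i (by omega)
      · simp only
        rw [← Nat.add_mod]
        have h4 : q.1 + q.2 ≡ n [MOD 2 ^ bpos s (l + 1)] := h3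
        exact h4.of_dvd (by rw [hMN]; exact Nat.dvd_mul_right _ _)
    have hfib : ∀ a ∈ (bprs s A (l + 1) n).image (fun q => (q.1 % M, q.2 % M)),
        ((bprs s A (l + 1) n).filter fun q => (q.1 % M, q.2 % M) = a).card ≤ 2 * ρ l := by
      intro a ha
      set F := (bprs s A (l + 1) n).filter fun q => (q.1 % M, q.2 % M) = a with hF
      rcases F.eq_empty_or_nonempty with h0 | ⟨q₀, hq₀⟩
      · rw [h0, Finset.card_empty]
        exact Nat.zero_le _
      have hinfo : ∀ q ∈ F, (q.1 < M * N ∧ q.2 < M * N) ∧ (q.1 / M ∈ A ∧ q.2 / M ∈ A) ∧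
          (q.1 + q.2 ≡ n [MOD M * N]) ∧ q.1 % M = a.1 ∧ q.2 % M = a.2 := by
        intro q hq
        rw [hF, Finset.mem_filter, mem_bprs, hMN] at hq
        obtain ⟨⟨h1, h2, h3⟩, h4⟩ := hq
        have h5 := h2 l (Nat.lt_succ_self l)
        have h6 : ∀ y, y < M * N → bdg s l y = y / M := by
          intro y hy
          unfold bdg
          exact Nat.mod_eq_of_lt (Nat.div_lt_of_lt_mul hy)
        rw [h6 _ h1.1, h6 _ h1.2] at h5
        refine ⟨h1, h5, h3, ?_, ?_⟩
        · rw [← h4]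
        · rw [← h4]
      set w : ℕ × ℕ → ℕ := fun q => q.1 / M + q.2 / M with hw
      have hwlt : ∀ q ∈ F, w q < 2 * N := by
        intro q hq
        obtain ⟨h1, -, -, -, -⟩ := hinfo q hq
        have h2 := Nat.div_lt_of_lt_mul h1.1
        have h3 := Nat.div_lt_of_lt_mul h1.2
        rw [hw]
        simp only
        omega
      have hwmod : ∀ q ∈ F, w q % N = w q₀ % N := by
        intro q hq
        obtain ⟨-, -, h3, h4, h5⟩ := hinfo q hq
        obtain ⟨-, -, h3', h4', h5'⟩ := hinfo q₀ hq₀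
        have e1 := Nat.mod_add_div q.1 M
        have e2 := Nat.mod_add_div q.2 M
        have e3 := Nat.mod_add_div q₀.1 M
        have e4 := Nat.mod_add_div q₀.2 M
        have h6 : a.1 + a.2 + M * w q ≡ a.1 + a.2 + M * w q₀ [MOD M * N] := by
          have g1 : a.1 + a.2 + M * w q = q.1 + q.2 := by
            rw [hw]
            simp only
            rw [← h4, ← h5, mul_add]
            omega
          have g2 : a.1 + a.2 + M * w q₀ = q₀.1 + q₀.2 := by
            rw [hw]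
            simp only
            rw [← h4', ← h5', mul_add]
            omega
          rw [g1, g2]
          exact h3.trans h3'.symm
        exact Nat.ModEq.mul_left_cancel' hM0.ne' (Nat.ModEq.add_left_cancel' _ h6)
      have hone : ∀ (S : Finset (ℕ × ℕ)) (v : ℕ), S ⊆ F → (∀ q ∈ S, w q = v) → S.card ≤ ρ l := by
        intro S v hS hv
        rcases S.eq_empty_or_nonempty with h0 | ⟨q₁, hq₁⟩
        · rw [h0, Finset.card_empty]
          exact Nat.zero_le _
        have hvlt : v < 2 * N := by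
          rw [← hv q₁ hq₁]
          exact hwlt _ (hS hq₁)
        refine (card_le_rep A S (fun q => (q.1 / M, q.2 / M)) v ?_ ?_).trans (hρ l v hvlt)
        · intro q hq q' hq' hqq
          obtain ⟨-, -, -, h4, h5⟩ := hinfo q (hS hq)
          obtain ⟨-, -, -, h4', h5'⟩ := hinfo q' (hS hq')
          simp only [Prod.mk.injEq] at hqq
          refine Prod.ext ?_ ?_
          · rw [← Nat.mod_add_div q.1 M, ← Nat.mod_add_div q'.1 M, h4, h4', hqq.1]
          · rw [← Nat.mod_add_div q.2 M, ← Nat.mod_add_div q'.2 M, h5, h5', hqq.2]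
        · intro q hq
          obtain ⟨-, h2, -, -, -⟩ := hinfo q (hS hq)
          exact ⟨h2.1, h2.2, hv q hq⟩
      have hsplit := Finset.card_filter_add_card_filter_not (s := F) (fun q => w q < N)
      have hA := hone (F.filter fun q => w q < N) (w q₀ % N) (Finset.filter_subset _ _) (by
        intro q hq
        rw [Finset.mem_filter] at hq
        rw [← hwmod q hq.1, Nat.mod_eq_of_lt hq.2])
      have hB := hone (F.filter fun q => ¬ w q < N) (w q₀ % N + N) (Finset.filter_subset _ _) (by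
        intro q hq
        rw [Finset.mem_filter] at hq
        have h1 := hwlt q hq.1
        have h2 : w q % N = w q - N := by
          rw [Nat.mod_eq_sub_mod (by omega), Nat.mod_eq_of_lt (by omega)]
        rw [← hwmod q hq.1, h2]
        omega)
      omega
    calc (bprs s A (l + 1) n).card
        ≤ 2 * ρ l * ((bprs s A (l + 1) n).image (fun q => (q.1 % M, q.2 % M))).card :=
          Finset.card_le_mul_card_image _ _ hfib
      _ ≤ 2 * ρ l * (bprs s A l n).card := Nat.mul_le_mul_left _ (Finset.card_le_card himg)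
      _ ≤ 2 * ρ l * ∏ i ∈ Finset.range l, (2 * ρ i) := Nat.mul_le_mul_left _ ih
      _ = _ := by rw [Finset.prod_range_succ, mul_comm]

lemma rep_BA_le {A : Set ℕ} {ρ : ℕ → ℕ} (hρ : ∀ i, ∀ m < 2 * 2 ^ s i, rep A m ≤ ρ i) {l n : ℕ}
    (hn : n < 2 ^ bpos s l) : rep (BA s A) n ≤ ∏ i ∈ Finset.range l, (2 * ρ i) := by
  refine le_trans ?_ (bprs_card hρ l n)
  unfold rep
  rw [← Set.ncard_coe_finset]
  refine Set.ncard_le_ncard ?_ (Finset.finite_toSet _)
  rintro ⟨a, b⟩ ⟨ha, hb, hab⟩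
  simp only at ha hb hab
  rw [Finset.mem_coe, mem_bprs]
  refine ⟨⟨by simp only; omega, by simp only; omega⟩, fun i _ => ⟨ha i, hb i⟩, ?_⟩
  simp only
  rw [hab]

lemma rep_le_succ' (A : Set ℕ) (n : ℕ) : rep A n ≤ n + 1 := by
  unfold rep
  refine (Set.ncard_le_ncard (t := ((Finset.range (n + 1)).image fun a => (a, n - a) :
    Finset (ℕ × ℕ))) ?_ (Finset.finite_toSet _)).trans ?_
  · rintro p ⟨_, _, h⟩
    rw [Finset.mem_coe, Finset.mem_image]
    exact ⟨p.1, Finset.mem_range.2 (by omega), Prod.ext rfl (by simp only; omega)⟩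
  · rw [Set.ncard_coe_finset]
    exact Finset.card_image_le.trans (le_of_eq (Finset.card_range _))

end Pool.Agent.Helper72.PG
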