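import Pool.Agent.Helper72.PG.Final5

/-! MP_12a1af_nt: the Erdos-Turan problem and choices of representations with bounded
look-ahead. -/

namespace Pool.Agent.Helper72.PG

open Finset Filter Pool.Agent.Helper72.NS

lemma rep_le_succ (A : Set ℕ) (n : ℕ) : rep A n ≤ n + 1 := by
  unfold rep
  refine (Set.ncard_le_ncard (t := ((Finset.range (n + 1)).image fun a => (a, n - a) :
    Finset (ℕ × ℕ))) ?_ (Finset.finite_toSet _)).trans ?_
  · rintro p ⟨_, _, h⟩
    rw [Finset.mem_coe, Finset.mem_image]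
    exact ⟨p.1, Finset.mem_range.2 (by omega), Prod.ext rfl (by simp only; omega)⟩
  · rw [Set.ncard_coe_finset]
    exact Finset.card_image_le.trans (le_of_eq (Finset.card_range _))

/-- Choices with bounded look-ahead. -/
theorem candG (Q h : ℕ) : ∃ c : ℝ, 0 < c ∧ ∀ (A : Set ℕ) (m f : ℕ → ℕ) (t : ℕ), Chain m →
    (∀ j, m (j + 1) ≤ Q * m j) →
    (∀ n ≥ t, f n ≤ n ∧ f n ∈ A ∧ n - f n ∈ A) →
    (∀ j, ∀ n ≥ t, ∀ n' ≥ t, n % m (j + h) = n' % m (j + h) → f n % m j = f n' % m j) →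
    (∀ᶠ x : ℕ in atTop, (x : ℝ) ^ (1 + 2 * c) ≤ ∑ n ∈ Finset.range x, (rep A n : ℝ) ^ 2) ∧
    ∃ᶠ n : ℕ in atTop, (n : ℝ) ^ c ≤ rep A n := by
  obtain ⟨c, hc, hmain⟩ := squareG Q h
  refine ⟨c / 2, by positivity, fun A m f t hm hq hf hL => ?_⟩
  have hsq := hmain A m f t hm hq hf hL
  have e : 1 + 2 * (c / 2) = 1 + c := by ring
  rw [e]
  refine ⟨hsq, ?_⟩
  rw [Filter.frequently_atTop]
  intro N
  have hlarge : ∀ᶠ x : ℕ in atTop, ((N : ℝ) + 1) < (x : ℝ) ^ (c / 2) :=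
    ((tendsto_rpow_atTop (by positivity : 0 < c / 2)).comp
      tendsto_natCast_atTop_atTop).eventually_gt_atTop _
  obtain ⟨x, hx1, hx2, hx3⟩ := (hsq.and (hlarge.and (Filter.eventually_ge_atTop 1))).exists
  have hx0 : (0 : ℝ) < x := by exact_mod_cast (by omega : 0 < x)
  have hex : ∃ n < x, (x : ℝ) ^ (c / 2) ≤ rep A n := by
    by_contra hcon
    push Not at hcon
    have h1 : ∑ n ∈ Finset.range x, (rep A n : ℝ) ^ 2 < ∑ _n ∈ Finset.range x, (x : ℝ) ^ c := by
      refine Finset.sum_lt_sum_of_nonempty ⟨0, Finset.mem_range.2 (by omega)⟩ fun n hn => ?_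
      have h2 := hcon n (Finset.mem_range.1 hn)
      have h3 : (x : ℝ) ^ c = ((x : ℝ) ^ (c / 2)) ^ 2 := by
        rw [← Real.rpow_natCast, ← Real.rpow_mul hx0.le]
        congr 1
        push_cast
        ring
      rw [h3]
      exact pow_lt_pow_left₀ h2 (Nat.cast_nonneg _) (by norm_num)
    rw [Finset.sum_const, Finset.card_range, nsmul_eq_mul] at h1
    rw [Real.rpow_add hx0, Real.rpow_one] at hx1
    linarith
  obtain ⟨n, hn, h1⟩ := hex
  have h2 : (rep A n : ℝ) ≤ (n : ℝ) + 1 := by exact_mod_cast rep_le_succ A n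
  refine ⟨n, ?_, ?_⟩
  · have h3 : (N : ℝ) < n := by linarith
    have h4 : N < n := by exact_mod_cast h3
    exact h4.le
  · refine le_trans ?_ h1
    exact Real.rpow_le_rpow (Nat.cast_nonneg _) (by exact_mod_cast hn.le) (by positivity)

end Pool.Agent.Helper72.PG
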