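import Pool.Agent.Helper72.PG.Final6
import Pool.Agent.Helper72.PG.CandG

/-! MP_12a1af_nt: the Erdos-Turan problem and rules for representations with bounded look-ahead,
on one residue class in one range of integers. -/

namespace Pool.Agent.Helper72.PG

open Finset Filter Pool.Agent.Helper72.NS

/-- Rules with bounded look-ahead on a residue class in a range of integers. -/
theorem candF (Q h : ℕ) : ∃ c : ℝ, 0 < c ∧ ∃ C : ℕ,
    ∀ (A D : Set ℕ) (m f : ℕ → ℕ) (a k x y : ℕ), Chain m → (∀ j, m (j + 1) ≤ Q * m j) →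
    C * (x + m k) ^ C ≤ y →
    (∀ n, x ≤ n → n < y → n % m k = a % m k → n ∈ D) →
    (∀ n ∈ D, f n ≤ n ∧ f n ∈ A ∧ n - f n ∈ A) →
    (∀ j, ∀ n ∈ D, ∀ n' ∈ D, n % m (j + h) = n' % m (j + h) → f n % m j = f n' % m j) →
    (y : ℝ) ^ (1 + 2 * c) ≤ ∑ n ∈ Finset.range y, (rep A n : ℝ) ^ 2 ∧
    ∃ n < y, (y : ℝ) ^ c ≤ rep A n := by
  obtain ⟨c, hc, C, hmain⟩ := squareF Q h
  refine ⟨c / 2, by positivity, C + 1, fun A D m f a k x y hm hq hy hD hf hL => ?_⟩
  have hX1 : 1 ≤ x + m k := by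
    have := hm.pos k
    omega
  have hy' : C * (x + m k) ^ C ≤ y := by
    refine le_trans ?_ hy
    exact Nat.mul_le_mul (Nat.le_succ C) (Nat.pow_le_pow_right hX1 (Nat.le_succ C))
  have hy1 : 1 ≤ y := by
    refine le_trans ?_ hy
    exact Nat.mul_pos (Nat.succ_pos C) (Nat.pow_pos (by omega))
  have hsq := hmain A D m f a k x y hm hq hy' hD hf hL
  have e : 1 + 2 * (c / 2) = 1 + c := by ring
  rw [e]
  refine ⟨hsq, ?_⟩
  have hy0 : (0 : ℝ) < y := by exact_mod_cast hy1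
  by_contra hcon
  push Not at hcon
  have h1 : ∑ n ∈ Finset.range y, (rep A n : ℝ) ^ 2 < ∑ _n ∈ Finset.range y, (y : ℝ) ^ c := by
    refine Finset.sum_lt_sum_of_nonempty ⟨0, Finset.mem_range.2 (by omega)⟩ fun n hn => ?_
    have h2 := hcon n (Finset.mem_range.1 hn)
    have h3 : (y : ℝ) ^ c = ((y : ℝ) ^ (c / 2)) ^ 2 := by
      rw [← Real.rpow_natCast, ← Real.rpow_mul hy0.le]
      congr 1
      push_cast
      ring
    rw [h3]
    exact pow_lt_pow_left₀ h2 (Nat.cast_nonneg _) (by norm_num)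
  rw [Finset.sum_const, Finset.card_range, nsmul_eq_mul] at h1
  rw [Real.rpow_add hy0, Real.rpow_one] at hsq
  linarith

end Pool.Agent.Helper72.PG
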