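import Pool.Agent.Helper72.PG.CandF
import Pool.Agent.Helper72.PG.Sharp

/-! MP_12a1af_nt: the Erdos-Turan problem and rules for representations: bounded look-ahead is the
threshold for a power of `n`. -/

namespace Pool.Agent.Helper72.PG

open Finset Filter Pool.Agent.Helper72.NS

/-- Rules with bounded look-ahead, and the threshold. -/
theorem candS :
    (∀ Q h : ℕ, ∃ c : ℝ, 0 < c ∧ ∃ C : ℕ,
      ∀ (A D : Set ℕ) (m f : ℕ → ℕ) (a k x y : ℕ), Chain m → (∀ j, m (j + 1) ≤ Q * m j) →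
      C * (x + m k) ^ C ≤ y →
      (∀ n, x ≤ n → n < y → n % m k = a % m k → n ∈ D) →
      (∀ n ∈ D, f n ≤ n ∧ f n ∈ A ∧ n - f n ∈ A) →
      (∀ j, ∀ n ∈ D, ∀ n' ∈ D, n % m (j + h) = n' % m (j + h) → f n % m j = f n' % m j) →
      (y : ℝ) ^ (1 + 2 * c) ≤ ∑ n ∈ Finset.range y, (rep A n : ℝ) ^ 2 ∧
      ∃ n < y, (y : ℝ) ^ c ≤ rep A n) ∧
    (∀ h : ℕ → ℕ, Tendsto h atTop atTop → ∃ (A : Set ℕ) (f : ℕ → ℕ),
      (∀ n, f n ≤ n ∧ f n ∈ A ∧ n - f n ∈ A) ∧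
      (∀ j n n', n % 2 ^ (j + h j) = n' % 2 ^ (j + h j) → f n % 2 ^ j = f n' % 2 ^ j) ∧
      ∀ ε : ℝ, 0 < ε → ∀ᶠ n : ℕ in atTop, (rep A n : ℝ) ≤ (n : ℝ) ^ ε) :=
  ⟨candF, sharp⟩

end Pool.Agent.Helper72.PG
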