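import Pool.Agent.Helper72.PG.CandF
import Pool.Agent.Helper72.PG.Sharp

/-! MP_12a1af_nt: the Erdos-Turan problem and rules for representations: bounded look-ahead is the
threshold for a power of `n`. Few exceptions are allowed. -/

namespace Pool.Agent.Helper72.PG

open Finset Filter Pool.Agent.Helper72.NS

/-- a subclass without exceptions -/
lemma exists_class {m : ℕ → ℕ} (hm : Chain m) {Q : ℕ} (hQ : ∀ j, m (j + 1) ≤ Q * m j)
    (E : Set ℕ) (hE : E.Finite) (a k : ℕ) :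
    ∃ k' a', m k' ≤ Q * ((E.ncard + 1) * m k) ∧ ∀ n, n % m k' = a' % m k' →
      n % m k = a % m k ∧ n ∉ E := by
  classical
  have hpow : ∀ j, 2 ^ j ≤ m j := by
    intro j
    induction j with
    | zero => rw [hm.one]; norm_num
    | succ j ih => have := hm.two j; rw [pow_succ]; omega
  have hmk : 0 < m k := hm.pos k
  set R := (E.ncard + 1) * m k with hR
  have hRk : m k ≤ R := Nat.le_mul_of_pos_left _ (Nat.succ_pos _)
  have hQ1 : 1 ≤ Q := by
    have h1 := hm.two 0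
    have h2 := hQ 0
    have h3 := hm.pos 0
    by_contra hcon
    have : Q = 0 := by omega
    rw [this, zero_mul] at h2
    omega
  have hex : ∃ s, R ≤ m s := ⟨R, (Nat.lt_two_pow_self.trans_le (hpow R)).le⟩
  set k' := Nat.find hex with hk'
  have h1 : R ≤ m k' := Nat.find_spec hex
  have h2 : m k' ≤ Q * R := by
    rcases Nat.eq_zero_or_pos k' with h0 | h0
    · rw [h0, hm.one]
      exact Nat.mul_pos hQ1 (hmk.trans_le hRk)
    · obtain ⟨i, hi⟩ := Nat.exists_eq_succ_of_ne_zero h0.ne'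
      have h3 := Nat.find_min hex (m := i) (by rw [← hk', hi]; exact Nat.lt_succ_self i)
      rw [hi]
      exact (hQ i).trans (Nat.mul_le_mul_left _ (by omega))
  have hmono : StrictMono m := strictMono_nat_of_lt_succ fun j => by
    have := hm.two j
    have := hm.pos j
    omega
  have hkk : k ≤ k' := hmono.le_iff_le.1 (hRk.trans h1)
  have hdvd : m k ∣ m k' := by
    have : ∀ i, m k ∣ m (k + i) := by
      intro i
      induction i with
      | zero => exact dvd_rfl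
      | succ i ih => exact ih.trans (hm.dvd (k + i))
    have h3 := this (k' - k)
    rwa [show k + (k' - k) = k' by omega] at h3
  obtain ⟨q, hq⟩ := hdvd
  have hq1 : E.ncard + 1 ≤ q := by
    have h3 : (E.ncard + 1) * m k ≤ m k * q := by rw [← hq]; exact h1
    rw [mul_comm (m k) q] at h3
    exact Nat.le_of_mul_le_mul_right h3 hmk
  -- the residues hit by the exceptions
  set S : Finset ℕ := hE.toFinset.image fun n => n % m k' / m k with hS
  have hScard : S.card < q := by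
    have h3 : S.card ≤ hE.toFinset.card := Finset.card_image_le
    rw [← Set.ncard_eq_toFinset_card E hE] at h3
    omega
  obtain ⟨w, hw1, hw2⟩ : ∃ w ∈ Finset.range q, w ∉ S := by
    by_contra hcon
    push Not at hcon
    have h3 : Finset.range q ⊆ S := fun w hw => hcon w hw
    have h4 := Finset.card_le_card h3
    rw [Finset.card_range] at h4
    omega
  rw [Finset.mem_range] at hw1
  have halt : a % m k < m k := Nat.mod_lt _ hmk
  have hlt : a % m k + m k * w < m k' := by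
    rw [hq]
    calc a % m k + m k * w < m k + m k * w := by omega
      _ = m k * (w + 1) := by ring
      _ ≤ m k * q := Nat.mul_le_mul_left _ hw1
  refine ⟨k', a % m k + m k * w, h2, fun n hn => ?_⟩
  rw [Nat.mod_eq_of_lt hlt] at hn
  constructor
  · have h3 : n % m k' % m k = n % m k := Nat.mod_mod_of_dvd n ⟨q, hq⟩
    rw [← h3, hn, Nat.add_mul_mod_self_left, Nat.mod_mod]
  · intro hnE
    apply hw2
    rw [hS, Finset.mem_image]
    refine ⟨n, hE.mem_toFinset.2 hnE, ?_⟩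
    rw [hn, Nat.add_mul_div_left _ _ hmk, Nat.div_eq_of_lt halt, zero_add]

/-- Rules with bounded look-ahead, with few exceptions. -/
theorem candE (Q h : ℕ) : ∃ c : ℝ, 0 < c ∧ ∃ C : ℕ,
    ∀ (A D : Set ℕ) (m f : ℕ → ℕ) (a k y : ℕ), Chain m → (∀ j, m (j + 1) ≤ Q * m j) →
    C ≤ y → (m k : ℝ) ≤ (y : ℝ) ^ c →
    ({n : ℕ | n < y ∧ n % m k = a % m k ∧ n ∉ D}.ncard : ℝ) ≤ (y : ℝ) ^ c →
    (∀ n ∈ D, f n ≤ n ∧ f n ∈ A ∧ n - f n ∈ A) →
    (∀ j, ∀ n ∈ D, ∀ n' ∈ D, n % m (j + h) = n' % m (j + h) → f n % m j = f n' % m j) →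
    (y : ℝ) ^ (1 + 2 * c) ≤ ∑ n ∈ Finset.range y, (rep A n : ℝ) ^ 2 ∧
    ∃ n < y, (y : ℝ) ^ c ≤ rep A n := by
  obtain ⟨c, hc, C, hmain⟩ := candF Q h
  have hCr : (0 : ℝ) ≤ C := Nat.cast_nonneg _
  set c' : ℝ := min c (1 / (4 * (C + 1))) with hc'
  have hc'0 : 0 < c' := lt_min hc (by positivity)
  have hc'c : c' ≤ c := min_le_left _ _
  have hc'C : c' * (4 * (C + 1)) ≤ 1 := by
    have h1 : c' ≤ 1 / (4 * (C + 1)) := min_le_right _ _
    rwa [le_div_iff₀ (by positivity)] at h1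
  -- the size
  have hlarge : ∀ᶠ y : ℕ in atTop, (C : ℝ) * (2 * (Q : ℝ)) ^ C ≤ (y : ℝ) ^ (1 / 2 : ℝ) :=
    ((tendsto_rpow_atTop (by norm_num : (0 : ℝ) < 1 / 2)).comp
      tendsto_natCast_atTop_atTop).eventually_ge_atTop _
  obtain ⟨Y, hY⟩ := Filter.eventually_atTop.1 hlarge
  refine ⟨c', hc'0, max Y 1, fun A D m f a k y hm hmQ hy hmk hE hf hL => ?_⟩
  have hy1 : 1 ≤ y := (le_max_right _ _).trans hy
  have hyY : Y ≤ y := (le_max_left _ _).trans hy
  have hy1r : (1 : ℝ) ≤ y := by exact_mod_cast hy1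
  have hy0 : (0 : ℝ) < y := by linarith
  set E : Set ℕ := {n : ℕ | n < y ∧ n % m k = a % m k ∧ n ∉ D} with hEdef
  have hEf : E.Finite := (Set.finite_lt_nat y).subset fun n hn => hn.1
  obtain ⟨k', a', h1, h2⟩ := exists_class hm hmQ E hEf a k
  have hsize : C * (0 + m k') ^ C ≤ y := by
    rw [zero_add]
    have e0 : (1 : ℝ) ≤ (y : ℝ) ^ c' := Real.one_le_rpow hy1r hc'0.le
    have e1 : (m k' : ℝ) ≤ 2 * Q * ((y : ℝ) ^ c' * (y : ℝ) ^ c') := by
      have g1 : (m k' : ℝ) ≤ Q * ((E.ncard + 1) * m k) := by exact_mod_cast h1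
      have g2 : ((E.ncard : ℝ) + 1) * m k ≤ (2 * (y : ℝ) ^ c') * (y : ℝ) ^ c' :=
        mul_le_mul (by linarith) hmk (Nat.cast_nonneg _) (by positivity)
      calc (m k' : ℝ) ≤ Q * ((E.ncard + 1) * m k) := g1
        _ ≤ Q * ((2 * (y : ℝ) ^ c') * (y : ℝ) ^ c') :=
          mul_le_mul_of_nonneg_left g2 (Nat.cast_nonneg _)
        _ = _ := by ring
    have e2 : ((y : ℝ) ^ c' * (y : ℝ) ^ c') ^ C ≤ (y : ℝ) ^ (1 / 2 : ℝ) := by
      rw [← Real.rpow_add hy0, ← Real.rpow_natCast, ← Real.rpow_mul hy0.le]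
      refine Real.rpow_le_rpow_of_exponent_le hy1r ?_
      nlinarith
    have e3 : (C : ℝ) * (m k' : ℝ) ^ C ≤ y := by
      calc (C : ℝ) * (m k' : ℝ) ^ C ≤ C * (2 * Q * ((y : ℝ) ^ c' * (y : ℝ) ^ c')) ^ C :=
            mul_le_mul_of_nonneg_left (pow_le_pow_left₀ (Nat.cast_nonneg _) e1 C) hCr
        _ = (C * (2 * (Q : ℝ)) ^ C) * ((y : ℝ) ^ c' * (y : ℝ) ^ c') ^ C := by
            rw [mul_pow (2 * (Q : ℝ))]
            ring
        _ ≤ (y : ℝ) ^ (1 / 2 : ℝ) * (y : ℝ) ^ (1 / 2 : ℝ) :=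
            mul_le_mul (hY y hyY) e2 (by positivity) (by positivity)
        _ = y := by
            rw [← Real.rpow_add hy0]
            norm_num
    exact_mod_cast e3
  obtain ⟨g1, n, hn, g2⟩ := hmain A D m f a' k' 0 y hm hmQ hsize (fun n _ hny hna => by
    obtain ⟨g3, g4⟩ := h2 n hna
    by_contra hnD
    exact g4 ⟨hny, g3, hnD⟩) hf hL
  exact ⟨(Real.rpow_le_rpow_of_exponent_le hy1r (by linarith)).trans g1, n, hn,
    (Real.rpow_le_rpow_of_exponent_le hy1r hc'c).trans g2⟩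

/-- Rules with bounded look-ahead, and the threshold. -/
theorem candT :
    (∀ Q h : ℕ, ∃ c : ℝ, 0 < c ∧ ∃ C : ℕ,
      ∀ (A D : Set ℕ) (m f : ℕ → ℕ) (a k y : ℕ), Chain m → (∀ j, m (j + 1) ≤ Q * m j) →
      C ≤ y → (m k : ℝ) ≤ (y : ℝ) ^ c →
      ({n : ℕ | n < y ∧ n % m k = a % m k ∧ n ∉ D}.ncard : ℝ) ≤ (y : ℝ) ^ c →
      (∀ n ∈ D, f n ≤ n ∧ f n ∈ A ∧ n - f n ∈ A) →
      (∀ j, ∀ n ∈ D, ∀ n' ∈ D, n % m (j + h) = n' % m (j + h) → f n % m j = f n' % m j) →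
      (y : ℝ) ^ (1 + 2 * c) ≤ ∑ n ∈ Finset.range y, (rep A n : ℝ) ^ 2 ∧
      ∃ n < y, (y : ℝ) ^ c ≤ rep A n) ∧
    (∀ h : ℕ → ℕ, Tendsto h atTop atTop → ∃ (A : Set ℕ) (f : ℕ → ℕ),
      (∀ n, f n ≤ n ∧ f n ∈ A ∧ n - f n ∈ A) ∧
      (∀ j n n', n % 2 ^ (j + h j) = n' % 2 ^ (j + h j) → f n % 2 ^ j = f n' % 2 ^ j) ∧
      ∀ ε : ℝ, 0 < ε → ∀ᶠ n : ℕ in atTop, (rep A n : ℝ) ≤ (n : ℝ) ^ ε) :=
  ⟨candE, sharp⟩

end Pool.Agent.Helper72.PG
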