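import Pool.Agent.Helper72.PG.CandT

/-! MP_12a1af_nt: rules with look-ahead `h`: a power of `n` exactly when `h` is bounded. (The form
as an equivalence is due to helper85.) -/

namespace Pool.Agent.Helper72.PG

open Finset Filter Pool.Agent.Helper72.NS

lemma chain_dvd {m : ℕ → ℕ} (hm : Chain m) {i j : ℕ} (hij : i ≤ j) : m i ∣ m j := by
  induction hij with
  | refl => exact dvd_rfl
  | step _ ih => exact ih.trans (hm.dvd _)

lemma chain_pow_two : Chain (fun j => 2 ^ j) := by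
  refine ⟨pow_zero 2, fun j => pow_dvd_pow 2 (Nat.le_succ j), fun j => ?_⟩
  show 2 * 2 ^ j ≤ 2 ^ (j + 1)
  rw [pow_succ]; omega

/-- Look-ahead `h` gives a power of `n` if and only if `h` is bounded. -/
theorem candU (h : ℕ → ℕ) (hh : Monotone h) : List.TFAE [
    BddAbove (Set.range h),
    ∀ Q : ℕ, ∃ c : ℝ, 0 < c ∧ ∃ C : ℕ,
      ∀ (A D : Set ℕ) (m f : ℕ → ℕ) (a k y : ℕ), Chain m → (∀ j, m (j + 1) ≤ Q * m j) →
      C ≤ y → (m k : ℝ) ≤ (y : ℝ) ^ c →
      ({n : ℕ | n < y ∧ n % m k = a % m k ∧ n ∉ D}.ncard : ℝ) ≤ (y : ℝ) ^ c →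
      (∀ n ∈ D, f n ≤ n ∧ f n ∈ A ∧ n - f n ∈ A) →
      (∀ j, ∀ n ∈ D, ∀ n' ∈ D, n % m (j + h j) = n' % m (j + h j) → f n % m j = f n' % m j) →
      (y : ℝ) ^ (1 + 2 * c) ≤ ∑ n ∈ Finset.range y, (rep A n : ℝ) ^ 2 ∧
      ∃ n < y, (y : ℝ) ^ c ≤ rep A n,
    ∀ (A : Set ℕ) (f : ℕ → ℕ), (∀ n, f n ≤ n ∧ f n ∈ A ∧ n - f n ∈ A) →
      (∀ j n n', n % 2 ^ (j + h j) = n' % 2 ^ (j + h j) → f n % 2 ^ j = f n' % 2 ^ j) →
      ∃ c : ℝ, 0 < c ∧ ∃ᶠ n : ℕ in atTop, (n : ℝ) ^ c ≤ rep A n] := by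
  tfae_have 1 → 2 := by
    rintro ⟨H, hH⟩ Q
    obtain ⟨c, hc, C, hC⟩ := candE Q H
    refine ⟨c, hc, C, fun A D m f a k y hm hQ hy hk hD hf hrule => ?_⟩
    refine hC A D m f a k y hm hQ hy hk hD hf fun j n hn n' hn' he => hrule j n hn n' hn' ?_
    have hle : h j ≤ H := hH ⟨j, rfl⟩
    have hd : m (j + h j) ∣ m (j + H) := chain_dvd hm (by omega)
    rw [← Nat.mod_mod_of_dvd n hd, ← Nat.mod_mod_of_dvd n' hd, he]
  tfae_have 2 → 3 := by
    intro h2 A f hf hrule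
    obtain ⟨c, hc, C, hC⟩ := h2 2
    refine ⟨c, hc, ?_⟩
    rw [Filter.frequently_atTop]
    intro N
    have ht : Tendsto (fun y : ℕ => (y : ℝ) ^ c) atTop atTop :=
      (tendsto_rpow_atTop hc).comp tendsto_natCast_atTop_atTop
    obtain ⟨Y, hY⟩ := (ht.eventually_gt_atTop ((N : ℝ) + 1)).exists_forall_of_atTop
    have hN0 : (0 : ℝ) ≤ N := Nat.cast_nonneg _
    have hy := hY _ (le_max_left Y C)
    obtain ⟨n, hn, hr⟩ := (hC A Set.univ (fun j => 2 ^ j) f 0 0 (max Y C) chain_pow_two (fun j => by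
        show 2 ^ (j + 1) ≤ 2 * 2 ^ j
        rw [pow_succ]; omega)
      (le_max_right _ _) (by
        simp only [pow_zero, Nat.cast_one]
        linarith) (by
        have hle : ∀ S : Set ℕ, S = ∅ → (S.ncard : ℝ) ≤ ((max Y C : ℕ) : ℝ) ^ c := by
          intro S hS
          rw [hS, Set.ncard_empty, Nat.cast_zero]
          positivity
        exact hle _ (Set.eq_empty_of_forall_notMem fun n hn => hn.2.2 (Set.mem_univ n)))
      (fun n _ => hf n)
      (fun j n _ n' _ he => hrule j n n' he)).2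
    refine ⟨n, ?_, ?_⟩
    · by_contra hlt
      push Not at hlt
      have h1 : (rep A n : ℝ) ≤ (n : ℝ) + 1 := by exact_mod_cast rep_le_succ A n
      have h2 : (n : ℝ) ≤ N := by exact_mod_cast hlt.le
      linarith
    · refine le_trans (Real.rpow_le_rpow (Nat.cast_nonneg n) ?_ hc.le) hr
      exact_mod_cast hn.le
  tfae_have 3 → 1 := by
    intro h3
    by_contra hb
    have htend : Tendsto h atTop atTop := by
      refine Filter.tendsto_atTop_atTop_of_monotone hh fun b => ?_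
      by_contra hcon
      push Not at hcon
      exact hb ⟨b, by rintro _ ⟨j, rfl⟩; exact (hcon j).le⟩
    obtain ⟨A, f, hf, hrule, hsm⟩ := sharp h htend
    obtain ⟨c, hc, h4⟩ := h3 A f hf hrule
    have hev := hsm (c / 2) (by positivity)
    have h1 : ∀ᶠ n : ℕ in atTop, (1 : ℝ) < n := by
      filter_upwards [Filter.eventually_gt_atTop 1] with n hn
      exact_mod_cast hn
    obtain ⟨n, hn, hle, hn1⟩ := (h4.and_eventually (hev.and h1)).exists
    have : (n : ℝ) ^ (c / 2) < (n : ℝ) ^ c := Real.rpow_lt_rpow_of_exponent_lt hn1 (by linarith)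
    linarith
  tfae_finish

end Pool.Agent.Helper72.PG
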