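import Pool.Agent.Helper72.PG.Base

/-! Direct sums of two sets which fill a periodic set up to a bound. -/

namespace Pool.Agent.Helper72.PG

open Finset

/-- `A` and `C` represent every element of `S` below `N` exactly once, and nothing else -/
structure EX (A C : Finset ℕ) (S : ℕ → Prop) (N P : ℕ) : Prop where
  per : ∀ s, S s ↔ S (s + P)
  into : ∀ a ∈ A, ∀ c ∈ C, a + c < N → S (a + c)
  ex : ∀ s < N, S s → ∃ a ∈ A, ∃ c ∈ C, a + c = s
  un : ∀ a ∈ A, ∀ c ∈ C, ∀ a' ∈ A, ∀ c' ∈ C, a + c < N → a + c = a' + c' → a = a' ∧ c = c'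
  ne : ∃ e < P, S e

variable {A C A' C' : Finset ℕ} {S S' : ℕ → Prop} {N P : ℕ}

lemma per_eq (h : ∀ s, S s ↔ S (s + P)) (h' : ∀ s, S' s ↔ S' (s + P))
    (he : ∀ e < P, S e ↔ S' e) (hP : 0 < P) : ∀ s, S s ↔ S' s := by
  intro s
  induction s using Nat.strong_induction_on with
  | _ s ih =>
    rcases Nat.lt_or_ge s P with h1 | h1
    · exact he s h1
    · have h2 := ih (s - P) (by omega)
      have h3 := h (s - P)
      have h4 := h' (s - P)
      rw [Nat.sub_add_cancel h1] at h3 h4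
      exact h3.symm.trans (h2.trans h4)

/-- one direction of the determination -/
lemma det_aux (h : EX A C S N P) (h' : EX A' C' S' N P) (hS : ∀ s, S s ↔ S' s) {T c₀ a : ℕ}
    (hT : T ≤ N) (hC : ∀ c < T, c ∈ C ↔ c ∈ C') (hc₀ : c₀ ∈ C) (hmin : ∀ c ∈ C, c₀ ≤ c)
    (ha : a + c₀ < T) (ih : ∀ b < a, b ∈ A ↔ b ∈ A') (haA : a ∈ A) : a ∈ A' := by
  have h1 := h.into a haA c₀ hc₀ (by omega)
  rw [hS] at h1
  obtain ⟨a', ha', c', hc', h2⟩ := h'.ex _ (by omega) h1
  have h3 : c' ∈ C := (hC c' (by omega)).2 hc'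
  have h4 := hmin c' h3
  rcases Nat.lt_or_ge a' a with h5 | h5
  · have h6 := (ih a' h5).2 ha'
    have h7 := (h.un a haA c₀ hc₀ a' h6 c' h3 (by omega) h2.symm).1
    omega
  · have h8 : a' = a := by omega
    rw [← h8]
    exact ha'

/-- One of the two sets determines the other one. -/
theorem det (h : EX A C S N P) (h' : EX A' C' S' N P) {T : ℕ} (hPT : P ≤ T)
    (hT : T ≤ N) (hC : ∀ c < T, c ∈ C ↔ c ∈ C') (he : ∀ e < P, S e ↔ S' e) :
    ∀ a, a + P ≤ T → (a ∈ A ↔ a ∈ A') := by
  obtain ⟨e, heP, he1⟩ := h.ne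
  have hP : 0 < P := by omega
  have hS := per_eq h.per h'.per he hP
  obtain ⟨a₁, _, c₁, hc₁, h1⟩ := h.ex e (by omega) he1
  have hCne : C.Nonempty := ⟨c₁, hc₁⟩
  set c₀ := C.min' hCne with hc₀
  have hmem : c₀ ∈ C := Finset.min'_mem _ _
  have hmin : ∀ c ∈ C, c₀ ≤ c := fun c hc => Finset.min'_le _ _ hc
  have hlt : c₀ < P := (hmin c₁ hc₁).trans_lt (by omega)
  have hmem' : c₀ ∈ C' := (hC c₀ (by omega)).1 hmem
  have hmin' : ∀ c ∈ C', c₀ ≤ c := by
    intro c hc
    rcases Nat.lt_or_ge c T with h2 | h2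
    · exact hmin c ((hC c h2).2 hc)
    · omega
  intro a
  induction a using Nat.strong_induction_on with
  | _ a ih =>
    intro ha
    have ih' : ∀ b < a, b ∈ A ↔ b ∈ A' := fun b hb => ih b hb (by omega)
    constructor
    · exact det_aux h h' hS hT hC hmem hmin (by omega) ih'
    · exact det_aux h' h (fun s => (hS s).symm) hT (fun c hc => (hC c hc).symm) hmem' hmin'
        (by omega) fun b hb => (ih' b hb).symm

open Classical in
lemma triple (h : EX A C S N P) {n : ℕ} (hn : n < N) (A' : Finset ℕ) :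
    (((A ×ˢ A') ×ˢ C).filter fun x => x.1.1 + x.1.2 + x.2 = n).card =
      (A'.filter fun a' => a' ≤ n ∧ S (n - a')).card := by
  have himg : (((A ×ˢ A') ×ˢ C).filter fun x => x.1.1 + x.1.2 + x.2 = n).image (fun x => x.1.2) =
      A'.filter fun a' => a' ≤ n ∧ S (n - a') := by
    ext a'
    rw [Finset.mem_image, Finset.mem_filter]
    constructor
    · rintro ⟨x, hx, rfl⟩
      rw [Finset.mem_filter, Finset.mem_product, Finset.mem_product] at hx
      obtain ⟨⟨⟨h1, h2⟩, h3⟩, h4⟩ := hx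
      have h5 : n - x.1.2 = x.1.1 + x.2 := by omega
      refine ⟨h2, by omega, ?_⟩
      rw [h5]
      exact h.into _ h1 _ h3 (by omega)
    · rintro ⟨h1, h2, h3⟩
      obtain ⟨a, ha, c, hc, h4⟩ := h.ex _ (by omega) h3
      refine ⟨((a, a'), c), ?_, rfl⟩
      rw [Finset.mem_filter, Finset.mem_product, Finset.mem_product]
      exact ⟨⟨⟨ha, h1⟩, hc⟩, by simp only; omega⟩
  rw [← himg]
  symm
  refine Finset.card_image_of_injOn ?_
  intro x hx y hy hxy
  rw [Finset.mem_coe, Finset.mem_filter, Finset.mem_product, Finset.mem_product] at hx hy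
  obtain ⟨⟨⟨h1, h2⟩, h3⟩, h4⟩ := hx
  obtain ⟨⟨⟨h1', h2'⟩, h3'⟩, h4'⟩ := hy
  simp only at hxy
  have h5 := h.un x.1.1 h1 x.2 h3 y.1.1 h1' y.2 h3' (by omega) (by omega)
  exact Prod.ext (Prod.ext h5.1 hxy) h5.2

/-- Two sets with the same complement are near each other. -/
theorem near (h : EX A C S N P) (h' : EX A' C S' N P) {a' : ℕ} (ha' : a' ∈ A')
    (haN : a' + P ≤ N) : ∃ a ∈ A, a < a' + P ∧ a' < a + P := by
  classical
  have hcount : ∀ n < N, (A'.filter fun a' => a' ≤ n ∧ S (n - a')).card =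
      (A.filter fun a => a ≤ n ∧ S' (n - a)).card := by
    intro n hn
    rw [← triple h hn A', ← triple h' hn A]
    refine Finset.card_bij (fun x _ => ((x.1.2, x.1.1), x.2)) ?_ ?_ ?_
    · intro x hx
      rw [Finset.mem_filter, Finset.mem_product, Finset.mem_product] at hx ⊢
      obtain ⟨⟨⟨h1, h2⟩, h3⟩, h4⟩ := hx
      exact ⟨⟨⟨h2, h1⟩, h3⟩, by simp only; omega⟩
    · intro x _ y _ hxy
      simp only [Prod.mk.injEq] at hxy
      exact Prod.ext (Prod.ext hxy.1.2 hxy.1.1) hxy.2
    · intro y hy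
      rw [Finset.mem_filter, Finset.mem_product, Finset.mem_product] at hy
      obtain ⟨⟨⟨h1, h2⟩, h3⟩, h4⟩ := hy
      refine ⟨((y.1.2, y.1.1), y.2), ?_, rfl⟩
      rw [Finset.mem_filter, Finset.mem_product, Finset.mem_product]
      exact ⟨⟨⟨h2, h1⟩, h3⟩, by simp only; omega⟩
  obtain ⟨e, heP, he⟩ := h.ne
  set n := a' + e with hn
  have hnN : n < N := by omega
  by_contra hcon
  push Not at hcon
  have hno : ∀ a ∈ A, a ≤ n → a + P ≤ n := by
    intro a ha han
    have h1 := hcon a ha (by omega)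
    omega
  have hmem : a' ∈ A'.filter fun a' => a' ≤ n ∧ S (n - a') := by
    rw [Finset.mem_filter]
    refine ⟨ha', by omega, ?_⟩
    rw [hn, Nat.add_sub_cancel_left]
    exact he
  have h1 := hcount n hnN
  rcases Nat.lt_or_ge n P with hnP | hnP
  · have h2 : (A.filter fun a => a ≤ n ∧ S' (n - a)) = ∅ := by
      rw [Finset.filter_eq_empty_iff]
      rintro a ha ⟨h3, _⟩
      have := hno a ha h3
      omega
    rw [h2, Finset.card_empty, Finset.card_eq_zero] at h1
    rw [h1] at hmem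
    exact absurd hmem (Finset.notMem_empty _)
  · have h2 : (A.filter fun a => a ≤ n ∧ S' (n - a)) =
        A.filter fun a => a ≤ n - P ∧ S' (n - P - a) := by
      refine Finset.filter_congr fun a ha => ?_
      constructor
      · rintro ⟨h3, h4⟩
        have h5 := hno a ha h3
        refine ⟨by omega, ?_⟩
        rw [h'.per, show n - P - a + P = n - a by omega]
        exact h4
      · rintro ⟨h3, h4⟩
        refine ⟨by omega, ?_⟩
        rw [h'.per, show n - P - a + P = n - a by omega] at h4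
        exact h4
    have h3 := hcount (n - P) (by omega)
    rw [h2, ← h3] at h1
    have h4 : (A'.filter fun a' => a' ≤ n - P ∧ S (n - P - a')) ⊂
        A'.filter fun a' => a' ≤ n ∧ S (n - a') := by
      rw [Finset.ssubset_iff_of_subset]
      · refine ⟨a', hmem, fun hh => ?_⟩
        rw [Finset.mem_filter] at hh
        omega
      · intro b hb
        rw [Finset.mem_filter] at hb ⊢
        refine ⟨hb.1, by omega, ?_⟩
        have h5 := hb.2.2
        rw [h.per, show n - P - b + P = n - b by omega] at h5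
        exact h5
    have h5 := Finset.card_lt_card h4
    omega

end Pool.Agent.Helper72.PG
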