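import Pool.Agent.Helper72.PG.Base

/-! Irreducible stages in trees with few types. -/

namespace Pool.Agent.Helper72.PG

open Finset Pool.Agent.Helper72.PW Pool.Agent.Helper72.PL

lemma mem_tys_rr {g : ℕ → ℕ} (hg : ∀ j, 2 ≤ g j) (i k l : ℕ) {X τ : Finset ℕ} :
    τ ∈ tys (rr g i (k + l)) X ↔ ∃ σ ∈ tys (rr g i k) X, τ ∈ tys (rr g (i + k) l) σ := by
  rw [rr_add]
  exact mem_tys_mul (rr_pos hg _ _) (rr_pos hg _ _)

lemma tys_sub {g : ℕ → ℕ} (hg : ∀ j, 2 ≤ g j) (i k l : ℕ) {X σ : Finset ℕ}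
    (hσ : σ ∈ tys (rr g i k) X) : tys (rr g (i + k) l) σ ⊆ tys (rr g i (k + l)) X :=
  fun _ hτ => (mem_tys_rr hg i k l).2 ⟨σ, hσ, hτ⟩

/-- the same types at one place give the same types later -/
lemma tys_later {g : ℕ → ℕ} (hg : ∀ j, 2 ≤ g j) (i k j l : ℕ) {X τ : Finset ℕ}
    (he : tys (rr g (i + k) j) τ = tys (rr g i (k + j)) X) :
    tys (rr g (i + k) (j + l)) τ = tys (rr g i (k + (j + l))) X := by
  ext ρ
  rw [mem_tys_rr hg (i + k) j l, ← add_assoc k j l, mem_tys_rr hg i (k + j) l, he, add_assoc i k j]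

lemma two_le_tys {g : ℕ → ℕ} {i k : ℕ} {X Y : Finset ℕ} (hX : X.Nonempty) (hY : Y.Nonempty) :
    2 ≤ (tys (rr g i k) X).card + (tys (rr g i k) Y).card := by
  have h1 := Finset.card_pos.2 (tys_nonempty (M := rr g i k) hX)
  have h2 := Finset.card_pos.2 (tys_nonempty (M := rr g i k) hY)
  omega

/-- Many irreducible stages. -/
theorem irr_exists (L : ℕ → ℕ) (b₀ : ℕ) (r : ℕ) : ∃ B : ℕ, ∀ (g : ℕ → ℕ), (∀ j, 2 ≤ g j) →
    ∀ (i : ℕ) (X Y : Finset ℕ), X.Nonempty → Y.Nonempty →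
    (∀ j ≤ B, (tys (rr g i j) X).card + (tys (rr g i j) Y).card ≤ r) →
    ∃ b j, b₀ ≤ b ∧ j + L b * b ≤ B ∧ ∃ σ ∈ tys (rr g i j) X, ∃ ρ ∈ tys (rr g i j) Y,
      ∀ n < L b,
        (∀ τ ∈ tys (rr g (i + j) (n * b)) σ,
          tys (rr g (i + j + n * b) b) τ = tys (rr g (i + j) (n * b + b)) σ) ∧
        ∀ τ ∈ tys (rr g (i + j) (n * b)) ρ,
          tys (rr g (i + j + n * b) b) τ = tys (rr g (i + j) (n * b + b)) ρ := by
  induction r with
  | zero =>
    refine ⟨0, fun g _ i X Y hX hY h => ?_⟩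
    have h1 := h 0 le_rfl
    have h2 := two_le_tys (g := g) (i := i) (k := 0) hX hY
    omega
  | succ r ih =>
    obtain ⟨B', hB'⟩ := ih
    set b := max B' b₀ with hb
    refine ⟨L b * b, fun g hg i X Y hX hY h => ?_⟩
    by_cases hall : ∀ n < L b,
        (∀ τ ∈ tys (rr g i (n * b)) X,
          tys (rr g (i + n * b) b) τ = tys (rr g i (n * b + b)) X) ∧
        ∀ τ ∈ tys (rr g i (n * b)) Y,
          tys (rr g (i + n * b) b) τ = tys (rr g i (n * b + b)) Y
    · refine ⟨b, 0, le_max_right _ _, by omega, X, ?_, Y, ?_, ?_⟩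
      · rw [rr_zero, tys_one hX]
        exact Finset.mem_singleton_self _
      · rw [rr_zero, tys_one hY]
        exact Finset.mem_singleton_self _
      · simpa using hall
    · have hex : ∃ n < L b, ∃ τ ∈ tys (rr g i (n * b)) X, ∃ τ' ∈ tys (rr g i (n * b)) Y,
          ∀ j ≤ b, (tys (rr g (i + n * b) j) τ).card + (tys (rr g (i + n * b) j) τ').card ≤ r := by
        by_contra hcon
        push Not at hcon
        apply hall
        intro n hn
        have hnb : n * b + b ≤ L b * b := by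
          calc n * b + b = (n + 1) * b := by ring
            _ ≤ L b * b := Nat.mul_le_mul_right _ hn
        have key : ∀ τ ∈ tys (rr g i (n * b)) X, ∀ τ' ∈ tys (rr g i (n * b)) Y,
            tys (rr g (i + n * b) b) τ = tys (rr g i (n * b + b)) X ∧
            tys (rr g (i + n * b) b) τ' = tys (rr g i (n * b + b)) Y := by
          intro τ hτ τ' hτ'
          obtain ⟨j, hj, hlt⟩ := hcon n hn τ hτ τ' hτ'
          have h1 := h (n * b + j) (by omega)
          have h2 := tys_sub hg i (n * b) j hτ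
          have h3 := tys_sub hg i (n * b) j hτ'
          have h4 := Finset.card_le_card h2
          have h5 := Finset.card_le_card h3
          have h6 : tys (rr g (i + n * b) j) τ = tys (rr g i (n * b + j)) X :=
            Finset.eq_of_subset_of_card_le h2 (by omega)
          have h7 : tys (rr g (i + n * b) j) τ' = tys (rr g i (n * b + j)) Y :=
            Finset.eq_of_subset_of_card_le h3 (by omega)
          obtain ⟨l, hl⟩ := Nat.exists_eq_add_of_le hj
          have h8 := tys_later hg i _ j l h6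
          have h9 := tys_later hg i _ j l h7
          rw [← hl] at h8 h9
          exact ⟨h8, h9⟩
        obtain ⟨τ₀, hτ₀⟩ := tys_nonempty (M := rr g i (n * b)) hX
        obtain ⟨τ₁, hτ₁⟩ := tys_nonempty (M := rr g i (n * b)) hY
        exact ⟨fun τ hτ => (key τ hτ τ₁ hτ₁).1, fun τ hτ => (key τ₀ hτ₀ τ hτ).2⟩
      obtain ⟨n, hn, τ, hτ, τ', hτ', hle⟩ := hex
      have hnb : n * b + b ≤ L b * b := by
        calc n * b + b = (n + 1) * b := by ring
          _ ≤ L b * b := Nat.mul_le_mul_right _ hn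
      have hB'b : B' ≤ b := le_max_left _ _
      obtain ⟨b₁, j₁, h1, h2, σ, hσ, ρ, hρ, h3⟩ := hB' g hg (i + n * b) τ τ' (tys_ne hτ)
        (tys_ne hτ') fun j hj => hle j (by omega)
      refine ⟨b₁, n * b + j₁, h1, by omega, σ, ?_, ρ, ?_, ?_⟩
      · exact (mem_tys_rr hg i (n * b) j₁).2 ⟨τ, hτ, hσ⟩
      · exact (mem_tys_rr hg i (n * b) j₁).2 ⟨τ', hτ', hρ⟩
      · rw [← add_assoc i (n * b) j₁]
        exact h3

end Pool.Agent.Helper72.PG
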