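import Pool.Agent.Helper72.PG.Gain
import Pool.Agent.Helper72.PG.Irr

/-! Pairs of trees with few types, complementary sizes and similar subtrees have few sums. -/

namespace Pool.Agent.Helper72.PG

open Finset Pool.Agent.Helper72.PW Pool.Agent.Helper72.PL

/-- every element of `σ` is near an element of `τ`, modulo `R` -/
def Nr (R C : ℕ) (τ σ : Finset ℕ) : Prop := ∀ y ∈ σ, ∃ x ∈ τ, ∃ d < 2 * C, y + C ≡ x + d [MOD R]

lemma card_sm_near {R C : ℕ} (hR : 0 < R) {τ σ σ' : Finset ℕ} (hσ : ∀ y ∈ σ, y < R)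
    (hσ' : ∀ y ∈ σ', y < R) (h1 : Nr R C τ σ) (h2 : Nr R C τ σ') :
    (sm σ σ').card ≤ 8 * C * (sm τ τ).card := by
  classical
  have hsub : sm σ σ' ⊆ ((sm τ τ ×ˢ Finset.range (4 * C)) ×ˢ Finset.range 2).image
      (fun p => (p.1.1 + p.1.2 + (2 * C * R - 2 * C)) % R + R * p.2) := by
    intro s hs
    rw [mem_sm] at hs
    obtain ⟨y, hy, y', hy', rfl⟩ := hs
    obtain ⟨x, hx, d, hd, hxd⟩ := h1 y hy
    obtain ⟨x', hx', d', hd', hxd'⟩ := h2 y' hy'
    have l1 := hσ y hy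
    have l2 := hσ' y' hy'
    rw [Finset.mem_image]
    refine ⟨((x + x', d + d'), (y + y') / R), ?_, ?_⟩
    · rw [Finset.mem_product, Finset.mem_product]
      refine ⟨⟨mem_sm.2 ⟨x, hx, x', hx', rfl⟩, Finset.mem_range.2 ?_⟩, Finset.mem_range.2 ?_⟩
      · simp only
        omega
      · simp only
        refine Nat.div_lt_of_lt_mul ?_
        omega
    · simp only
      have hC : 2 * C ≤ 2 * C * R := Nat.le_mul_of_pos_right _ hR
      have h3 : (y + y') + 2 * C + (2 * C * R - 2 * C) ≡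
          (x + x') + (d + d') + (2 * C * R - 2 * C) [MOD R] := by
        refine Nat.ModEq.add_right _ ?_
        have e1 : y + y' + 2 * C = (y + C) + (y' + C) := by ring
        have e2 : (x + x') + (d + d') = (x + d) + (x' + d') := by ring
        rw [e1, e2]
        exact Nat.ModEq.add hxd hxd'
      have h4 : (y + y') + 2 * C + (2 * C * R - 2 * C) = (y + y') + 2 * C * R := by omega
      rw [h4] at h3
      have h5 : (x + x' + (d + d') + (2 * C * R - 2 * C)) % R = (y + y') % R := by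
        have h6 : ((y + y') + 2 * C * R) % R = (y + y') % R := Nat.add_mul_mod_self_right _ _ _
        rw [← h6]
        exact h3.symm
      rw [h5, Nat.mod_add_div]
  refine (Finset.card_le_card hsub).trans (Finset.card_image_le.trans (le_of_eq ?_))
  rw [Finset.card_product, Finset.card_product, Finset.card_range, Finset.card_range]
  ring

/-- a pair of trees with complementary sizes -/
structure TP (g : ℕ → ℕ) (i w : ℕ) (X Y : Finset ℕ) (K C : ℕ) : Prop where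
  neX : X.Nonempty
  neY : Y.Nonempty
  ltX : ∀ x ∈ X, x < rr g i w
  ltY : ∀ x ∈ Y, x < rr g i w
  fewX : ∀ k ≤ w, (tys (rr g i k) X).card ≤ K
  fewY : ∀ k ≤ w, (tys (rr g i k) Y).card ≤ K
  low : ∀ k l, k + l ≤ w → ∀ σ ∈ tys (rr g i k) X, ∀ ρ ∈ tys (rr g i k) Y,
    rr g (i + k) l ≤ C * ((im (rr g (i + k) l) σ).card * (im (rr g (i + k) l) ρ).card)
  up : ∀ k l, k + l ≤ w → ∀ σ ∈ tys (rr g i k) X, ∀ ρ ∈ tys (rr g i k) Y,
    (im (rr g (i + k) l) σ).card * (im (rr g (i + k) l) ρ).card ≤ C * rr g (i + k) l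
  nearX : ∀ k ≤ w, ∀ σ ∈ tys (rr g i k) X, ∀ τ ∈ tys (rr g i k) X, Nr (rr g (i + k) (w - k)) C τ σ
  nearY : ∀ k ≤ w, ∀ σ ∈ tys (rr g i k) Y, ∀ τ ∈ tys (rr g i k) Y, Nr (rr g (i + k) (w - k)) C τ σ

variable {g : ℕ → ℕ} {i w K C : ℕ} {X Y : Finset ℕ}

lemma TP.symm (h : TP g i w X Y K C) : TP g i w Y X K C :=
  ⟨h.neY, h.neX, h.ltY, h.ltX, h.fewY, h.fewX,
    fun k l hk σ hσ ρ hρ => by rw [mul_comm (im _ σ).card]; exact h.low k l hk ρ hρ σ hσ,
    fun k l hk σ hσ ρ hρ => by rw [mul_comm (im _ σ).card]; exact h.up k l hk ρ hρ σ hσ,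
    h.nearY, h.nearX⟩

lemma tys_lt (hg : ∀ j, 2 ≤ g j) (hX : ∀ x ∈ X, x < rr g i w) {k : ℕ} (hk : k ≤ w) {σ : Finset ℕ}
    (hσ : σ ∈ tys (rr g i k) X) : ∀ y ∈ σ, y < rr g (i + k) (w - k) := by
  intro y hy
  rw [mem_tys] at hσ
  obtain ⟨a, ha, rfl⟩ := hσ
  rw [mem_sb (rr_pos hg i k) (im_lt (rr_pos hg i k) ha)] at hy
  have h1 := hX _ hy
  have h2 : rr g i w = rr g i k * rr g (i + k) (w - k) := by
    rw [← rr_add, Nat.add_sub_cancel' hk]
  rw [h2] at h1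
  exact Nat.lt_of_mul_lt_mul_left ((Nat.le_add_left _ _).trans_lt h1)

lemma im_self {R : ℕ} {σ : Finset ℕ} (h : ∀ y ∈ σ, y < R) : im R σ = σ := by
  ext y
  rw [mem_im]
  constructor
  · rintro ⟨x, hx, rfl⟩
    rw [Nat.mod_eq_of_lt (h x hx)]
    exact hx
  · intro hy
    exact ⟨y, hy, Nat.mod_eq_of_lt (h y hy)⟩

/-- the sizes of the types at one place are comparable -/
lemma TP.cmp (hg : ∀ j, 2 ≤ g j) (h : TP g i w X Y K C) {k : ℕ} (hk : k ≤ w) {σ τ : Finset ℕ}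
    (hσ : σ ∈ tys (rr g i k) X) (hτ : τ ∈ tys (rr g i k) X) : σ.card ≤ C ^ 2 * τ.card := by
  obtain ⟨ρ, hρ⟩ := tys_nonempty (M := rr g i k) h.neY
  have h1 := h.up k (w - k) (by omega) σ hσ ρ hρ
  have h2 := h.low k (w - k) (by omega) τ hτ ρ hρ
  rw [im_self (tys_lt hg h.ltX hk hσ), im_self (tys_lt hg h.ltY hk hρ)] at h1
  rw [im_self (tys_lt hg h.ltX hk hτ), im_self (tys_lt hg h.ltY hk hρ)] at h2
  have hρ0 := Finset.card_pos.2 (tys_ne hρ)
  refine Nat.le_of_mul_le_mul_right ?_ hρ0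
  calc σ.card * ρ.card ≤ C * rr g (i + k) (w - k) := h1
    _ ≤ C * (C * (τ.card * ρ.card)) := Nat.mul_le_mul_left _ h2
    _ = _ := by ring

lemma card_le_of_types {M c : ℕ} (hM : 0 < M) (σ : Finset ℕ)
    (h : ∀ τ ∈ tys M σ, τ.card ≤ c) : σ.card ≤ M * c := by
  rw [card_eq_sum M σ]
  calc ∑ a ∈ im M σ, (sb M σ a).card ≤ ∑ _a ∈ im M σ, c :=
        Finset.sum_le_sum fun a ha => h _ (sb_mem_tys ha)
    _ = (im M σ).card * c := by rw [Finset.sum_const, smul_eq_mul]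
    _ ≤ M * c := by
        refine Nat.mul_le_mul_right _ ?_
        have : im M σ ⊆ Finset.range M := fun a ha => Finset.mem_range.2 (im_lt hM ha)
        exact (Finset.card_le_card this).trans (le_of_eq (Finset.card_range _))

/-- the stages -/
lemma TP.stages {Q : ℕ} (hg : ∀ j, 2 ≤ g j) (hQ : ∀ j, g j ≤ Q) (hC : 1 ≤ C)
    (h : TP g i w X Y K C) {b j L : ℕ} (hj : j + L * b ≤ w) {σ : Finset ℕ}
    (hσ : σ ∈ tys (rr g i j) X)
    (hirr : ∀ n < L, ∀ τ ∈ tys (rr g (i + j) (n * b)) σ,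
      tys (rr g (i + j + n * b) b) τ = tys (rr g (i + j) (n * b + b)) σ) :
    Stg (fun n => tys (rr g (i + j) (n * b)) σ) (fun n => rr g (i + j + n * b) b)
      (1 / ((Q : ℝ) ^ b * C ^ 2)) L := by
  have hQ2 : 2 ≤ Q := (hg 0).trans (hQ 0)
  have hQr : (0 : ℝ) < Q := by exact_mod_cast (by omega : 0 < Q)
  have hCr : (0 : ℝ) < C := by exact_mod_cast hC
  have hsucc : ∀ n, (n + 1) * b = n * b + b := fun n => by ring
  have hlen : ∀ n < L, j + (n * b + b) ≤ w := by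
    intro n hn
    have : n * b + b ≤ L * b := by rw [← hsucc n]; exact Nat.mul_le_mul_right _ hn
    omega
  refine ⟨fun n hn τ hτ x hx => ?_, fun n _ => tys_nonempty (tys_ne hσ), fun n hn τ hτ τ' hτ' => ?_,
    fun n hn τ hτ τ' hτ' => ?_⟩
  · rw [hsucc, ← hirr n hn τ hτ]
    exact sb_mem_tys hx
  · rw [hsucc, ← hirr n hn τ hτ] at hτ'
    exact mem_tys.1 hτ'
  · rw [hsucc] at hτ'
    have h1 : ∀ τ'' ∈ tys (rr g (i + j + n * b) b) τ, τ''.card ≤ C ^ 2 * τ'.card := by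
      intro τ'' hτ''
      rw [hirr n hn τ hτ] at hτ''
      have e1 : τ'' ∈ tys (rr g i (j + (n * b + b))) X :=
        (mem_tys_rr hg i j (n * b + b)).2 ⟨σ, hσ, hτ''⟩
      have e2 : τ' ∈ tys (rr g i (j + (n * b + b))) X :=
        (mem_tys_rr hg i j (n * b + b)).2 ⟨σ, hσ, hτ'⟩
      exact h.cmp hg (hlen n hn) e1 e2
    have h2 := card_le_of_types (rr_pos hg _ _) τ h1
    have h3 : τ.card ≤ Q ^ b * (C ^ 2 * τ'.card) :=
      h2.trans (Nat.mul_le_mul_right _ (rr_le hQ _ _))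
    have h4 : (τ.card : ℝ) ≤ (Q : ℝ) ^ b * (C ^ 2 * τ'.card) := by exact_mod_cast h3
    rw [one_div, inv_mul_le_iff₀ (by positivity)]
    linarith

/-- the sums of a tree and the sums of a subtree -/
lemma TP.sums_le (hg : ∀ j, 2 ≤ g j) (h : TP g i w X Y K C) {k : ℕ} (hk : k ≤ w) {σ : Finset ℕ}
    (hσ : σ ∈ tys (rr g i k) X) :
    ((sm X X).card : ℝ) ≤ ((im (rr g i k) X).card : ℝ) ^ 2 * (8 * C * (sm σ σ).card) := by
  have hR := rr_pos hg (i + k) (w - k)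
  refine (card_sm_split (M := rr g i k) X X (im (rr g i k) X ×ˢ im (rr g i k) X)
    fun p hp => Or.inl hp).trans ?_
  calc ∑ p ∈ im (rr g i k) X ×ˢ im (rr g i k) X,
        ((sm (sb (rr g i k) X p.1) (sb (rr g i k) X p.2)).card : ℝ)
      ≤ ∑ _p ∈ im (rr g i k) X ×ˢ im (rr g i k) X, (8 * C * (sm σ σ).card : ℝ) := by
        refine Finset.sum_le_sum fun p hp => ?_
        rw [Finset.mem_product] at hp
        have e1 := sb_mem_tys hp.1
        have e2 := sb_mem_tys hp.2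
        have := card_sm_near hR (tys_lt hg h.ltX hk e1) (tys_lt hg h.ltX hk e2)
          (h.nearX k hk _ e1 σ hσ) (h.nearX k hk _ e2 σ hσ)
        exact_mod_cast this
    _ = _ := by
        rw [Finset.sum_const, Finset.card_product, nsmul_eq_mul]
        push_cast
        ring

/-- Few sums. -/
theorem few_sums {Q C : ℕ} (hQ2 : 2 ≤ Q) (hC : 1 ≤ C) (K : ℕ) {η : ℝ} (hη : 0 < η) :
    ∃ w : ℕ, ∀ (g : ℕ → ℕ), (∀ j, 2 ≤ g j) → (∀ j, g j ≤ Q) → ∀ (i : ℕ) (X Y : Finset ℕ),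
    TP g i w X Y K C → ((sm X X).card : ℝ) * (sm Y Y).card ≤ η * (rr g i w : ℝ) ^ 2 := by
  have hQr : (2 : ℝ) ≤ Q := by exact_mod_cast hQ2
  have hCr : (1 : ℝ) ≤ C := by exact_mod_cast hC
  set ε : ℕ → ℝ := fun b => 1 / ((Q : ℝ) ^ b * C ^ 2) with hε
  have hε0 : ∀ b, 0 < ε b := fun b => by rw [hε]; positivity
  have hε1 : ∀ b, ε b ≤ 1 := by
    intro b
    rw [hε]
    simp only
    rw [div_le_one (by positivity)]
    have e1 : (1 : ℝ) ≤ (Q : ℝ) ^ b := one_le_pow₀ (by linarith)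
    have e2 : (1 : ℝ) ≤ (C : ℝ) ^ 2 := one_le_pow₀ hCr
    exact one_le_mul_of_one_le_of_one_le e1 e2
  set η' : ℝ := η / (64 * (C : ℝ) ^ 6) with hη'
  have hη'0 : 0 < η' := by rw [hη']; positivity
  have hk : ∀ b, ∃ k : ℕ, (1 - ε b ^ 4) ^ k ≤ η' := by
    intro b
    have h1 : 0 < ε b ^ 4 := pow_pos (hε0 b) 4
    have h2 : 1 - ε b ^ 4 < 1 := by linarith
    obtain ⟨k, hk⟩ := exists_pow_lt_of_lt_one hη'0 h2
    exact ⟨k, hk.le⟩
  choose kk hkk using hk
  obtain ⟨B, hB⟩ := irr_exists (fun b => 2 * kk b) (C + 1) (2 * K)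
  refine ⟨B, fun g hg hQ i X Y h => ?_⟩
  obtain ⟨b, j, hb, hjB, σ, hσ, ρ, hρ, hirr⟩ := hB g hg i X Y h.neX h.neY fun j hj => by
    have h1 := h.fewX j hj
    have h2 := h.fewY j hj
    omega
  have hjw : j ≤ B := by omega
  have hS := h.stages hg hQ hC hjB hσ fun n hn => (hirr n hn).1
  have hS' := h.symm.stages hg hQ hC hjB hρ fun n hn => (hirr n hn).2
  have hbr : ∀ n < 2 * kk b,
      (∀ τ ∈ tys (rr g (i + j) (n * b)) σ, 2 ≤ (im (rr g (i + j + n * b) b) τ).card) ∨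
      ∀ τ ∈ tys (rr g (i + j) (n * b)) ρ, 2 ≤ (im (rr g (i + j + n * b) b) τ).card := by
    intro n hn
    by_contra hcon
    push Not at hcon
    obtain ⟨⟨τ, hτ, h1⟩, τ', hτ', h2⟩ := hcon
    have hlen : (j + n * b) + b ≤ B := by
      have : n * b + b ≤ 2 * kk b * b := by
        calc n * b + b = (n + 1) * b := by ring
          _ ≤ _ := Nat.mul_le_mul_right _ hn
      omega
    have e1 : τ ∈ tys (rr g i (j + n * b)) X := (mem_tys_rr hg i j (n * b)).2 ⟨σ, hσ, hτ⟩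
    have e2 : τ' ∈ tys (rr g i (j + n * b)) Y := (mem_tys_rr hg i j (n * b)).2 ⟨ρ, hρ, hτ'⟩
    have h3 := h.low (j + n * b) b hlen τ e1 τ' e2
    rw [← add_assoc] at h3
    have h4 : (im (rr g (i + j + n * b) b) τ).card * (im (rr g (i + j + n * b) b) τ').card ≤ 1 := by
      calc _ ≤ 1 * 1 := Nat.mul_le_mul (by omega) (by omega)
        _ = 1 := rfl
    have h5 := rr_ge hg (i + j + n * b) b
    have h6 : b < 2 ^ b := Nat.lt_two_pow_self
    have h7 : C * ((im (rr g (i + j + n * b) b) τ).card *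
        (im (rr g (i + j + n * b) b) τ').card) ≤ C * 1 := Nat.mul_le_mul_left _ h4
    omega
  obtain ⟨a, b', ha, hb', hPA, hPB, hab⟩ := gain (hε0 b).le (hε1 b) (kk b) _ _ _ hS hS' hbr
  have hσσ : ((sm σ σ).card : ℝ) ≤ a * ((σ.card : ℝ) * σ.card) := by
    refine hPA σ ?_ σ ?_ <;>
    · simp only [zero_mul, rr_zero]
      rw [tys_one (tys_ne hσ)]
      exact Finset.mem_singleton_self _
  have hρρ : ((sm ρ ρ).card : ℝ) ≤ b' * ((ρ.card : ℝ) * ρ.card) := by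
    refine hPB ρ ?_ ρ ?_ <;>
    · simp only [zero_mul, rr_zero]
      rw [tys_one (tys_ne hρ)]
      exact Finset.mem_singleton_self _
  have hX := h.sums_le hg hjw hσ
  have hY := h.symm.sums_le hg hjw hρ
  have hup1 := h.up j (B - j) (by omega) σ hσ ρ hρ
  rw [im_self (tys_lt hg h.ltX hjw hσ), im_self (tys_lt hg h.ltY hjw hρ)] at hup1
  have hup0 := h.up 0 j (by omega) X (by
    rw [rr_zero, tys_one h.neX]
    exact Finset.mem_singleton_self _) Y (by
    rw [rr_zero, tys_one h.neY]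
    exact Finset.mem_singleton_self _)
  rw [add_zero] at hup0
  have hrr : rr g i B = rr g i j * rr g (i + j) (B - j) := by
    rw [← rr_add, Nat.add_sub_cancel' hjw]
  have u1 : (σ.card : ℝ) * ρ.card ≤ C * rr g (i + j) (B - j) := by exact_mod_cast hup1
  have u0 : ((im (rr g i j) X).card : ℝ) * (im (rr g i j) Y).card ≤ C * rr g i j := by
    exact_mod_cast hup0
  have hab' : a * b' ≤ η' := hab.trans (hkk b)
  calc ((sm X X).card : ℝ) * (sm Y Y).card
      ≤ (((im (rr g i j) X).card : ℝ) ^ 2 * (8 * C * (a * ((σ.card : ℝ) * σ.card)))) *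
        (((im (rr g i j) Y).card : ℝ) ^ 2 * (8 * C * (b' * ((ρ.card : ℝ) * ρ.card)))) := by
        refine mul_le_mul (hX.trans ?_) (hY.trans ?_) (Nat.cast_nonneg _) (by positivity)
        · gcongr
        · gcongr
    _ = 64 * (C : ℝ) ^ 2 * (a * b') * (((im (rr g i j) X).card : ℝ) * (im (rr g i j) Y).card) ^ 2 *
        ((σ.card : ℝ) * ρ.card) ^ 2 := by ring
    _ ≤ 64 * (C : ℝ) ^ 2 * η' * (C * rr g i j) ^ 2 * (C * rr g (i + j) (B - j)) ^ 2 := by
        gcongr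
    _ = η * (rr g i B : ℝ) ^ 2 := by
        rw [hrr, hη']
        push_cast
        field_simp

end Pool.Agent.Helper72.PG
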