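import Pool.Agent.Helper72.PG.Main5
import Pool.Agent.Helper72.PL.SquareC

/-! Choices with bounded look-ahead: the mean square. -/

namespace Pool.Agent.Helper72.PG

open Finset Filter Pool.Agent.Helper72.NS Pool.Agent.Helper72.PW Pool.Agent.Helper72.PL

/-- pairs of residues and representations -/
lemma cs_resG (A : Set ℕ) (K : ℕ → ℕ) {e d M D H : ℕ} (hd : 0 < d)
    (hK : ∀ z < D, e + d * K z ∈ A) (hlt : ∀ z < D, K z < M * H) (s : ℕ) :
    cs (rd M D K) s ≤ ∑ c ∈ Finset.range (2 * H), rep A (2 * e + d * (s + M * c)) := by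
  classical
  have hex : ∀ a, ∃ z, a ∈ rd M D K → z < D ∧ K z % M = a := by
    intro a
    by_cases ha : a ∈ rd M D K
    · have ha' := ha
      unfold rd at ha'
      rw [Finset.mem_image] at ha'
      obtain ⟨z, hz, h1⟩ := ha'
      exact ⟨z, fun _ => ⟨Finset.mem_range.1 hz, h1⟩⟩
    · exact ⟨0, fun h => absurd h ha⟩
  choose zz hzz using hex
  unfold cs
  set S := (rd M D K ×ˢ rd M D K).filter fun q => q.1 + q.2 = s with hS
  have hmem : ∀ q ∈ S, q.1 ∈ rd M D K ∧ q.2 ∈ rd M D K ∧ q.1 + q.2 = s := by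
    intro q hq
    rw [hS, Finset.mem_filter, Finset.mem_product] at hq
    exact ⟨hq.1.1, hq.1.2, hq.2⟩
  set ε : ℕ × ℕ → ℕ := fun q => K (zz q.1) / M + K (zz q.2) / M with hε
  have hεlt : ∀ q ∈ S, ε q ∈ Finset.range (2 * H) := by
    intro q hq
    obtain ⟨h1, h2, _⟩ := hmem q hq
    have h3 := hlt _ (hzz q.1 h1).1
    have h4 := hlt _ (hzz q.2 h2).1
    have h5 := Nat.div_lt_of_lt_mul h3
    have h6 := Nat.div_lt_of_lt_mul h4
    rw [Finset.mem_range, hε]
    simp only
    omega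
  rw [Finset.card_eq_sum_card_fiberwise hεlt]
  refine Finset.sum_le_sum fun c hc => ?_
  have hval : ∀ a ∈ rd M D K, K (zz a) = a + M * (K (zz a) / M) := by
    intro a ha
    have h1 := Nat.div_add_mod (K (zz a)) M
    rw [(hzz a ha).2] at h1
    omega
  refine card_le_rep A _ (fun q => (e + d * K (zz q.1), e + d * K (zz q.2))) _ ?_ ?_
  · intro q hq q' hq' hqq
    rw [Finset.mem_coe, Finset.mem_filter] at hq hq'
    obtain ⟨h1, h2, _⟩ := hmem q hq.1
    obtain ⟨h3, h4, _⟩ := hmem q' hq'.1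
    simp only [Prod.mk.injEq] at hqq
    have h5 : K (zz q.1) = K (zz q'.1) :=
      Nat.eq_of_mul_eq_mul_left hd (by omega)
    have h6 : K (zz q.2) = K (zz q'.2) :=
      Nat.eq_of_mul_eq_mul_left hd (by omega)
    refine Prod.ext ?_ ?_
    · rw [← (hzz q.1 h1).2, h5, (hzz q'.1 h3).2]
    · rw [← (hzz q.2 h2).2, h6, (hzz q'.2 h4).2]
  · intro q hq
    rw [Finset.mem_filter] at hq
    obtain ⟨h1, h2, h3⟩ := hmem q hq.1
    refine ⟨hK _ (hzz q.1 h1).1, hK _ (hzz q.2 h2).1, ?_⟩
    have h4 := hval q.1 h1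
    have h5 := hval q.2 h2
    have h6 : K (zz q.1) / M + K (zz q.2) / M = c := hq.2
    simp only
    calc e + d * K (zz q.1) + (e + d * K (zz q.2))
        = 2 * e + d * ((q.1 + M * (K (zz q.1) / M)) + (q.2 + M * (K (zz q.2) / M))) := by
          rw [← h4, ← h5]; ring
      _ = 2 * e + d * ((q.1 + q.2) + M * (K (zz q.1) / M + K (zz q.2) / M)) := by ring
      _ = _ := by rw [h3, h6]

lemma en_resG (A : Set ℕ) (K : ℕ → ℕ) {e d M D H x : ℕ} (hd : 0 < d) (hM : 0 < M)
    (hK : ∀ z < D, e + d * K z ∈ A) (hlt : ∀ z < D, K z < M * H)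
    (hx : 2 * e + d * (2 * M + M * (2 * H)) ≤ x) : en (rd M D K) ≤ 4 * H ^ 2 * sq2 A x := by
  refine (en_le (rd M D K) M fun a ha => rd_lt hM ha).trans ?_
  have h1 : ∀ s ∈ Finset.range (2 * M), cs (rd M D K) s ^ 2 ≤
      2 * H * ∑ c ∈ Finset.range (2 * H), rep A (2 * e + d * (s + M * c)) ^ 2 := by
    intro s _
    refine (Nat.pow_le_pow_left (cs_resG A K hd hK hlt s) 2).trans ?_
    have := sq_sum_le_card_mul_sum_sq (s := Finset.range (2 * H))
      (f := fun c => rep A (2 * e + d * (s + M * c)))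
    rw [Finset.card_range] at this
    exact this
  refine (Finset.sum_le_sum h1).trans ?_
  rw [← Finset.mul_sum, Finset.sum_comm]
  have h2 : ∀ c ∈ Finset.range (2 * H),
      ∑ s ∈ Finset.range (2 * M), rep A (2 * e + d * (s + M * c)) ^ 2 ≤ sq2 A x := by
    intro c hc
    rw [Finset.mem_range] at hc
    unfold sq2
    refine sum_sub (fun n => rep A n ^ 2) (fun s => 2 * e + d * (s + M * c)) ?_ ?_
    · intro a _ b _ hab
      simp only at hab
      have h3 : d * (a + M * c) = d * (b + M * c) := by omega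
      have h4 := Nat.eq_of_mul_eq_mul_left hd h3
      omega
    · intro s hs
      have h3 : s + M * c < 2 * M + M * (2 * H) := by
        have := Nat.mul_le_mul_left M hc.le
        omega
      have h4 := Nat.mul_lt_mul_of_pos_left h3 hd
      omega
  calc 2 * H * ∑ c ∈ Finset.range (2 * H), ∑ s ∈ Finset.range (2 * M),
        rep A (2 * e + d * (s + M * c)) ^ 2
      ≤ 2 * H * ∑ _c ∈ Finset.range (2 * H), sq2 A x :=
        Nat.mul_le_mul_left _ (Finset.sum_le_sum h2)
    _ = _ := by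
        rw [Finset.sum_const, Finset.card_range, smul_eq_mul]
        ring

/-- the ratios of a chain -/
lemma chain_rr {m : ℕ → ℕ} (hm : Chain m) (t i k : ℕ) :
    m (t + i) * rr (fun j => m (t + j + 1) / m (t + j)) i k = m (t + i + k) := by
  induction k with
  | zero => simp
  | succ k ih =>
    rw [rr_succ, ← mul_assoc, ih, ← add_assoc]
    exact Nat.mul_div_cancel' (hm.dvd _)

/-- The reduced system. -/
lemma reduceG {m f : ℕ → ℕ} (hm : Chain m) {h t : ℕ} (hs : t < m t)
    (hf : ∀ n ≥ t, f n ≤ n)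
    (hL : ∀ j, ∀ n ≥ t, ∀ n' ≥ t, n % m (j + h) = n' % m (j + h) → f n % m j = f n' % m j) :
    (∀ z, f (t + m (t + h) * z) = f t + m t * (f (t + m (t + h) * z) / m t)) ∧
    Sys2 (fun j => m (t + j + 1) / m (t + j)) h (fun z => f (t + m (t + h) * z) / m t)
      (fun z => rr (fun j => m (t + j + 1) / m (t + j)) 0 h * z -
        f (t + m (t + h) * z) / m t) := by
  set g : ℕ → ℕ := fun j => m (t + j + 1) / m (t + j) with hg
  have hms : 0 < m t := hm.pos t
  have hft : f t < m t := (hf t le_rfl).trans_lt hs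
  have hP : m t * rr g 0 h = m (t + h) := by
    have := chain_rr hm t 0 h
    rw [add_zero] at this
    exact this
  have e1 : ∀ z, f (t + m (t + h) * z) = f t + m t * (f (t + m (t + h) * z) / m t) := by
    intro z
    have h1 := hL t (t + m (t + h) * z) (Nat.le_add_right _ _) t le_rfl
      (Nat.add_mul_mod_self_left _ _ _)
    rw [Nat.mod_eq_of_lt hft] at h1
    have h2 := Nat.div_add_mod (f (t + m (t + h) * z)) (m t)
    rw [h1] at h2
    omega
  have e2 : ∀ z, f (t + m (t + h) * z) / m t ≤ rr g 0 h * z := by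
    intro z
    have h1 := Nat.div_le_div_right (c := m t)
      (hf (t + m (t + h) * z) (Nat.le_add_right _ _))
    have h2 : t + m (t + h) * z = t + m t * (rr g 0 h * z) := by rw [← hP]; ring
    rw [h2, Nat.add_mul_div_left _ _ hms, Nat.div_eq_of_lt hs, zero_add] at h1
    rw [h2]
    exact h1
  set F : ℕ → ℕ := fun z => f (t + m (t + h) * z) / m t with hF
  have hadd : ∀ z, F z + (rr g 0 h * z - F z) = rr g 0 h * z := fun z =>
    Nat.add_sub_cancel' (e2 z)
  have hlf : ∀ i z z', z ≡ z' [MOD rr g h i] → F z ≡ F z' [MOD rr g 0 i] := by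
    intro i z z' hz
    have h1 : t + m (t + h) * z ≡ t + m (t + h) * z' [MOD m (t + i + h)] := by
      have h2 : m (t + i + h) = m (t + h) * rr g h i := by
        rw [chain_rr hm t h i]
        congr 1
        ring
      rw [h2]
      exact Nat.ModEq.add_left t (Nat.ModEq.mul_left' _ hz)
    have h3 : f (t + m (t + h) * z) ≡ f (t + m (t + h) * z') [MOD m (t + i)] :=
      hL (t + i) _ (Nat.le_add_right _ _) _ (Nat.le_add_right _ _) h1
    have h4 : f t + m t * F z ≡ f t + m t * F z' [MOD m t * rr g 0 i] := by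
      have h6 : m t * rr g 0 i = m (t + i) := by
        have := chain_rr hm t 0 i
        rw [add_zero] at this
        exact this
      rw [h6]
      have h5 := h3
      rw [e1 z, e1 z'] at h5
      exact h5
    exact Nat.ModEq.mul_left_cancel' hms.ne' (Nat.ModEq.add_left_cancel' _ h4)
  refine ⟨e1, ⟨hadd, hlf, fun i z z' hz => ?_⟩⟩
  have h1 : F z + (rr g 0 h * z - F z) ≡ F z' + (rr g 0 h * z' - F z') [MOD rr g 0 i] := by
    rw [hadd z, hadd z']
    have h2 : rr g 0 h * z ≡ rr g 0 h * z' [MOD rr g 0 h * rr g h i] := Nat.ModEq.mul_left' _ hz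
    have h3 : rr g 0 h * rr g h i = rr g 0 i * rr g i h := by
      have := rr_swap g h i 0
      rw [add_zero, zero_add] at this
      exact this
    rw [h3] at h2
    exact h2.of_dvd (Dvd.intro _ rfl)
  exact Nat.ModEq.add_left_cancel (hlf i z z' hz) h1

/-- Choices with bounded look-ahead along a chain of bounded ratios: the mean square of the number
of representations grows like a power. -/
theorem squareG (Q h : ℕ) : ∃ c : ℝ, 0 < c ∧ ∀ (A : Set ℕ) (m f : ℕ → ℕ) (t : ℕ), Chain m →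
    (∀ j, m (j + 1) ≤ Q * m j) →
    (∀ n ≥ t, f n ≤ n ∧ f n ∈ A ∧ n - f n ∈ A) →
    (∀ j, ∀ n ≥ t, ∀ n' ≥ t, n % m (j + h) = n' % m (j + h) → f n % m j = f n' % m j) →
    ∀ᶠ x : ℕ in atTop, (x : ℝ) ^ (1 + c) ≤ ∑ n ∈ Finset.range x, (rep A n : ℝ) ^ 2 := by
  rcases Nat.lt_or_ge Q 2 with hQ2 | hQ2
  · refine ⟨1, one_pos, fun A m f t hm hmQ => ?_⟩
    exfalso
    have h1 := hm.two 0
    have h2 := hmQ 0
    have h3 := hm.pos 0
    nlinarith
  obtain ⟨W, hW, c₀, hc₀, hlev⟩ := levelsG hQ2 h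
  have hQr : (2 : ℝ) ≤ Q := by exact_mod_cast hQ2
  have hlQ : 0 < Real.log Q := Real.log_pos (by linarith)
  have hWr : (1 : ℝ) ≤ W := by exact_mod_cast hW
  have hW0 : (0 : ℝ) < W := by linarith
  refine ⟨c₀ / (2 * (W * Real.log Q)), by positivity, fun A m f t hm hmQ hf hL => ?_⟩
  set c := c₀ / (2 * (W * Real.log Q)) with hc
  have hc0 : 0 < c := by positivity
  have hpow : ∀ j, 2 ^ j ≤ m j := by
    intro j
    induction j with
    | zero => rw [hm.one]; norm_num
    | succ j ih => have := hm.two j; rw [pow_succ]; omega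
  have hts : t < m t := (Nat.lt_two_pow_self).trans_le (hpow t)
  obtain ⟨e1, hsys⟩ := reduceG hm hts (fun n hn => (hf n hn).1) hL
  set g : ℕ → ℕ := fun j => m (t + j + 1) / m (t + j) with hgdef
  have hg : ∀ j, 2 ≤ g j := fun j => by
    rw [hgdef]
    simp only
    rw [Nat.le_div_iff_mul_le (hm.pos _)]
    exact hm.two _
  have hgQ : ∀ j, g j ≤ Q := fun j =>
    Nat.div_le_of_le_mul (by rw [mul_comm]; exact hmQ (t + j))
  set F : ℕ → ℕ := fun z => f (t + m (t + h) * z) / m t with hF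
  set P := rr g 0 h with hP
  have hPQ : P ≤ Q ^ h := rr_le hgQ _ _
  have hmt : 0 < m t := hm.pos t
  have hmP : m t * P = m (t + h) := by
    have := chain_rr hm t 0 h
    rw [add_zero] at this
    exact this
  have hRad := rad_mw hg hW
  set H := Q ^ h with hH
  have hH1 : 1 ≤ H := Nat.one_le_pow _ _ (by omega)
  have hHr : (1 : ℝ) ≤ (H : ℝ) := by exact_mod_cast hH1
  set D := 6 * (m t * H) with hD
  have hD0 : 0 < D := by positivity
  have hDr : (1 : ℝ) ≤ D := by exact_mod_cast hD0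
  set E : ℝ := 4 * (H : ℝ) ^ 2 * (D * ((Q ^ W : ℕ) : ℝ)) with hE
  have hQWr : (1 : ℝ) ≤ ((Q ^ W : ℕ) : ℝ) := by exact_mod_cast Nat.one_le_pow _ _ (by omega)
  have hE1 : 1 ≤ E := by
    rw [hE]
    have h1 : (1 : ℝ) ≤ (H : ℝ) ^ 2 := one_le_pow₀ hHr
    have h2 : (1 : ℝ) ≤ D * ((Q ^ W : ℕ) : ℝ) := one_le_mul_of_one_le_of_one_le hDr hQWr
    have h3 := one_le_mul_of_one_le_of_one_le h1 h2
    linarith
  have hE0 : 0 < E := by linarith
  have hlarge : ∀ᶠ x : ℕ in atTop,
      2 * h * Real.log Q + Real.log (2 * E) + c₀ * (Real.log D / (W * Real.log Q) + 1) <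
        c * Real.log x := by
    have h1 : Tendsto (fun x : ℕ => c * Real.log x) atTop atTop :=
      (Real.tendsto_log_atTop.comp tendsto_natCast_atTop_atTop).const_mul_atTop hc0
    exact h1.eventually_gt_atTop _
  filter_upwards [hlarge, Filter.eventually_ge_atTop (D + 1)] with x hx hxt
  rw [← sq2_cast]
  by_contra hcon
  rw [not_le] at hcon
  have hx0 : (0 : ℝ) < x := by exact_mod_cast (by omega : 0 < x)
  have hx1 : (1 : ℝ) ≤ x := by exact_mod_cast (by omega : 1 ≤ x)
  have hex : ∃ L, x < D * mw g W L := by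
    refine ⟨x, ?_⟩
    have h1 : x < mw g W x := by
      have h2 : 2 ^ (W * x) ≤ mw g W x := rr_ge hg _ _
      have h3 : x < 2 ^ x := Nat.lt_two_pow_self
      have h4 : 2 ^ x ≤ 2 ^ (W * x) :=
        Nat.pow_le_pow_right (by norm_num) (Nat.le_mul_of_pos_left _ (by omega))
      omega
    exact h1.trans_le (Nat.le_mul_of_pos_left _ hD0)
  classical
  set K := Nat.find hex with hK
  have hK1 : x < D * mw g W K := Nat.find_spec hex
  have hK0 : K ≠ 0 := by
    intro h0
    rw [h0, hRad.one, mul_one] at hK1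
    omega
  obtain ⟨L, hKL⟩ := Nat.exists_eq_succ_of_ne_zero hK0
  have hL1 : D * mw g W L ≤ x := by
    have h1 := Nat.find_min hex (m := L) (by rw [← hK, hKL]; exact Nat.lt_succ_self L)
    omega
  have hxM : (x : ℝ) ≤ D * ((Q ^ W : ℕ) : ℝ) * (mw g W L : ℝ) := by
    have h1 : x ≤ D * Q ^ W * mw g W L := by
      rw [hKL] at hK1
      have h2 : mw g W L.succ = gw g W L * mw g W L := hRad.succ L
      have h3 : gw g W L ≤ Q ^ W := rr_le hgQ _ _
      rw [h2] at hK1
      calc x ≤ D * (gw g W L * mw g W L) := hK1.le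
        _ ≤ D * (Q ^ W * mw g W L) := Nat.mul_le_mul_left _ (Nat.mul_le_mul_right _ h3)
        _ = _ := by ring
    exact_mod_cast h1
  set M := mw g W L with hM
  have hM0 : 0 < M := hRad.pos L
  have hbound : ∀ e, e ≤ t → 2 * e + m t * (2 * M + M * (2 * H)) ≤ x := by
    intro e he
    refine le_trans ?_ hL1
    have h1 : e ≤ m t := he.trans hts.le
    have h2 : m t ≤ m t * M := Nat.le_mul_of_pos_right _ hM0
    have h3 : m t * M ≤ m t * M * H := Nat.le_mul_of_pos_right _ hH1
    have h4 : D * M = 6 * (m t * M * H) := by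
      rw [hD]
      ring
    rw [h4]
    have h5 : m t * (2 * M + M * (2 * H)) = 2 * (m t * M) + 2 * (m t * M * H) := by
      ring
    rw [h5]
    omega
  have hswap := rr_swap g h (W * L) 0
  rw [add_zero, zero_add] at hswap
  have hxsplit : (x : ℝ) ^ (1 + c) = x * (x : ℝ) ^ c := by
    rw [Real.rpow_add hx0, Real.rpow_one]
  have hen : ∀ (K : ℕ → ℕ) (e : ℕ), e ≤ t → (∀ z, e + m t * K z ∈ A) →
      (∀ z, K z ≤ P * z) → (en (rd M (dw g h W L) K) : ℝ) ≤ E * (x : ℝ) ^ c * M := by
    intro K e he hKA hKle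
    have h1 : en (rd M (dw g h W L) K) ≤ 4 * H ^ 2 * sq2 A x := by
      refine en_resG A K hmt hM0 (fun z _ => hKA z) (fun z hz => ?_) (hbound e he)
      have hP0 : 0 < P := rr_pos hg _ _
      calc K z ≤ P * z := hKle z
        _ < P * dw g h W L := Nat.mul_lt_mul_of_pos_left hz hP0
        _ = M * rr g (W * L) h := hswap
        _ ≤ M * H := Nat.mul_le_mul_left _ (rr_le hgQ _ _)
    have h2 : (en (rd M (dw g h W L) K) : ℝ) ≤ 4 * (H : ℝ) ^ 2 * sq2 A x := by exact_mod_cast h1
    have h3 : (sq2 A x : ℝ) ≤ x * (x : ℝ) ^ c := by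
      rw [← hxsplit]
      exact hcon.le
    have h4 : x * (x : ℝ) ^ c ≤ D * ((Q ^ W : ℕ) : ℝ) * (M : ℝ) * (x : ℝ) ^ c :=
      mul_le_mul_of_nonneg_right hxM (by positivity)
    have h5 : 4 * (H : ℝ) ^ 2 * sq2 A x ≤
        4 * (H : ℝ) ^ 2 * (D * ((Q ^ W : ℕ) : ℝ) * (M : ℝ) * (x : ℝ) ^ c) :=
      mul_le_mul_of_nonneg_left (h3.trans h4) (by positivity)
    refine h2.trans (h5.trans (le_of_eq ?_))
    rw [hE]
    ring
  have hft : f t ≤ t := (hf t le_rfl).1
  have hFle : ∀ z, F z ≤ P * z := fun z => by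
    have h0 : F z + (P * z - F z) = P * z := hsys.add z
    omega
  have hcF := hen F (f t) hft (fun z => by
    have h1 := (hf (t + m (t + h) * z) (Nat.le_add_right _ _)).2.1
    rwa [e1 z] at h1) hFle
  have hcG := hen (fun z => P * z - F z) (t - f t) (by omega) (fun z => by
    have h1 := (hf (t + m (t + h) * z) (Nat.le_add_right _ _)).2.2
    rw [e1 z] at h1
    have h2 : t - f t + m t * (P * z - F z) = t + m (t + h) * z - (f t + m t * F z) := by
      have h3 := Nat.mul_le_mul_left (m t) (hFle z)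
      have h4 : m (t + h) * z = m t * (P * z) := by rw [← hmP]; ring
      rw [Nat.mul_sub, h4]
      omega
    rw [h2]
    exact h1) (fun z => Nat.sub_le _ _)
  have hxc : (1 : ℝ) ≤ (x : ℝ) ^ c := Real.one_le_rpow hx1 hc0.le
  have hR1 : 1 ≤ E * (x : ℝ) ^ c := one_le_mul_of_one_le_of_one_le hE1 hxc
  have hfin := hlev g hg hgQ F (fun z => P * z - F z) hsys L (E * (x : ℝ) ^ c) hR1 hcF hcG
  rw [← mul_assoc, Real.log_mul (by positivity) (by positivity), Real.log_rpow hx0] at hfin
  have hlx : Real.log x ≤ Real.log D + (L + 1) * (W * Real.log Q) := by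
    have h1 : (x : ℝ) ≤ D * (Q : ℝ) ^ (W * K) := by
      have h2 : (x : ℝ) ≤ ((D * mw g W K : ℕ) : ℝ) := by exact_mod_cast hK1.le
      have h3 : mw g W K ≤ Q ^ (W * K) := rr_le hgQ _ _
      have h4 : ((D * mw g W K : ℕ) : ℝ) ≤ ((D * Q ^ (W * K) : ℕ) : ℝ) := by
        exact_mod_cast Nat.mul_le_mul_left D h3
      refine h2.trans (h4.trans (le_of_eq ?_))
      push_cast
      ring
    have h2 := Real.log_le_log hx0 h1
    rw [Real.log_mul (by positivity) (by positivity), Real.log_pow, hKL] at h2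
    push_cast at h2
    linarith
  have h1 : c₀ * (Real.log x / (W * Real.log Q)) ≤
      c₀ * (Real.log D / (W * Real.log Q) + 1) + c₀ * L := by
    rw [← mul_add]
    refine mul_le_mul_of_nonneg_left ?_ hc₀.le
    rw [div_le_iff₀ (by positivity)]
    calc Real.log x ≤ Real.log D + (L + 1) * (W * Real.log Q) := hlx
      _ = _ := by
        field_simp
        ring
  have h2 : c₀ * (Real.log x / (W * Real.log Q)) = 2 * (c * Real.log x) := by
    rw [hc]
    field_simp
  linarith

end Pool.Agent.Helper72.PG
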