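import Pool.Agent.Helper72.PG.Final5

/-! Choices with bounded look-ahead on a range of integers in one residue class. -/

namespace Pool.Agent.Helper72.PG

open Finset Filter Pool.Agent.Helper72.NS Pool.Agent.Helper72.PW Pool.Agent.Helper72.PL

/-- data on an initial segment extend to all integers -/
lemma extend_sys {g : ℕ → ℕ} (hg : ∀ j, 2 ≤ g j) {h I : ℕ} {F G : ℕ → ℕ}
    (hadd : ∀ z < rr g h I, F z + G z = rr g 0 h * z)
    (hlf : ∀ i ≤ I, ∀ z < rr g h I, ∀ z' < rr g h I, z ≡ z' [MOD rr g h i] →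
      F z ≡ F z' [MOD rr g 0 i]) :
    Sys2 g h (fun z => F (z % rr g h I) + rr g 0 h * (rr g h I * (z / rr g h I)))
      (fun z => G (z % rr g h I)) := by
  set D := rr g h I with hD
  have hD0 : 0 < D := rr_pos hg _ _
  have hlt : ∀ z, z % D < D := fun z => Nat.mod_lt _ hD0
  have hadd2 : ∀ z, F (z % D) + rr g 0 h * (D * (z / D)) + G (z % D) = rr g 0 h * z := by
    intro z
    have h1 := hadd _ (hlt z)
    have h2 := Nat.mod_add_div z D
    calc F (z % D) + rr g 0 h * (D * (z / D)) + G (z % D)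
        = (F (z % D) + G (z % D)) + rr g 0 h * (D * (z / D)) := by ring
      _ = rr g 0 h * (z % D + D * (z / D)) := by rw [h1]; ring
      _ = _ := by rw [h2]
  have hf : ∀ i z z', z ≡ z' [MOD rr g h i] →
      F (z % D) + rr g 0 h * (D * (z / D)) ≡ F (z' % D) + rr g 0 h * (D * (z' / D))
        [MOD rr g 0 i] := by
    intro i z z' hz
    rcases le_total i I with hi | hi
    · have hdvd : rr g h i ∣ D := rr_dvd g h hi
      have h1 : z % D ≡ z' % D [MOD rr g h i] := by
        have e1 : z % D ≡ z [MOD rr g h i] := (Nat.mod_modEq z D).of_dvd hdvd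
        have e2 : z' % D ≡ z' [MOD rr g h i] := (Nat.mod_modEq z' D).of_dvd hdvd
        exact e1.trans (hz.trans e2.symm)
      have h2 := hlf i hi _ (hlt z) _ (hlt z') h1
      have h3 : rr g 0 i ∣ rr g 0 h * D := by
        have e3 := rr_swap g h i 0
        rw [add_zero, zero_add] at e3
        have e4 : rr g 0 i ∣ rr g 0 h * rr g h i := ⟨_, e3⟩
        exact e4.trans (Nat.mul_dvd_mul_left _ hdvd)
      have h4 : ∀ y, rr g 0 h * (D * y) ≡ 0 [MOD rr g 0 i] := by
        intro y
        rw [← mul_assoc]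
        exact (Nat.modEq_zero_iff_dvd.2 (h3.trans (Nat.dvd_mul_right _ _)))
      exact Nat.ModEq.add h2 ((h4 _).trans (h4 _).symm)
    · have hdvd : D ∣ rr g h i := rr_dvd g h hi
      have h1 : z % D = z' % D := hz.of_dvd hdvd
      rw [h1]
      refine Nat.ModEq.add_left _ ?_
      have h2 : D * (z / D) ≡ D * (z' / D) [MOD rr g h i] := by
        have e1 := Nat.mod_add_div z D
        have e2 := Nat.mod_add_div z' D
        have e3 : z' % D + D * (z / D) ≡ z' % D + D * (z' / D) [MOD rr g h i] := by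
          rw [← h1, e1, h1, e2]
          exact hz
        exact Nat.ModEq.add_left_cancel' _ e3
      have h3 : rr g 0 h * (D * (z / D)) ≡ rr g 0 h * (D * (z' / D))
          [MOD rr g 0 h * rr g h i] := Nat.ModEq.mul_left' _ h2
      have e4 := rr_swap g h i 0
      rw [add_zero, zero_add] at e4
      rw [e4] at h3
      exact h3.of_dvd (Dvd.intro _ rfl)
  refine ⟨hadd2, hf, fun i z z' hz => ?_⟩
  have h1 : F (z % D) + rr g 0 h * (D * (z / D)) + G (z % D) ≡
      F (z' % D) + rr g 0 h * (D * (z' / D)) + G (z' % D) [MOD rr g 0 i] := by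
    rw [hadd2 z, hadd2 z']
    have h2 : rr g 0 h * z ≡ rr g 0 h * z' [MOD rr g 0 h * rr g h i] := Nat.ModEq.mul_left' _ hz
    have e4 := rr_swap g h i 0
    rw [add_zero, zero_add] at e4
    rw [e4] at h2
    exact h2.of_dvd (Dvd.intro _ rfl)
  exact Nat.ModEq.add_left_cancel (hf i z z' hz) h1

lemma rd_congr {M D : ℕ} {F F' : ℕ → ℕ} (h : ∀ z < D, F z = F' z) : rd M D F = rd M D F' := by
  unfold rd
  refine Finset.image_congr fun z hz => ?_
  rw [Finset.mem_coe, Finset.mem_range] at hz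
  rw [h z hz]

/-- The reduced data. -/
lemma reduceF {m f : ℕ → ℕ} (hm : Chain m) {h s b I : ℕ} {D : Set ℕ} (hs : b < m s)
    (hmem : ∀ z < rr (fun j => m (s + j + 1) / m (s + j)) h I, b + m (s + h) * z ∈ D)
    (hf : ∀ n ∈ D, f n ≤ n)
    (hL : ∀ j, ∀ n ∈ D, ∀ n' ∈ D, n % m (j + h) = n' % m (j + h) → f n % m j = f n' % m j) :
    (∀ z < rr (fun j => m (s + j + 1) / m (s + j)) h I,
      f (b + m (s + h) * z) = f b + m s * (f (b + m (s + h) * z) / m s)) ∧
    (∀ z < rr (fun j => m (s + j + 1) / m (s + j)) h I,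
      f (b + m (s + h) * z) / m s ≤ rr (fun j => m (s + j + 1) / m (s + j)) 0 h * z) ∧
    ∀ i ≤ I, ∀ z < rr (fun j => m (s + j + 1) / m (s + j)) h I,
      ∀ z' < rr (fun j => m (s + j + 1) / m (s + j)) h I,
      z ≡ z' [MOD rr (fun j => m (s + j + 1) / m (s + j)) h i] →
      f (b + m (s + h) * z) / m s ≡ f (b + m (s + h) * z') / m s
        [MOD rr (fun j => m (s + j + 1) / m (s + j)) 0 i] := by
  set g : ℕ → ℕ := fun j => m (s + j + 1) / m (s + j) with hg
  have hg2 : ∀ j, 2 ≤ g j := fun j => by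
    rw [hg]
    simp only
    rw [Nat.le_div_iff_mul_le (hm.pos _)]
    exact hm.two _
  have hD0 : 0 < rr g h I := rr_pos hg2 _ _
  have hms : 0 < m s := hm.pos s
  have hb : b ∈ D := by
    have := hmem 0 hD0
    rwa [mul_zero, add_zero] at this
  have hft : f b < m s := (hf b hb).trans_lt hs
  have hP : m s * rr g 0 h = m (s + h) := by
    have := chain_rr hm s 0 h
    rw [add_zero] at this
    exact this
  have e1 : ∀ z < rr g h I, f (b + m (s + h) * z) = f b + m s * (f (b + m (s + h) * z) / m s) := by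
    intro z hz
    have h1 := hL s (b + m (s + h) * z) (hmem z hz) b hb (Nat.add_mul_mod_self_left _ _ _)
    rw [Nat.mod_eq_of_lt hft] at h1
    have h2 := Nat.div_add_mod (f (b + m (s + h) * z)) (m s)
    rw [h1] at h2
    omega
  refine ⟨e1, ?_, ?_⟩
  · intro z hz
    have h1 := Nat.div_le_div_right (c := m s) (hf (b + m (s + h) * z) (hmem z hz))
    have h2 : b + m (s + h) * z = b + m s * (rr g 0 h * z) := by rw [← hP]; ring
    rw [h2, Nat.add_mul_div_left _ _ hms, Nat.div_eq_of_lt hs, zero_add] at h1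
    rw [h2]
    exact h1
  · intro i _ z hz z' hz' hzz
    have h1 : b + m (s + h) * z ≡ b + m (s + h) * z' [MOD m (s + i + h)] := by
      have h2 : m (s + i + h) = m (s + h) * rr g h i := by
        rw [chain_rr hm s h i]
        congr 1
        ring
      rw [h2]
      exact Nat.ModEq.add_left b (Nat.ModEq.mul_left' _ hzz)
    have h3 : f (b + m (s + h) * z) ≡ f (b + m (s + h) * z') [MOD m (s + i)] :=
      hL (s + i) _ (hmem z hz) _ (hmem z' hz') h1
    have h6 : m s * rr g 0 i = m (s + i) := by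
      have := chain_rr hm s 0 i
      rw [add_zero] at this
      exact this
    have h4 : f b + m s * (f (b + m (s + h) * z) / m s) ≡
        f b + m s * (f (b + m (s + h) * z') / m s) [MOD m s * rr g 0 i] := by
      rw [h6, ← e1 z hz, ← e1 z' hz']
      exact h3
    exact Nat.ModEq.mul_left_cancel' hms.ne' (Nat.ModEq.add_left_cancel' _ h4)

/-- Choices with bounded look-ahead on a residue class in a range of integers. -/
theorem squareF (Q h : ℕ) : ∃ c : ℝ, 0 < c ∧ ∃ C : ℕ,
    ∀ (A D : Set ℕ) (m f : ℕ → ℕ) (a k x y : ℕ), Chain m → (∀ j, m (j + 1) ≤ Q * m j) →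
    C * (x + m k) ^ C ≤ y →
    (∀ n, x ≤ n → n < y → n % m k = a % m k → n ∈ D) →
    (∀ n ∈ D, f n ≤ n ∧ f n ∈ A ∧ n - f n ∈ A) →
    (∀ j, ∀ n ∈ D, ∀ n' ∈ D, n % m (j + h) = n' % m (j + h) → f n % m j = f n' % m j) →
    (y : ℝ) ^ (1 + c) ≤ ∑ n ∈ Finset.range y, (rep A n : ℝ) ^ 2 := by
  rcases Nat.lt_or_ge Q 2 with hQ2 | hQ2
  · refine ⟨1, one_pos, 0, fun A D m f a k x y hm hmQ => ?_⟩
    exfalso
    have h1 := hm.two 0
    have h2 := hmQ 0
    have h3 := hm.pos 0
    nlinarith
  obtain ⟨W, hW, c₀, hc₀, hlev⟩ := levelsG hQ2 h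
  have hQr : (2 : ℝ) ≤ Q := by exact_mod_cast hQ2
  have hlQ : 0 < Real.log Q := Real.log_pos (by linarith)
  have hWr : (1 : ℝ) ≤ W := by exact_mod_cast hW
  have hW0 : (0 : ℝ) < W := by linarith
  set c := c₀ / (2 * (W * Real.log Q)) with hc
  have hc0 : 0 < c := by positivity
  set H := Q ^ h with hH
  have hH1 : 1 ≤ H := Nat.one_le_pow _ _ (by omega)
  have hHr : (1 : ℝ) ≤ (H : ℝ) := by exact_mod_cast hH1
  set R : ℕ := 6 * (Q * H) with hR
  set E₀ : ℝ := 4 * (H : ℝ) ^ 2 * ((Q ^ W : ℕ) : ℝ) with hE₀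
  have hQWr : (1 : ℝ) ≤ ((Q ^ W : ℕ) : ℝ) := by exact_mod_cast Nat.one_le_pow _ _ (by omega)
  have hE₀1 : 1 ≤ E₀ := by
    rw [hE₀]
    have h1 : (1 : ℝ) ≤ (H : ℝ) ^ 2 := one_le_pow₀ hHr
    have h3 := one_le_mul_of_one_le_of_one_le h1 hQWr
    linarith
  have hR1 : (1 : ℝ) ≤ R := by
    have : 1 ≤ R := by
      rw [hR]
      have := Nat.mul_pos (by omega : 0 < Q) hH1
      omega
    exact_mod_cast this
  -- the constants
  set C₁ : ℝ := 2 * h * Real.log Q + Real.log (2 * E₀) + c₀ * 1 +
    (1 + c₀ / (W * Real.log Q)) * Real.log R with hC₁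
  set C₂ : ℝ := 1 + c₀ / (W * Real.log Q) with hC₂
  have hC₂0 : 0 ≤ C₂ := by rw [hC₂]; positivity
  obtain ⟨C, hC⟩ : ∃ C : ℕ, max (R + 1 : ℝ) (max (Real.exp ((C₁ + 1) / c)) (C₂ / c)) ≤ C :=
    exists_nat_ge _
  have hCR : (R + 1 : ℝ) ≤ C := (le_max_left _ _).trans hC
  have hCe : Real.exp ((C₁ + 1) / c) ≤ C := ((le_max_left _ _).trans (le_max_right _ _)).trans hC
  have hC2 : C₂ / c ≤ C := ((le_max_right _ _).trans (le_max_right _ _)).trans hC
  have hCR' : R + 1 ≤ C := by exact_mod_cast hCR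
  refine ⟨c, hc0, C, fun A DD m f a k x y hm hmQ hy hD hf hL => ?_⟩
  have hmk : 0 < m k := hm.pos k
  set X := x + m k with hX
  have hX1 : 1 ≤ X := by omega
  have hXr : (1 : ℝ) ≤ X := by exact_mod_cast hX1
  -- the base point
  obtain ⟨b, hb1, hb2, hb3⟩ : ∃ b, x ≤ b ∧ b < X ∧ b % m k = a % m k := by
    refine ⟨x + (a + (m k - x % m k)) % m k, by omega, ?_, ?_⟩
    · have := Nat.mod_lt (a + (m k - x % m k)) hmk
      omega
    · have h1 : x % m k < m k := Nat.mod_lt _ hmk
      have h2 := Nat.mod_add_div x (m k)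
      have h3 : x + (a + (m k - x % m k)) % m k ≡ x + (a + (m k - x % m k)) [MOD m k] :=
        Nat.ModEq.add_left _ (Nat.mod_modEq _ _)
      refine h3.trans ?_
      have h4 : x + (a + (m k - x % m k)) = a + m k * (x / m k + 1) := by
        calc x + (a + (m k - x % m k)) = (x % m k + m k * (x / m k)) + (a + (m k - x % m k)) := by
              rw [h2]
          _ = a + (m k * (x / m k) + (x % m k + (m k - x % m k))) := by ring
          _ = a + (m k * (x / m k) + m k) := by rw [Nat.add_sub_cancel' h1.le]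
          _ = _ := by ring
      rw [h4]
      exact Nat.add_mul_mod_self_left _ _ _
  -- the level
  have hpow : ∀ j, 2 ^ j ≤ m j := by
    intro j
    induction j with
    | zero => rw [hm.one]; norm_num
    | succ j ih => have := hm.two j; rw [pow_succ]; omega
  have hexs : ∃ s, X ≤ m s := ⟨X, (Nat.lt_two_pow_self.trans_le (hpow X)).le⟩
  classical
  obtain ⟨s, hs1, hs2⟩ : ∃ s, X ≤ m s ∧ m s ≤ Q * X := by
    refine ⟨Nat.find hexs, Nat.find_spec hexs, ?_⟩
    rcases Nat.eq_zero_or_pos (Nat.find hexs) with h0 | h0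
    · rw [h0, hm.one]
      exact Nat.mul_pos (by omega) hX1
    · obtain ⟨i, hi⟩ := Nat.exists_eq_succ_of_ne_zero h0.ne'
      have h1 := Nat.find_min hexs (m := i) (by omega)
      rw [hi]
      refine (hmQ i).trans (Nat.mul_le_mul_left _ (by omega))
  have hks : k ≤ s := by
    by_contra hcon
    have hmono : ∀ i, m s < m (s + i + 1) := by
      intro i
      induction i with
      | zero => have := hm.two s; have := hm.pos s; rw [add_zero]; omega
      | succ i ih => have := hm.two (s + i + 1); rw [show s + (i + 1) + 1 = s + i + 1 + 1 by ring]; omega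
    have h1 := hmono (k - s - 1)
    rw [show s + (k - s - 1) + 1 = k by omega] at h1
    omega
  have hbs : b < m s := by omega
  have hdvdk : ∀ i, m k ∣ m (k + i) := by
    intro i
    induction i with
    | zero => exact dvd_rfl
    | succ i ih => exact ih.trans (hm.dvd (k + i))
  set g : ℕ → ℕ := fun j => m (s + j + 1) / m (s + j) with hgdef
  have hg : ∀ j, 2 ≤ g j := fun j => by
    rw [hgdef]
    simp only
    rw [Nat.le_div_iff_mul_le (hm.pos _)]
    exact hm.two _
  have hgQ : ∀ j, g j ≤ Q := fun j =>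
    Nat.div_le_of_le_mul (by rw [mul_comm]; exact hmQ (s + j))
  set F : ℕ → ℕ := fun z => f (b + m (s + h) * z) / m s with hF
  set P := rr g 0 h with hP
  have hPQ : P ≤ Q ^ h := rr_le hgQ _ _
  have hmt : 0 < m s := hm.pos s
  have hmP : m s * P = m (s + h) := by
    have := chain_rr hm s 0 h
    rw [add_zero] at this
    exact this
  have hRad := rad_mw hg hW
  set D := 6 * (m s * H) with hD'
  have hD0 : 0 < D := by positivity
  have hDr : (1 : ℝ) ≤ D := by exact_mod_cast hD0
  have hDR : (D : ℝ) ≤ R * X := by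
    have h1 : D ≤ R * X := by
      rw [hD', hR]
      calc 6 * (m s * H) ≤ 6 * (Q * X * H) :=
            Nat.mul_le_mul_left _ (Nat.mul_le_mul_right _ hs2)
        _ = _ := by ring
    exact_mod_cast h1
  have hlD : Real.log D ≤ Real.log R + Real.log X := by
    have h1 := Real.log_le_log (by linarith) hDR
    rwa [Real.log_mul (by linarith) (by linarith)] at h1
  -- the size of y
  have hCpos : (0 : ℝ) < C := by linarith
  have hyr : (C : ℝ) * (X : ℝ) ^ C ≤ y := by exact_mod_cast hy
  have hXC : (1 : ℝ) ≤ (X : ℝ) ^ C := one_le_pow₀ hXr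
  have hy0 : (0 : ℝ) < y := lt_of_lt_of_le (by positivity) hyr
  have hy1 : (1 : ℝ) ≤ y := by
    have h1 := one_le_mul_of_one_le_of_one_le (by linarith : (1 : ℝ) ≤ C) hXC
    linarith
  have hly : Real.log C + C * Real.log X ≤ Real.log y := by
    have h1 := Real.log_le_log (by positivity) hyr
    rwa [Real.log_mul (by linarith) (by positivity), Real.log_pow] at h1
  have hlX : 0 ≤ Real.log X := Real.log_nonneg hXr
  have hx : 2 * h * Real.log Q + Real.log (2 * (E₀ * D)) +
      c₀ * (Real.log D / (W * Real.log Q) + 1) < c * Real.log y := by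
    have h1 : Real.log (2 * (E₀ * D)) = Real.log (2 * E₀) + Real.log D := by
      rw [← mul_assoc, Real.log_mul (by linarith) (by linarith)]
    have h2 : c₀ * (Real.log D / (W * Real.log Q) + 1) =
        c₀ / (W * Real.log Q) * Real.log D + c₀ * 1 := by ring
    have h3 : (1 + c₀ / (W * Real.log Q)) * Real.log D ≤
        (1 + c₀ / (W * Real.log Q)) * (Real.log R + Real.log X) :=
      mul_le_mul_of_nonneg_left hlD hC₂0
    have h4 : (C₁ + 1) / c ≤ Real.log C := by
      rw [Real.le_log_iff_exp_le hCpos]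
      exact hCe
    have h5 : C₁ + 1 ≤ c * Real.log C := by
      rw [div_le_iff₀ hc0] at h4
      linarith
    have h6 : C₂ * Real.log X ≤ c * (C * Real.log X) := by
      rw [div_le_iff₀ hc0] at hC2
      have := mul_le_mul_of_nonneg_right hC2 hlX
      linarith
    have h7 := mul_le_mul_of_nonneg_left hly hc0.le
    rw [mul_add] at h7
    rw [h1, h2]
    have h8 : 2 * h * Real.log Q + (Real.log (2 * E₀) + Real.log D) +
        (c₀ / (W * Real.log Q) * Real.log D + c₀ * 1) =
        2 * h * Real.log Q + Real.log (2 * E₀) + c₀ * 1 +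
          (1 + c₀ / (W * Real.log Q)) * Real.log D := by ring
    rw [h8]
    have h9 : (1 + c₀ / (W * Real.log Q)) * (Real.log R + Real.log X) =
        (1 + c₀ / (W * Real.log Q)) * Real.log R + C₂ * Real.log X := by rw [hC₂]; ring
    rw [h9] at h3
    rw [hC₁] at h5
    linarith
  have hDy : D ≤ y := by
    have h1 : (D : ℝ) ≤ y := by
      have h2 : (X : ℝ) ≤ (X : ℝ) ^ C := by
        have h3 : (X : ℝ) ^ 1 ≤ (X : ℝ) ^ C := pow_le_pow_right₀ hXr (by omega)
        rwa [pow_one] at h3
      have h3 : (R : ℝ) * X ≤ C * (X : ℝ) ^ C :=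
        mul_le_mul (by linarith) h2 (by linarith) (by linarith)
      linarith
    exact_mod_cast h1
  rw [← sq2_cast]
  by_contra hcon
  rw [not_le] at hcon
  have hex : ∃ L, y < D * mw g W L := by
    refine ⟨y, ?_⟩
    have h1 : y < mw g W y := by
      have h2 : 2 ^ (W * y) ≤ mw g W y := rr_ge hg _ _
      have h3 : y < 2 ^ y := Nat.lt_two_pow_self
      have h4 : 2 ^ y ≤ 2 ^ (W * y) :=
        Nat.pow_le_pow_right (by norm_num) (Nat.le_mul_of_pos_left _ (by omega))
      omega
    exact h1.trans_le (Nat.le_mul_of_pos_left _ hD0)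
  set K := Nat.find hex with hK
  have hK1 : y < D * mw g W K := Nat.find_spec hex
  have hK0 : K ≠ 0 := by
    intro h0
    rw [h0, hRad.one, mul_one] at hK1
    omega
  obtain ⟨L, hKL⟩ := Nat.exists_eq_succ_of_ne_zero hK0
  have hL1 : D * mw g W L ≤ y := by
    have h1 := Nat.find_min hex (m := L) (by rw [← hK, hKL]; exact Nat.lt_succ_self L)
    omega
  have hxM : (y : ℝ) ≤ D * ((Q ^ W : ℕ) : ℝ) * (mw g W L : ℝ) := by
    have h1 : y ≤ D * Q ^ W * mw g W L := by
      rw [hKL] at hK1
      have h2 : mw g W L.succ = gw g W L * mw g W L := hRad.succ L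
      have h3 : gw g W L ≤ Q ^ W := rr_le hgQ _ _
      rw [h2] at hK1
      calc y ≤ D * (gw g W L * mw g W L) := hK1.le
        _ ≤ D * (Q ^ W * mw g W L) := Nat.mul_le_mul_left _ (Nat.mul_le_mul_right _ h3)
        _ = _ := by ring
    exact_mod_cast h1
  set M := mw g W L with hM
  have hM0 : 0 < M := hRad.pos L
  have hbound : ∀ e, e ≤ b → 2 * e + m s * (2 * M + M * (2 * H)) ≤ y := by
    intro e he
    refine le_trans ?_ hL1
    have h1 : e ≤ m s := he.trans hbs.le
    have h2 : m s ≤ m s * M := Nat.le_mul_of_pos_right _ hM0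
    have h3 : m s * M ≤ m s * M * H := Nat.le_mul_of_pos_right _ hH1
    have h4 : D * M = 6 * (m s * M * H) := by
      rw [hD']
      ring
    rw [h4]
    have h5 : m s * (2 * M + M * (2 * H)) = 2 * (m s * M) + 2 * (m s * M * H) := by
      ring
    rw [h5]
    omega
  have hswap := rr_swap g h (W * L) 0
  rw [add_zero, zero_add] at hswap
  -- the points of the class
  have hmem : ∀ z < rr g h (W * L), b + m (s + h) * z ∈ DD := by
    intro z hz
    refine hD _ (by omega) ?_ ?_
    · have h1 : m (s + h) * (z + 1) ≤ m (s + h) * rr g h (W * L) := Nat.mul_le_mul_left _ hz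
      have h2 : m (s + h) * rr g h (W * L) = m s * (M * rr g (W * L) h) := by
        rw [← hmP, mul_assoc, hswap]
        rfl
      have h3 : m s * (M * rr g (W * L) h) ≤ m s * (M * H) :=
        Nat.mul_le_mul_left _ (Nat.mul_le_mul_left _ (rr_le hgQ _ _))
      have h4 : D * M = 6 * (m s * (M * H)) := by
        rw [hD']
        ring
      have h5 : 0 < m s * (M * H) := Nat.mul_pos hmt (Nat.mul_pos hM0 hH1)
      have h6 : m s ≤ m (s + h) := by
        rw [← hmP]
        exact Nat.le_mul_of_pos_right _ (rr_pos hg _ _)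
      rw [mul_add, mul_one] at h1
      omega
    · have h1 : m k ∣ m (s + h) := by
        have := hdvdk (s + h - k)
        rwa [show k + (s + h - k) = s + h by omega] at this
      obtain ⟨w, hw⟩ := h1
      rw [hw, mul_assoc, Nat.add_mul_mod_self_left]
      exact hb3
  obtain ⟨e1, e2, e3⟩ := reduceF (D := DD) (f := f) hm hbs hmem (fun n hn => (hf n hn).1) hL
  have hadd : ∀ z < rr g h (W * L), F z + (P * z - F z) = P * z := fun z hz =>
    Nat.add_sub_cancel' (e2 z hz)
  have hsys := extend_sys (g := g) hg (h := h) (I := W * L) (F := F)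
    (G := fun z => P * z - F z) hadd e3
  set F' : ℕ → ℕ := fun z => F (z % rr g h (W * L)) +
    rr g 0 h * (rr g h (W * L) * (z / rr g h (W * L))) with hF'
  set G' : ℕ → ℕ := fun z => (fun z => P * z - F z) (z % rr g h (W * L)) with hG'
  have hrF : rd M (dw g h W L) F' = rd M (dw g h W L) F := by
    refine rd_congr fun z hz => ?_
    have hz' : z < rr g h (W * L) := hz
    rw [hF']
    simp only
    rw [Nat.mod_eq_of_lt hz', Nat.div_eq_of_lt hz', mul_zero, mul_zero, add_zero]
  have hrG : rd M (dw g h W L) G' = rd M (dw g h W L) (fun z => P * z - F z) := by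
    refine rd_congr fun z hz => ?_
    have hz' : z < rr g h (W * L) := hz
    rw [hG']
    simp only
    rw [Nat.mod_eq_of_lt hz']
  have hxsplit : (y : ℝ) ^ (1 + c) = y * (y : ℝ) ^ c := by
    rw [Real.rpow_add hy0, Real.rpow_one]
  set E : ℝ := E₀ * D with hE
  have hE1 : 1 ≤ E := one_le_mul_of_one_le_of_one_le hE₀1 hDr
  have hE0 : 0 < E := by linarith
  have hen : ∀ (K : ℕ → ℕ) (e : ℕ), e ≤ b → (∀ z < rr g h (W * L), e + m s * K z ∈ A) →
      (∀ z < rr g h (W * L), K z ≤ P * z) →
      (en (rd M (dw g h W L) K) : ℝ) ≤ E * (y : ℝ) ^ c * M := by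
    intro K e he hKA hKle
    have h1 : en (rd M (dw g h W L) K) ≤ 4 * H ^ 2 * sq2 A y := by
      refine en_resG A K hmt hM0 hKA (fun z hz => ?_) (hbound e he)
      have hP0 : 0 < P := rr_pos hg _ _
      calc K z ≤ P * z := hKle z hz
        _ < P * dw g h W L := Nat.mul_lt_mul_of_pos_left hz hP0
        _ = M * rr g (W * L) h := hswap
        _ ≤ M * H := Nat.mul_le_mul_left _ (rr_le hgQ _ _)
    have h2 : (en (rd M (dw g h W L) K) : ℝ) ≤ 4 * (H : ℝ) ^ 2 * sq2 A y := by exact_mod_cast h1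
    have h3 : (sq2 A y : ℝ) ≤ y * (y : ℝ) ^ c := by
      rw [← hxsplit]
      exact hcon.le
    have h4 : y * (y : ℝ) ^ c ≤ D * ((Q ^ W : ℕ) : ℝ) * (M : ℝ) * (y : ℝ) ^ c :=
      mul_le_mul_of_nonneg_right hxM (by positivity)
    have h5 : 4 * (H : ℝ) ^ 2 * sq2 A y ≤
        4 * (H : ℝ) ^ 2 * (D * ((Q ^ W : ℕ) : ℝ) * (M : ℝ) * (y : ℝ) ^ c) :=
      mul_le_mul_of_nonneg_left (h3.trans h4) (by positivity)
    refine h2.trans (h5.trans (le_of_eq ?_))
    rw [hE, hE₀]
    ring
  have hbD : b ∈ DD := by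
    have := hmem 0 (rr_pos hg _ _)
    rwa [mul_zero, add_zero] at this
  have hfb : f b ≤ b := (hf b hbD).1
  have hcF := hen F (f b) hfb (fun z hz => by
    have h1 := (hf _ (hmem z hz)).2.1
    rwa [e1 z hz] at h1) e2
  have hcG := hen (fun z => P * z - F z) (b - f b) (by omega) (fun z hz => by
    have h1 := (hf _ (hmem z hz)).2.2
    rw [e1 z hz] at h1
    have h2 : b - f b + m s * (P * z - F z) = b + m (s + h) * z - (f b + m s * F z) := by
      have h3 := Nat.mul_le_mul_left (m s) (e2 z hz)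
      have h4 : m (s + h) * z = m s * (P * z) := by rw [← hmP]; ring
      rw [Nat.mul_sub, h4]
      have h5 : m s * F z ≤ m s * (P * z) := h3
      omega
    rw [h2]
    exact h1) (fun z _ => Nat.sub_le _ _)
  have hyc : (1 : ℝ) ≤ (y : ℝ) ^ c := Real.one_le_rpow hy1 hc0.le
  have hR1' : 1 ≤ E * (y : ℝ) ^ c := one_le_mul_of_one_le_of_one_le hE1 hyc
  have hfin := hlev g hg hgQ F' G' hsys L (E * (y : ℝ) ^ c) hR1'
    (by rw [hrF]; exact hcF) (by rw [hrG]; exact hcG)
  rw [← mul_assoc, Real.log_mul (by positivity) (by positivity), Real.log_rpow hy0] at hfin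
  have hlx : Real.log y ≤ Real.log D + (L + 1) * (W * Real.log Q) := by
    have h1 : (y : ℝ) ≤ D * (Q : ℝ) ^ (W * K) := by
      have h2 : (y : ℝ) ≤ ((D * mw g W K : ℕ) : ℝ) := by exact_mod_cast hK1.le
      have h3 : mw g W K ≤ Q ^ (W * K) := rr_le hgQ _ _
      have h4 : ((D * mw g W K : ℕ) : ℝ) ≤ ((D * Q ^ (W * K) : ℕ) : ℝ) := by
        exact_mod_cast Nat.mul_le_mul_left D h3
      refine h2.trans (h4.trans (le_of_eq ?_))
      push_cast
      ring
    have h2 := Real.log_le_log hy0 h1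
    rw [Real.log_mul (by positivity) (by positivity), Real.log_pow, hKL] at h2
    push_cast at h2
    linarith
  have h1 : c₀ * (Real.log y / (W * Real.log Q)) ≤
      c₀ * (Real.log D / (W * Real.log Q) + 1) + c₀ * L := by
    rw [← mul_add]
    refine mul_le_mul_of_nonneg_left ?_ hc₀.le
    rw [div_le_iff₀ (by positivity)]
    calc Real.log y ≤ Real.log D + (L + 1) * (W * Real.log Q) := hlx
      _ = _ := by
        field_simp
        ring
  have h2 : c₀ * (Real.log y / (W * Real.log Q)) = 2 * (c * Real.log y) := by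
    rw [hc]
    field_simp
  linarith

end Pool.Agent.Helper72.PG
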