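import Pool.Agent.Helper72.PG.Base

/-! Sums of trees with irreducible stages. -/

namespace Pool.Agent.Helper72.PG

open Finset Pool.Agent.Helper72.PW Pool.Agent.Helper72.PL

/-- the sums -/
def sm (X Y : Finset ℕ) : Finset ℕ := (X ×ˢ Y).image fun p => p.1 + p.2

lemma mem_sm {X Y : Finset ℕ} {s : ℕ} : s ∈ sm X Y ↔ ∃ x ∈ X, ∃ y ∈ Y, x + y = s := by
  unfold sm
  rw [Finset.mem_image]
  constructor
  · rintro ⟨p, hp, rfl⟩
    rw [Finset.mem_product] at hp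
    exact ⟨p.1, hp.1, p.2, hp.2, rfl⟩
  · rintro ⟨x, hx, y, hy, rfl⟩
    exact ⟨(x, y), Finset.mem_product.2 ⟨hx, hy⟩, rfl⟩

lemma sm_comm (X Y : Finset ℕ) : sm X Y = sm Y X := by
  ext s
  rw [mem_sm, mem_sm]
  constructor
  · rintro ⟨x, hx, y, hy, h⟩
    exact ⟨y, hy, x, hx, by omega⟩
  · rintro ⟨x, hx, y, hy, h⟩
    exact ⟨y, hy, x, hx, by omega⟩

lemma card_sm_le (X Y : Finset ℕ) : (sm X Y).card ≤ X.card * Y.card := by
  unfold sm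
  refine Finset.card_image_le.trans ?_
  rw [Finset.card_product]

/-- all pairs `(σ, σ')` have few sums -/
def PA (T : Finset (Finset ℕ)) (a : ℝ) : Prop :=
  ∀ σ ∈ T, ∀ σ' ∈ T, ((sm σ σ').card : ℝ) ≤ a * ((σ.card : ℝ) * σ'.card)

/-- all pairs `(σ, σ)` have few sums -/
def PD (T : Finset (Finset ℕ)) (d : ℝ) : Prop :=
  ∀ σ ∈ T, ((sm σ σ).card : ℝ) ≤ d * ((σ.card : ℝ) * σ.card)

lemma PA_one (T : Finset (Finset ℕ)) : PA T 1 := by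
  intro σ _ σ' _
  rw [one_mul]
  exact_mod_cast card_sm_le σ σ'

lemma sm_split {M : ℕ} {σ σ' : Finset ℕ} {s : ℕ} (hs : s ∈ sm σ σ') :
    ∃ p ∈ im M σ ×ˢ im M σ', s ∈ (sm (sb M σ p.1) (sb M σ' p.2)).image
      (fun t => p.1 + p.2 + M * t) := by
  rw [mem_sm] at hs
  obtain ⟨x, hx, y, hy, rfl⟩ := hs
  refine ⟨(x % M, y % M), Finset.mem_product.2 ⟨mem_im.2 ⟨x, hx, rfl⟩, mem_im.2 ⟨y, hy, rfl⟩⟩, ?_⟩
  rw [Finset.mem_image]
  refine ⟨x / M + y / M, mem_sm.2 ⟨x / M, ?_, y / M, ?_, rfl⟩, ?_⟩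
  · exact Finset.mem_image.2 ⟨x, Finset.mem_filter.2 ⟨hx, rfl⟩, rfl⟩
  · exact Finset.mem_image.2 ⟨y, Finset.mem_filter.2 ⟨hy, rfl⟩, rfl⟩
  · have h1 := Nat.div_add_mod x M
    have h2 := Nat.div_add_mod y M
    rw [mul_add]
    simp only
    omega

/-- the number of sums, where a pair of residues may be left out -/
lemma card_sm_split {M : ℕ} (σ σ' : Finset ℕ) (S : Finset (ℕ × ℕ))
    (hS : ∀ p ∈ im M σ ×ˢ im M σ', p ∈ S ∨ ∃ p' ∈ S, p'.1 + p'.2 = p.1 + p.2 ∧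
      sm (sb M σ p.1) (sb M σ' p.2) = sm (sb M σ p'.1) (sb M σ' p'.2)) :
    ((sm σ σ').card : ℝ) ≤ ∑ p ∈ S, ((sm (sb M σ p.1) (sb M σ' p.2)).card : ℝ) := by
  classical
  have h1 : sm σ σ' ⊆ S.biUnion fun p => (sm (sb M σ p.1) (sb M σ' p.2)).image
      (fun t => p.1 + p.2 + M * t) := by
    intro s hs
    obtain ⟨p, hp, h2⟩ := sm_split (M := M) hs
    rw [Finset.mem_biUnion]
    rcases hS p hp with h3 | ⟨p', hp', h4, h5⟩
    · exact ⟨p, h3, h2⟩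
    · refine ⟨p', hp', ?_⟩
      rw [← h5, h4]
      exact h2
  have h2 : (sm σ σ').card ≤ ∑ p ∈ S, (sm (sb M σ p.1) (sb M σ' p.2)).card := by
    refine (Finset.card_le_card h1).trans (Finset.card_biUnion_le.trans ?_)
    exact Finset.sum_le_sum fun p _ => Finset.card_image_le
  exact_mod_cast h2

lemma card_mul_eq (M : ℕ) (σ σ' : Finset ℕ) : ((σ.card : ℝ) * σ'.card) =
    ∑ p ∈ im M σ ×ˢ im M σ', ((sb M σ p.1).card : ℝ) * (sb M σ' p.2).card := by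
  rw [card_eq_sum M σ, card_eq_sum M σ', Nat.cast_sum, Nat.cast_sum, Finset.sum_mul_sum,
    Finset.sum_product]

lemma step0 {M : ℕ} {T T' : Finset (Finset ℕ)} {a : ℝ}
    (hT : ∀ σ ∈ T, ∀ x ∈ im M σ, sb M σ x ∈ T') (h : PA T' a) : PA T a := by
  intro σ hσ σ' hσ'
  refine (card_sm_split (M := M) σ σ' (im M σ ×ˢ im M σ') fun p hp => Or.inl hp).trans ?_
  rw [card_mul_eq M σ σ', Finset.mul_sum]
  refine Finset.sum_le_sum fun p hp => ?_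
  rw [Finset.mem_product] at hp
  exact h _ (hT σ hσ _ hp.1) _ (hT σ' hσ' _ hp.2)

/-- a stage with two branches -/
lemma step1 {M : ℕ} {T T' : Finset (Finset ℕ)} {a ε : ℝ} (ha : 0 ≤ a) (hε : 0 ≤ ε)
    (hT : ∀ σ ∈ T, ∀ x ∈ im M σ, sb M σ x ∈ T')
    (hc : ∀ σ ∈ T, ∀ τ ∈ T', ε * (σ.card : ℝ) ≤ τ.card)
    (hb : ∀ σ ∈ T, 2 ≤ (im M σ).card) (h : PA T' a) : PD T (a * (1 - ε ^ 2)) := by
  classical
  intro σ hσ
  obtain ⟨x, hx, y, hy, hxy⟩ := Finset.one_lt_card.1 (hb σ hσ)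
  have hmem : (y, x) ∈ im M σ ×ˢ im M σ := Finset.mem_product.2 ⟨hy, hx⟩
  refine (card_sm_split (M := M) σ σ ((im M σ ×ˢ im M σ).erase (y, x)) fun p hp => ?_).trans ?_
  · by_cases hp2 : p = (y, x)
    · right
      refine ⟨(x, y), Finset.mem_erase.2 ⟨?_, Finset.mem_product.2 ⟨hx, hy⟩⟩, ?_, ?_⟩
      · intro h1
        exact hxy (Prod.ext_iff.1 h1).1
      · rw [hp2]
        exact add_comm _ _
      · rw [hp2]
        exact sm_comm _ _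
    · left
      exact Finset.mem_erase.2 ⟨hp2, hp⟩
  · have h1 : ∑ p ∈ (im M σ ×ˢ im M σ).erase (y, x), ((sm (sb M σ p.1) (sb M σ p.2)).card : ℝ) ≤
        ∑ p ∈ (im M σ ×ˢ im M σ).erase (y, x),
          a * (((sb M σ p.1).card : ℝ) * (sb M σ p.2).card) := by
      refine Finset.sum_le_sum fun p hp => ?_
      have hp2 := Finset.mem_product.1 (Finset.mem_erase.1 hp).2
      exact h _ (hT σ hσ _ hp2.1) _ (hT σ hσ _ hp2.2)
    refine h1.trans ?_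
    have h2 := Finset.sum_erase_add (im M σ ×ˢ im M σ)
      (fun p => a * (((sb M σ p.1).card : ℝ) * (sb M σ p.2).card)) hmem
    rw [← Finset.mul_sum (s := im M σ ×ˢ im M σ), ← card_mul_eq M σ σ] at h2
    have h3 := hc σ hσ _ (hT σ hσ y hy)
    have h4 := hc σ hσ _ (hT σ hσ x hx)
    have h5 : (ε * (σ.card : ℝ)) * (ε * (σ.card : ℝ)) ≤
        ((sb M σ y).card : ℝ) * (sb M σ x).card :=
      mul_le_mul h3 h4 (by positivity) (by positivity)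
    have h6 := mul_le_mul_of_nonneg_left h5 ha
    simp only at h2
    calc ∑ p ∈ (im M σ ×ˢ im M σ).erase (y, x),
          a * (((sb M σ p.1).card : ℝ) * (sb M σ p.2).card)
        = a * ((σ.card : ℝ) * σ.card) - a * (((sb M σ y).card : ℝ) * (sb M σ x).card) := by
          linarith
      _ ≤ a * ((σ.card : ℝ) * σ.card) - a * ((ε * (σ.card : ℝ)) * (ε * (σ.card : ℝ))) := by
          linarith
      _ = _ := by ring

/-- an irreducible stage -/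
lemma step2 {M : ℕ} {T T' : Finset (Finset ℕ)} {a d ε : ℝ} (hda : d ≤ a) (hε : 0 ≤ ε)
    (hT : ∀ σ ∈ T, ∀ x ∈ im M σ, sb M σ x ∈ T') (hne : T'.Nonempty)
    (hirr : ∀ σ ∈ T, ∀ τ ∈ T', ∃ x ∈ im M σ, sb M σ x = τ)
    (hc : ∀ σ ∈ T, ∀ τ ∈ T', ε * (σ.card : ℝ) ≤ τ.card)
    (h : PA T' a) (h' : PD T' d) : PA T (a - ε ^ 2 * (a - d)) := by
  classical
  intro σ hσ σ' hσ'
  obtain ⟨τ, hτ⟩ := hne
  obtain ⟨x, hx, hx2⟩ := hirr σ hσ τ hτ
  obtain ⟨y, hy, hy2⟩ := hirr σ' hσ' τ hτ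
  have hmem : (x, y) ∈ im M σ ×ˢ im M σ' := Finset.mem_product.2 ⟨hx, hy⟩
  refine (card_sm_split (M := M) σ σ' (im M σ ×ˢ im M σ') fun p hp => Or.inl hp).trans ?_
  have h1 := Finset.sum_erase_add (im M σ ×ˢ im M σ')
    (fun p => ((sm (sb M σ p.1) (sb M σ' p.2)).card : ℝ)) hmem
  have h2 := Finset.sum_erase_add (im M σ ×ˢ im M σ')
    (fun p => a * (((sb M σ p.1).card : ℝ) * (sb M σ' p.2).card)) hmem
  rw [← Finset.mul_sum (s := im M σ ×ˢ im M σ'), ← card_mul_eq M σ σ'] at h2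
  have h3 : ∑ p ∈ (im M σ ×ˢ im M σ').erase (x, y), ((sm (sb M σ p.1) (sb M σ' p.2)).card : ℝ) ≤
        ∑ p ∈ (im M σ ×ˢ im M σ').erase (x, y),
          a * (((sb M σ p.1).card : ℝ) * (sb M σ' p.2).card) := by
    refine Finset.sum_le_sum fun p hp => ?_
    have hp2 := Finset.mem_product.1 (Finset.mem_erase.1 hp).2
    exact h _ (hT σ hσ _ hp2.1) _ (hT σ' hσ' _ hp2.2)
  simp only at h1 h2
  rw [hx2, hy2] at h1 h2
  have h4 := h' τ hτ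
  have h5 := hc σ hσ τ hτ
  have h6 := hc σ' hσ' τ hτ
  have h7 : (ε * (σ.card : ℝ)) * (ε * (σ'.card : ℝ)) ≤ (τ.card : ℝ) * τ.card :=
    mul_le_mul h5 h6 (by positivity) (by positivity)
  have h8 := mul_le_mul_of_nonneg_left h7 (sub_nonneg.2 hda)
  calc ∑ p ∈ im M σ ×ˢ im M σ', ((sm (sb M σ p.1) (sb M σ' p.2)).card : ℝ)
      ≤ a * ((σ.card : ℝ) * σ'.card) - (a - d) * ((τ.card : ℝ) * τ.card) := by linarith
    _ ≤ a * ((σ.card : ℝ) * σ'.card) -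
        (a - d) * ((ε * (σ.card : ℝ)) * (ε * (σ'.card : ℝ))) := by linarith
    _ = _ := by ring

/-- irreducible stages -/
structure Stg (T : ℕ → Finset (Finset ℕ)) (M : ℕ → ℕ) (ε : ℝ) (L : ℕ) : Prop where
  sub : ∀ n < L, ∀ σ ∈ T n, ∀ x ∈ im (M n) σ, sb (M n) σ x ∈ T (n + 1)
  ne : ∀ n < L, (T (n + 1)).Nonempty
  irr : ∀ n < L, ∀ σ ∈ T n, ∀ τ ∈ T (n + 1), ∃ x ∈ im (M n) σ, sb (M n) σ x = τ
  cmp : ∀ n < L, ∀ σ ∈ T n, ∀ τ ∈ T (n + 1), ε * (σ.card : ℝ) ≤ τ.card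

lemma Stg.shift {T : ℕ → Finset (Finset ℕ)} {M : ℕ → ℕ} {ε : ℝ} {L : ℕ} (h : Stg T M ε (L + 2)) :
    Stg (fun n => T (n + 2)) (fun n => M (n + 2)) ε L :=
  ⟨fun n hn => h.sub (n + 2) (by omega), fun n hn => h.ne (n + 2) (by omega),
    fun n hn => h.irr (n + 2) (by omega), fun n hn => h.cmp (n + 2) (by omega)⟩

/-- two stages, the second one with branches -/
lemma Stg.double {T : ℕ → Finset (Finset ℕ)} {M : ℕ → ℕ} {ε : ℝ} {L : ℕ} (h : Stg T M ε (L + 2))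
    (hε : 0 ≤ ε) {a : ℝ} (ha : 0 ≤ a) (hb : ∀ σ ∈ T 1, 2 ≤ (im (M 1) σ).card)
    (hPA : PA (T 2) a) : PA (T 0) (a * (1 - ε ^ 4)) := by
  have h1 : PD (T 1) (a * (1 - ε ^ 2)) :=
    step1 ha hε (h.sub 1 (by omega)) (h.cmp 1 (by omega)) hb hPA
  have h2 : PA (T 1) a := step0 (h.sub 1 (by omega)) hPA
  have h3 : a * (1 - ε ^ 2) ≤ a := by nlinarith [mul_nonneg ha (sq_nonneg ε)]
  have h4 := step2 h3 hε (h.sub 0 (by omega)) (h.ne 0 (by omega)) (h.irr 0 (by omega))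
    (h.cmp 0 (by omega)) h2 h1
  have h5 : a - ε ^ 2 * (a - a * (1 - ε ^ 2)) = a * (1 - ε ^ 4) := by ring
  rw [h5] at h4
  exact h4

/-- Many stages give few sums. -/
theorem gain {ε : ℝ} (hε : 0 ≤ ε) (hε1 : ε ≤ 1) (k : ℕ) :
    ∀ (T S : ℕ → Finset (Finset ℕ)) (M : ℕ → ℕ), Stg T M ε (2 * k) → Stg S M ε (2 * k) →
    (∀ n < 2 * k, (∀ σ ∈ T n, 2 ≤ (im (M n) σ).card) ∨ ∀ σ ∈ S n, 2 ≤ (im (M n) σ).card) →
    ∃ a b : ℝ, 0 ≤ a ∧ 0 ≤ b ∧ PA (T 0) a ∧ PA (S 0) b ∧ a * b ≤ (1 - ε ^ 4) ^ k := by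
  have hε4 : ε ^ 4 ≤ 1 := pow_le_one₀ hε hε1
  induction k with
  | zero =>
    intro T S M _ _ _
    exact ⟨1, 1, zero_le_one, zero_le_one, PA_one _, PA_one _, by norm_num⟩
  | succ k ih =>
    intro T S M hT hS hb
    have e : 2 * (k + 1) = 2 * k + 2 := by ring
    rw [e] at hT hS hb
    obtain ⟨a, b, ha, hb0, h1, h2, h3⟩ := ih _ _ _ hT.shift hS.shift
      (fun n hn => hb (n + 2) (by omega))
    simp only [zero_add] at h1 h2
    have h0 : 0 ≤ 1 - ε ^ 4 := by linarith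
    have hTS : ∀ {T : ℕ → Finset (Finset ℕ)} {a : ℝ}, Stg T M ε (2 * k + 2) → PA (T 2) a →
        PA (T 0) a := fun hT h => step0 (hT.sub 0 (by omega)) (step0 (hT.sub 1 (by omega)) h)
    rcases hb 1 (by omega) with h4 | h4
    · refine ⟨a * (1 - ε ^ 4), b, mul_nonneg ha h0, hb0, hT.double hε ha h4 h1, hTS hS h2, ?_⟩
      calc a * (1 - ε ^ 4) * b = (a * b) * (1 - ε ^ 4) := by ring
        _ ≤ (1 - ε ^ 4) ^ k * (1 - ε ^ 4) := mul_le_mul_of_nonneg_right h3 h0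
        _ = _ := (pow_succ _ _).symm
    · refine ⟨a, b * (1 - ε ^ 4), ha, mul_nonneg hb0 h0, hTS hT h1, hS.double hε hb0 h4 h2, ?_⟩
      calc a * (b * (1 - ε ^ 4)) = (a * b) * (1 - ε ^ 4) := by ring
        _ ≤ (1 - ε ^ 4) ^ k * (1 - ε ^ 4) := mul_le_mul_of_nonneg_right h3 h0
        _ = _ := (pow_succ _ _).symm

end Pool.Agent.Helper72.PG
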