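import Pool.Agent.Helper72.PG.Base

/-! Increments of the mutual information of two functions; the arguments are counted along a
second chain. -/

namespace Pool.Agent.Helper72.PG

open Finset Pool.Agent.Helper72.PW Pool.Agent.Helper72.PL

variable {m D g γ : ℕ → ℕ} {F G : ℕ → ℕ}

/-- the residue of `F z` modulo `m l` is a function of the residue of `z` modulo `D l` -/
def ActD (m D F : ℕ → ℕ) : Prop := ∀ l z, F z % m l = F (z % D l) % m l

/-- how often a residue is taken -/
def d1 (m D F : ℕ → ℕ) (l a : ℕ) : ℕ := ∑ z ∈ Finset.range (D l), if F z % m l = a then 1 else 0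

/-- how often a pair of residues is taken -/
def d2 (m D F G : ℕ → ℕ) (l a b : ℕ) : ℕ :=
  ∑ z ∈ Finset.range (D l), if F z % m l = a ∧ G z % m l = b then 1 else 0

/-- how often a residue is continued by a digit -/
def e1 (m D F : ℕ → ℕ) (l a u : ℕ) : ℕ :=
  ∑ z ∈ Finset.range (D (l + 1)), if F z % m l = a ∧ dg m l (F z) = u then 1 else 0

/-- how often a pair of residues is continued by a pair of digits -/
def e2 (m D F G : ℕ → ℕ) (l a b u v : ℕ) : ℕ :=
  ∑ z ∈ Finset.range (D (l + 1)), if (F z % m l = a ∧ G z % m l = b) ∧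
    (dg m l (F z) = u ∧ dg m l (G z) = v) then 1 else 0

lemma liftD (hF : ActD m D F) (l : ℕ) {k : ℕ} (hk : k < D l) (d : ℕ) :
    F (k + d * D l) % m l = F k % m l := by
  rw [hF l (k + d * D l), Nat.add_mul_mod_self_right, Nat.mod_eq_of_lt hk]

lemma e1_sum (h : Rad m g) (hD : Rad D γ) (hF : ActD m D F) (l a : ℕ) :
    ∑ u ∈ Finset.range (g l), e1 m D F l a u = γ l * d1 m D F l a := by
  unfold e1 d1
  rw [Finset.sum_comm, Finset.mul_sum]
  have h1 : ∀ z ∈ Finset.range (D (l + 1)),
      (∑ u ∈ Finset.range (g l), if F z % m l = a ∧ dg m l (F z) = u then 1 else 0) =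
      if F z % m l = a then 1 else 0 := by
    intro z _
    by_cases e : F z % m l = a
    · rw [if_pos e, Finset.sum_eq_single (dg m l (F z))]
      · rw [if_pos ⟨e, rfl⟩]
      · intro u _ hu
        rw [if_neg fun hh => hu hh.2.symm]
      · intro hu
        exact absurd (Finset.mem_range.2 (dg_lt h l (F z))) hu
    · rw [if_neg e]
      exact Finset.sum_eq_zero fun u _ => if_neg fun hh => e hh.1
  rw [Finset.sum_congr rfl h1, hD.succ, sum_split]
  refine Finset.sum_congr rfl fun k hk => ?_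
  rw [Finset.mem_range] at hk
  rw [Finset.sum_congr rfl (g := fun _ => if F k % m l = a then 1 else 0) fun d _ => by
    rw [liftD hF l hk d]]
  rw [Finset.sum_const, Finset.card_range, smul_eq_mul]

lemma e2_sum (h : Rad m g) (hD : Rad D γ) (hF : ActD m D F) (hG : ActD m D G) (l a b : ℕ) :
    ∑ u ∈ Finset.range (g l), ∑ v ∈ Finset.range (g l), e2 m D F G l a b u v =
      γ l * d2 m D F G l a b := by
  unfold e2 d2
  rw [Finset.sum_congr rfl fun u _ => Finset.sum_comm]
  rw [Finset.sum_comm, Finset.mul_sum]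
  have h1 : ∀ z ∈ Finset.range (D (l + 1)),
      (∑ u ∈ Finset.range (g l), ∑ v ∈ Finset.range (g l), if (F z % m l = a ∧ G z % m l = b) ∧
        (dg m l (F z) = u ∧ dg m l (G z) = v) then 1 else 0) =
      if F z % m l = a ∧ G z % m l = b then 1 else 0 := by
    intro z _
    by_cases e : F z % m l = a ∧ G z % m l = b
    · rw [if_pos e, Finset.sum_eq_single (dg m l (F z))]
      · rw [Finset.sum_eq_single (dg m l (G z))]
        · rw [if_pos ⟨e, rfl, rfl⟩]
        · intro v _ hv
          rw [if_neg fun hh => hv hh.2.2.symm]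
        · intro hv
          exact absurd (Finset.mem_range.2 (dg_lt h l (G z))) hv
      · intro u _ hu
        exact Finset.sum_eq_zero fun v _ => if_neg fun hh => hu hh.2.1.symm
      · intro hu
        exact absurd (Finset.mem_range.2 (dg_lt h l (F z))) hu
    · rw [if_neg e]
      exact Finset.sum_eq_zero fun u _ => Finset.sum_eq_zero fun v _ => if_neg fun hh => e hh.1
  rw [Finset.sum_congr rfl h1, hD.succ, sum_split]
  refine Finset.sum_congr rfl fun k hk => ?_
  rw [Finset.mem_range] at hk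
  rw [Finset.sum_congr rfl (g := fun _ => if F k % m l = a ∧ G k % m l = b then 1 else 0)
    fun d _ => by rw [liftD hF l hk d, liftD hG l hk d]]
  rw [Finset.sum_const, Finset.card_range, smul_eq_mul]

lemma mod_eqD (h : Rad m g) (l x y : ℕ) :
    x % m (l + 1) = y % m (l + 1) ↔ x % m l = y % m l ∧ dg m l x = dg m l y := by
  constructor
  · intro e
    constructor
    · rw [← Nat.mod_mod_of_dvd x (h.dvd l), e, Nat.mod_mod_of_dvd y (h.dvd l)]
    · unfold dg
      rw [e]
  · rintro ⟨e1, e2⟩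
    rw [mod_succ h l x, mod_succ h l y, e1, e2]

lemma d1_succ (h : Rad m g) (l z : ℕ) :
    d1 m D F (l + 1) (F z % m (l + 1)) = e1 m D F l (F z % m l) (dg m l (F z)) := by
  unfold d1 e1
  refine Finset.sum_congr rfl fun y _ => ?_
  exact ite_one (mod_eqD h l _ _)

lemma d2_succ (h : Rad m g) (l z : ℕ) :
    d2 m D F G (l + 1) (F z % m (l + 1)) (G z % m (l + 1)) =
      e2 m D F G l (F z % m l) (G z % m l) (dg m l (F z)) (dg m l (G z)) := by
  unfold d2 e2
  refine Finset.sum_congr rfl fun y _ => ite_one ?_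
  rw [mod_eqD h, mod_eqD h]
  exact ⟨fun hh => ⟨⟨hh.1.1, hh.2.1⟩, hh.1.2, hh.2.2⟩,
    fun hh => ⟨⟨hh.1.1, hh.2.1⟩, hh.1.2, hh.2.2⟩⟩

lemma d1_pos (m : ℕ → ℕ) (F : ℕ → ℕ) {l z : ℕ} (hz : z < D l) : 0 < d1 m D F l (F z % m l) := by
  unfold d1
  refine Finset.sum_pos' (fun _ _ => Nat.zero_le _) ⟨z, Finset.mem_range.2 hz, ?_⟩
  rw [if_pos rfl]
  norm_num

lemma d2_pos (m : ℕ → ℕ) (F G : ℕ → ℕ) {l z : ℕ} (hz : z < D l) :
    0 < d2 m D F G l (F z % m l) (G z % m l) := by
  unfold d2
  refine Finset.sum_pos' (fun _ _ => Nat.zero_le _) ⟨z, Finset.mem_range.2 hz, ?_⟩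
  rw [if_pos ⟨rfl, rfl⟩]
  norm_num

/-- conditional distribution of the next digit -/
noncomputable def nuD (m D γ : ℕ → ℕ) (F : ℕ → ℕ) (l a u : ℕ) : ℝ :=
  (e1 m D F l a u : ℝ) / (γ l * d1 m D F l a)

lemma nuD_nonneg (m D γ : ℕ → ℕ) (F : ℕ → ℕ) (l a u : ℕ) : 0 ≤ nuD m D γ F l a u := by
  unfold nuD
  positivity

lemma nuD_sum (h : Rad m g) (hD : Rad D γ) (hF : ActD m D F) {l a : ℕ} (ha : 0 < d1 m D F l a) :
    ∑ u ∈ Finset.range (g l), nuD m D γ F l a u = 1 := by
  have h1 := e1_sum h hD hF l a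
  have h3 : (0 : ℝ) < γ l := by
    have := hD.two l
    exact_mod_cast (by omega : 0 < γ l)
  have h4 : (0 : ℝ) < d1 m D F l a := by exact_mod_cast ha
  unfold nuD
  rw [← Finset.sum_div, ← Nat.cast_sum, h1, Nat.cast_mul]
  exact div_self (mul_pos h3 h4).ne'

lemma e2_le_e1 (m D F G : ℕ → ℕ) (l a b u v : ℕ) : e2 m D F G l a b u v ≤ e1 m D F l a u := by
  unfold e2 e1
  refine Finset.sum_le_sum fun z _ => ?_
  split_ifs with h1 h2 h2
  · exact le_rfl
  · exact absurd ⟨h1.1.1, h1.2.1⟩ h2
  · exact Nat.zero_le _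
  · exact le_rfl

lemma e2_le_e1' (m D F G : ℕ → ℕ) (l a b u v : ℕ) : e2 m D F G l a b u v ≤ e1 m D G l b v := by
  unfold e2 e1
  refine Finset.sum_le_sum fun z _ => ?_
  split_ifs with h1 h2 h2
  · exact le_rfl
  · exact absurd ⟨h1.1.2, h1.2.2⟩ h2
  · exact Nat.zero_le _
  · exact le_rfl

lemma d2_le_d1 (m D F G : ℕ → ℕ) (l a b : ℕ) : d2 m D F G l a b ≤ d1 m D F l a := by
  unfold d2 d1
  refine Finset.sum_le_sum fun z _ => ?_
  split_ifs with h1 h2 h2
  · exact le_rfl
  · exact absurd h1.1 h2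
  · exact Nat.zero_le _
  · exact le_rfl

lemma d2_le_d1' (m D F G : ℕ → ℕ) (l a b : ℕ) : d2 m D F G l a b ≤ d1 m D G l b := by
  unfold d2 d1
  refine Finset.sum_le_sum fun z _ => ?_
  split_ifs with h1 h2 h2
  · exact le_rfl
  · exact absurd h1.2 h2
  · exact Nat.zero_le _
  · exact le_rfl

/-- pointwise mutual information -/
noncomputable def phiD (m D F G : ℕ → ℕ) (l z : ℕ) : ℝ :=
  Real.log (D l) + Real.log (d2 m D F G l (F z % m l) (G z % m l)) -
    Real.log (d1 m D F l (F z % m l)) - Real.log (d1 m D G l (G z % m l))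

/-- the increment -/
noncomputable def incD (m D γ : ℕ → ℕ) (F G : ℕ → ℕ) (l a b u v : ℕ) : ℝ :=
  Real.log ((e2 m D F G l a b u v : ℝ) / ((γ l * d2 m D F G l a b : ℕ) : ℝ) /
    (nuD m D γ F l a u * nuD m D γ G l b v))

lemma phiD_step (h : Rad m g) (hD : Rad D γ) (hF : ActD m D F) (hG : ActD m D G) (l : ℕ) {z : ℕ}
    (hz : z < D (l + 1)) :
    phiD m D F G (l + 1) z = phiD m D F G l (z % D l) +
      incD m D γ F G l (F z % m l) (G z % m l) (dg m l (F z)) (dg m l (G z)) := by
  have hg : (0 : ℝ) < γ l := by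
    have := hD.two l
    exact_mod_cast (by omega : 0 < γ l)
  have hm : (0 : ℝ) < D l := by exact_mod_cast hD.pos l
  have hk : z % D l < D l := Nat.mod_lt _ (hD.pos l)
  have q2 := d2_pos m F G hz
  have q1 := d1_pos m F hz
  have q1' := d1_pos m G hz
  rw [d2_succ h] at q2
  rw [d1_succ h] at q1 q1'
  have r2 := d2_pos m F G hk
  have r1 := d1_pos m F hk
  have r1' := d1_pos m G hk
  rw [← hF l z, ← hG l z] at r2
  rw [← hF l z] at r1
  rw [← hG l z] at r1'
  unfold phiD incD nuD
  rw [d2_succ h, d1_succ h, d1_succ h, ← hF l z, ← hG l z, hD.succ]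
  set A2 := e2 m D F G l (F z % m l) (G z % m l) (dg m l (F z)) (dg m l (G z))
  set A1 := e1 m D F l (F z % m l) (dg m l (F z))
  set A1' := e1 m D G l (G z % m l) (dg m l (G z))
  set B2 := d2 m D F G l (F z % m l) (G z % m l)
  set B1 := d1 m D F l (F z % m l)
  set B1' := d1 m D G l (G z % m l)
  have a2 : (0 : ℝ) < A2 := by exact_mod_cast q2
  have a1 : (0 : ℝ) < A1 := by exact_mod_cast q1
  have a1' : (0 : ℝ) < A1' := by exact_mod_cast q1'
  have b2 : (0 : ℝ) < B2 := by exact_mod_cast r2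
  have b1 : (0 : ℝ) < B1 := by exact_mod_cast r1
  have b1' : (0 : ℝ) < B1' := by exact_mod_cast r1'
  rw [Nat.cast_mul, Nat.cast_mul, Real.log_mul hg.ne' hm.ne', Real.log_div (by positivity)
    (by positivity), Real.log_div a2.ne' (by positivity), Real.log_mul hg.ne' b2.ne',
    Real.log_mul (by positivity) (by positivity), Real.log_div a1.ne' (by positivity),
    Real.log_div a1'.ne' (by positivity), Real.log_mul hg.ne' b1.ne',
    Real.log_mul hg.ne' b1'.ne']
  ring

/-- the sum of the increments over a node -/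
lemma sum_nodesD (h : Rad m g) (l : ℕ) (H : ℕ → ℕ → ℕ → ℕ → ℝ) :
    ∑ z ∈ Finset.range (D (l + 1)), H (F z % m l) (G z % m l) (dg m l (F z)) (dg m l (G z)) =
      ∑ a ∈ Finset.range (m l), ∑ b ∈ Finset.range (m l), ∑ u ∈ Finset.range (g l),
        ∑ v ∈ Finset.range (g l), (e2 m D F G l a b u v : ℝ) * H a b u v := by
  classical
  set S : Finset (ℕ × ℕ × ℕ × ℕ) := Finset.range (m l) ×ˢ Finset.range (m l) ×ˢ
    Finset.range (g l) ×ˢ Finset.range (g l) with hS
  have h1 : ∑ z ∈ Finset.range (D (l + 1)),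
      H (F z % m l) (G z % m l) (dg m l (F z)) (dg m l (G z)) =
      ∑ q ∈ S, (((Finset.range (D (l + 1))).filter fun z =>
        (F z % m l, G z % m l, dg m l (F z), dg m l (G z)) = q).card : ℝ) *
        H q.1 q.2.1 q.2.2.1 q.2.2.2 := by
    rw [← Finset.sum_fiberwise_of_maps_to (t := S)
      (g := fun z => (F z % m l, G z % m l, dg m l (F z), dg m l (G z)))]
    · refine Finset.sum_congr rfl fun q _ => ?_
      rw [Finset.sum_congr rfl (g := fun _ => H q.1 q.2.1 q.2.2.1 q.2.2.2) fun z hz => by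
        rw [← (Finset.mem_filter.1 hz).2]]
      rw [Finset.sum_const, nsmul_eq_mul]
    · intro z _
      simp only [hS, Finset.mem_product, Finset.mem_range]
      exact ⟨Nat.mod_lt _ (h.pos l), Nat.mod_lt _ (h.pos l), dg_lt h l _, dg_lt h l _⟩
  rw [h1, hS, Finset.sum_product]
  refine Finset.sum_congr rfl fun a _ => ?_
  rw [Finset.sum_product]
  refine Finset.sum_congr rfl fun b _ => ?_
  rw [Finset.sum_product]
  refine Finset.sum_congr rfl fun u _ => ?_
  refine Finset.sum_congr rfl fun v _ => ?_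
  congr 2
  unfold e2
  rw [Finset.card_filter]
  refine Finset.sum_congr rfl fun z _ => ?_
  simp only [Prod.mk.injEq]
  exact ite_one ⟨fun hh => ⟨⟨hh.1, hh.2.1⟩, hh.2.2⟩, fun hh => ⟨hh.1.1, hh.1.2, hh.2⟩⟩

/-- all pairs of digits occur -/
def GoodD (B : ℕ) (m D g γ : ℕ → ℕ) (F G : ℕ → ℕ) (l a b : ℕ) : Prop :=
  ∀ u < g l, ∀ v < g l, 0 < e2 m D F G l a b u v ↔
    u ∈ bigB B (g l) (nuD m D γ F l a) ∧ v ∈ bigB B (g l) (nuD m D γ G l b)

open Classical in
/-- the indicator of the nodes which are not good -/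
noncomputable def badD (B : ℕ) (m D g γ : ℕ → ℕ) (F G : ℕ → ℕ) (l a b : ℕ) : ℝ :=
  if GoodD B m D g γ F G l a b then 0 else 1

lemma badD_nonneg (B : ℕ) (m D g γ : ℕ → ℕ) (F G : ℕ → ℕ) (l a b : ℕ) :
    0 ≤ badD B m D g γ F G l a b := by
  unfold badD
  split_ifs
  · exact le_rfl
  · exact zero_le_one

lemma nodeD_gap (h : Rad m g) (hD : Rad D γ) (hF : ActD m D F) (hG : ActD m D G) {B : ℕ}
    (hB : ∀ l a b, γ l * d2 m D F G l a b ≤ B) (l a b : ℕ) :
    1 / (100 * (B : ℝ) ^ 4) * ∑ u ∈ Finset.range (g l), ∑ v ∈ Finset.range (g l),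
      (e2 m D F G l a b u v : ℝ) * badD B m D g γ F G l a b ≤
    ∑ u ∈ Finset.range (g l), ∑ v ∈ Finset.range (g l),
      (e2 m D F G l a b u v : ℝ) * incD m D γ F G l a b u v := by
  have hg : 0 < γ l := by have := hD.two l; omega
  have hsum := e2_sum h hD hF hG l a b
  rcases Nat.eq_zero_or_pos (d2 m D F G l a b) with h0 | h0
  · rw [h0, mul_zero] at hsum
    have hz : ∀ u ∈ Finset.range (g l), ∀ v ∈ Finset.range (g l), e2 m D F G l a b u v = 0 := by
      intro u hu v hv
      exact (Finset.sum_eq_zero_iff.1 (Finset.sum_eq_zero_iff.1 hsum u hu)) v hv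
    rw [Finset.sum_eq_zero fun u hu => Finset.sum_eq_zero fun v hv => by
      rw [hz u hu v hv, Nat.cast_zero, zero_mul]]
    rw [Finset.sum_eq_zero fun u hu => Finset.sum_eq_zero fun v hv => by
      rw [hz u hu v hv, Nat.cast_zero, zero_mul]]
    rw [mul_zero]
  · have hT : 0 < γ l * d2 m D F G l a b := Nat.mul_pos hg h0
    have hc1 : 0 < d1 m D F l a := h0.trans_le (d2_le_d1 m D F G l a b)
    have hc1' : 0 < d1 m D G l b := h0.trans_le (d2_le_d1' m D F G l a b)
    have hgr : (0 : ℝ) < γ l := by exact_mod_cast hg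
    have hG2 := gap2 (e2 m D F G l a b) hT (hB l a b) hsum (nuD m D γ F l a) (nuD m D γ G l b)
      (nuD_nonneg m D γ F l a) (nuD_nonneg m D γ G l b) (nuD_sum h hD hF hc1)
      (nuD_sum h hD hG hc1')
      (fun u _ v _ hN => by
        have q1 : 0 < e1 m D F l a u := hN.trans_le (e2_le_e1 m D F G l a b u v)
        have q2 : 0 < e1 m D G l b v := hN.trans_le (e2_le_e1' m D F G l a b u v)
        have q3 : (0 : ℝ) < e1 m D F l a u := by exact_mod_cast q1
        have q4 : (0 : ℝ) < e1 m D G l b v := by exact_mod_cast q2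
        have q5 : (0 : ℝ) < d1 m D F l a := by exact_mod_cast hc1
        have q6 : (0 : ℝ) < d1 m D G l b := by exact_mod_cast hc1'
        unfold nuD
        exact ⟨by positivity, by positivity⟩)
    by_cases hgood : GoodD B m D g γ F G l a b
    · have e0 : badD B m D g γ F G l a b = 0 := by unfold badD; rw [if_pos hgood]
      rw [e0]
      simp only [mul_zero, Finset.sum_const_zero]
      exact hG2.1
    · have e0 : badD B m D g γ F G l a b = 1 := by unfold badD; rw [if_neg hgood]
      rw [e0]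
      simp only [mul_one]
      have q1 : ∑ u ∈ Finset.range (g l), ∑ v ∈ Finset.range (g l), (e2 m D F G l a b u v : ℝ) =
          ((γ l * d2 m D F G l a b : ℕ) : ℝ) := by
        rw [← hsum]
        push_cast
        rfl
      rw [q1, mul_comm]
      by_contra hcon
      rw [not_le] at hcon
      exact hgood (hG2.2 hcon).2

/-- the number of bad places -/
noncomputable def NND (B : ℕ) (m D g γ : ℕ → ℕ) (F G : ℕ → ℕ) (L z : ℕ) : ℝ :=
  ∑ l ∈ Finset.range L, badD B m D g γ F G l (F z % m l) (G z % m l)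

/-- Many bad places make the mutual information large. -/
theorem energyD (h : Rad m g) (hD : Rad D γ) (hF : ActD m D F) (hG : ActD m D G) {B : ℕ}
    (hB : ∀ l a b, γ l * d2 m D F G l a b ≤ B) (L : ℕ) :
    1 / (100 * (B : ℝ) ^ 4) * ∑ z ∈ Finset.range (D L), NND B m D g γ F G L z ≤
      ∑ z ∈ Finset.range (D L), phiD m D F G L z := by
  induction L with
  | zero =>
    rw [hD.one, Finset.sum_range_one, Finset.sum_range_one]
    have q1 : NND B m D g γ F G 0 0 = 0 := by unfold NND; rw [Finset.sum_range_zero]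
    have q2 : phiD m D F G 0 0 = 0 := by
      unfold phiD d1 d2
      rw [h.one, hD.one]
      simp [Nat.mod_one]
    rw [q1, q2, mul_zero]
  | succ L ih =>
    have hlift : ∀ k < D L, ∀ d, NND B m D g γ F G L (k + d * D L) = NND B m D g γ F G L k := by
      intro k hk d
      unfold NND
      refine Finset.sum_congr rfl fun l hl => ?_
      rw [Finset.mem_range] at hl
      obtain ⟨c, hc⟩ := hD.dvd_le hl.le
      have q1 : (k + d * D L) % D l = k % D l := by
        rw [hc, show k + d * (D l * c) = k + d * c * D l by ring, Nat.add_mul_mod_self_right]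
      rw [hF l (k + d * D L), hG l (k + d * D L), q1, ← hF l k, ← hG l k]
    have hL : ∑ z ∈ Finset.range (D (L + 1)), NND B m D g γ F G (L + 1) z =
        γ L * (∑ z ∈ Finset.range (D L), NND B m D g γ F G L z) +
        ∑ z ∈ Finset.range (D (L + 1)), badD B m D g γ F G L (F z % m L) (G z % m L) := by
      have q1 : ∑ z ∈ Finset.range (D (L + 1)), NND B m D g γ F G L z =
          γ L * (∑ z ∈ Finset.range (D L), NND B m D g γ F G L z) := by
        rw [hD.succ, sum_split, Finset.mul_sum]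
        refine Finset.sum_congr rfl fun k hk => ?_
        rw [Finset.mem_range] at hk
        rw [Finset.sum_congr rfl fun d _ => hlift k hk d, Finset.sum_const, Finset.card_range,
          nsmul_eq_mul]
      rw [← q1, ← Finset.sum_add_distrib]
      refine Finset.sum_congr rfl fun z _ => ?_
      unfold NND
      rw [Finset.sum_range_succ]
    have hP : ∑ z ∈ Finset.range (D (L + 1)), phiD m D F G (L + 1) z =
        γ L * (∑ z ∈ Finset.range (D L), phiD m D F G L z) +
        ∑ z ∈ Finset.range (D (L + 1)),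
          incD m D γ F G L (F z % m L) (G z % m L) (dg m L (F z)) (dg m L (G z)) := by
      have q1 : ∑ z ∈ Finset.range (D (L + 1)), phiD m D F G L (z % D L) =
          γ L * (∑ z ∈ Finset.range (D L), phiD m D F G L z) := by
        rw [hD.succ, sum_split, Finset.mul_sum]
        refine Finset.sum_congr rfl fun k hk => ?_
        rw [Finset.mem_range] at hk
        rw [Finset.sum_congr rfl (g := fun _ => phiD m D F G L k) fun d _ => by
          rw [Nat.add_mul_mod_self_right, Nat.mod_eq_of_lt hk]]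
        rw [Finset.sum_const, Finset.card_range, nsmul_eq_mul]
      rw [← q1, ← Finset.sum_add_distrib]
      exact Finset.sum_congr rfl fun z hz => phiD_step h hD hF hG L (Finset.mem_range.1 hz)
    have hI : 1 / (100 * (B : ℝ) ^ 4) *
        ∑ z ∈ Finset.range (D (L + 1)), badD B m D g γ F G L (F z % m L) (G z % m L) ≤
        ∑ z ∈ Finset.range (D (L + 1)),
          incD m D γ F G L (F z % m L) (G z % m L) (dg m L (F z)) (dg m L (G z)) := by
      rw [sum_nodesD h L (fun a b u v => incD m D γ F G L a b u v),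
        sum_nodesD (F := F) (G := G) h L (fun a b _ _ => badD B m D g γ F G L a b),
        Finset.mul_sum]
      refine Finset.sum_le_sum fun a _ => ?_
      rw [Finset.mul_sum]
      exact Finset.sum_le_sum fun b _ => nodeD_gap h hD hF hG hB L a b
    rw [hL, hP]
    have hg : (0 : ℝ) ≤ γ L := Nat.cast_nonneg _
    have h1 := mul_le_mul_of_nonneg_left ih hg
    linarith

end Pool.Agent.Helper72.PG
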