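import Pool.Agent.Helper72.PG.Up

/-! Exponential growth of the additive energy, bounded look-ahead. -/

namespace Pool.Agent.Helper72.PG

open Finset Pool.Agent.Helper72.PW Pool.Agent.Helper72.PL

/-- The energy grows exponentially with the number of windows. -/
theorem levelsG {Q : ℕ} (hQ2 : 2 ≤ Q) (h : ℕ) : ∃ W : ℕ, 1 ≤ W ∧ ∃ c : ℝ, 0 < c ∧
    ∀ (g : ℕ → ℕ), (∀ j, 2 ≤ g j) → (∀ j, g j ≤ Q) → ∀ (F G : ℕ → ℕ), Sys2 g h F G →
    ∀ (L : ℕ) (K : ℝ), 1 ≤ K →
    (en (rd (mw g W L) (dw g h W L) F) : ℝ) ≤ K * mw g W L →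
    (en (rd (mw g W L) (dw g h W L) G) : ℝ) ≤ K * mw g W L →
    c * L ≤ 2 * h * Real.log Q + Real.log (2 * K) := by
  have hQr : (2 : ℝ) ≤ Q := by exact_mod_cast hQ2
  have hQ0 : (0 : ℝ) < Q := by linarith
  have hlQ : 0 ≤ Real.log Q := Real.log_nonneg (by linarith)
  set C₁ := 4 ^ (Q ^ h) with hC₁
  have hC1 : 1 ≤ C₁ := Nat.one_le_pow _ _ (by norm_num)
  have hC1r : (1 : ℝ) ≤ C₁ := by exact_mod_cast hC1
  set x : ℝ := (1 / (4 * (C₁ : ℝ))) ^ 8 with hx
  have hx0 : 0 < x := by rw [hx]; positivity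
  obtain ⟨w, hw⟩ := rlt_good hQ2 h (by positivity : 0 < x / 2)
  set W := WW w h with hWdef
  have hW : 1 ≤ W := one_le_WW w h
  refine ⟨W, hW, ?_⟩
  set Q' := Q ^ W with hQ'
  set v : ℝ := min (x / 24) (1 / (7 * 2 ^ Q')) with hvdef
  have hv : 0 < v := by
    rw [hvdef]
    exact lt_min (by positivity) (by positivity)
  have hvQ : v * (7 * 2 ^ Q') ≤ 1 := by
    have h1 : v ≤ 1 / (7 * 2 ^ Q') := min_le_right _ _
    rwa [le_div_iff₀ (by positivity)] at h1
  have hv2 : v ≤ 1 / 2 := by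
    have e1 : (1 : ℝ) ≤ 2 ^ Q' := one_le_pow₀ (by norm_num)
    nlinarith
  have hv1 : v ≤ 1 := by linarith
  have hvx : x / 2 + 12 * v ≤ x := by
    have h1 : v ≤ x / 24 := min_le_left _ _
    linarith
  set θ : ℝ := 1 / 2 with hθ
  have hθ0 : 0 < θ := by rw [hθ]; norm_num
  have hθ1 : θ < 1 := by rw [hθ]; norm_num
  set B := Q' * Q ^ h with hB
  have hB0 : 0 < B := Nat.mul_pos (Nat.pow_pos (by omega)) (Nat.pow_pos (by omega))
  have hBr : (0 : ℝ) < B := by exact_mod_cast hB0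
  have hl : 0 ≤ -(3 * Real.log v) := by
    have := Real.log_nonpos hv.le hv1
    linarith
  set l := -(3 * Real.log v) with hldef
  set C := l * (100 * (B : ℝ) ^ 4) with hC
  have hC0 : 0 ≤ C := by positivity
  have hlogθ : 0 < -Real.log θ := by
    have := Real.log_neg hθ0 hθ1
    linarith
  refine ⟨-Real.log θ / (1 + C), by positivity, ?_⟩
  intro g hg hQg F G hs L K hK1 hKF hKG
  have hRad := rad_mw hg hW
  have hRadD := rad_dw (h := h) hg hW
  have hF := actD (W := W) hs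
  have hG := actD (W := W) hs.symm
  have hK0 : 0 < K := by linarith
  set M := mw g W L with hMdef
  set D := dw g h W L with hDdef
  have hM : 0 < M := hRad.pos L
  have hD : 0 < D := hRadD.pos L
  have hMr : (0 : ℝ) < M := by exact_mod_cast hM
  have hDr : (0 : ℝ) < D := by exact_mod_cast hD
  have hswap := rr_swap g h (W * L) 0
  rw [add_zero, zero_add] at hswap
  have hMD : M ≤ Q ^ h * D := by
    calc M ≤ M * rr g (W * L) h := Nat.le_mul_of_pos_right _ (rr_pos hg _ _)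
      _ = rr g 0 h * D := hswap.symm
      _ ≤ _ := Nat.mul_le_mul_right _ (rr_le hQg _ _)
  have hMDr : (M : ℝ) ≤ (Q : ℝ) ^ h * D := by exact_mod_cast hMD
  have hpos : ∀ F : ℕ → ℕ, (0 : ℝ) < (rd M D F).card := by
    intro F
    have : 0 < (rd M D F).card := Finset.card_pos.2 ⟨_, mem_rd (F := F) hD⟩
    exact_mod_cast this
  have hfour : ∀ F : ℕ → ℕ, (en (rd M D F) : ℝ) ≤ K * M →
      ((rd M D F).card : ℝ) ^ 4 ≤ 2 * M * (K * M) := by
    intro F hKF
    refine (card_four_le _ M fun a ha => rd_lt hM ha).trans ?_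
    exact mul_le_mul_of_nonneg_left hKF (by positivity)
  have hF4 := hfour F hKF
  have hG4 := hfour G hKG
  have hl2 : 0 ≤ Real.log (2 * K) := Real.log_nonneg (by linarith)
  set Λ := 2 * h * Real.log Q + Real.log (2 * K) with hΛ
  have hlogM : Real.log M ≤ h * Real.log Q + Real.log D := by
    have h1 := Real.log_le_log hMr hMDr
    rw [Real.log_mul (by positivity) hDr.ne', Real.log_pow] at h1
    exact h1
  have hphi : ∑ z ∈ Finset.range D, phiD (mw g W) (dw g h W) F G L z ≤ D * Λ := by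
    refine (phiD_sum_le hg hQg hs L).trans ?_
    refine mul_le_mul_of_nonneg_left ?_ hDr.le
    have q1 := log_four (hpos F) hMr hK0 hF4
    have q2 := log_four (hpos G) hMr hK0 hG4
    rw [hΛ]
    linarith
  have hcB : ∀ l a b, cw g h W l * d2 (mw g W) (dw g h W) F G l a b ≤ B := fun l a b =>
    Nat.mul_le_mul (rr_le hQg _ _) (d2_le hg hQg hs l a b)
  have hen := energyD hRad hRadD hF hG hcB L
  have hN : (∑ z ∈ Finset.range D, NND B (mw g W) (dw g h W) (gw g W) (cw g h W) F G L z) / D ≤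
      100 * (B : ℝ) ^ 4 * Λ := by
    rw [div_le_iff₀ hDr]
    have h1 := hen.trans hphi
    rw [one_div, inv_mul_le_iff₀ (by positivity)] at h1
    linarith
  have hlow : D * Real.exp (-(C * Λ)) ≤ ∑ z ∈ Finset.range D,
      Real.exp (-(l * NND B (mw g W) (dw g h W) (gw g W) (cw g h W) F G L z)) := by
    refine le_trans ?_ (exp_sum_ge
      (fun z => NND B (mw g W) (dw g h W) (gw g W) (cw g h W) F G L z) hD l)
    refine mul_le_mul_of_nonneg_left ?_ hDr.le
    rw [Real.exp_le_exp]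
    have := mul_le_mul_of_nonneg_left hN hl
    rw [hC]
    linarith
  have hcl : ∀ F : ℕ → ℕ, (en (rd M D F) : ℝ) ≤ K * M → ∀ T ∈ seqs (gw g W) L,
      rrC v B g h w F L T ^ 4 ≤
        K * M * ∏ j : Fin L, EE v (gw g W j) (DD g h w (W * j) (T j)) := by
    intro F hKF T _
    classical
    unfold rrC
    refine (class_four hRad hv.le hv1 L (DS g h w T) _ fun a ha => ?_).trans ?_
    · exact rd_lt hM (Finset.mem_filter.1 ha).1
    · refine mul_le_mul_of_nonneg_right ?_ (Finset.prod_nonneg fun j _ => EE_nonneg hv.le _ _)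
      refine le_trans ?_ hKF
      exact_mod_cast en_mono (Finset.filter_subset _ _)
  have hprod : ∏ j : Fin L, (r4 (gw g W j : ℝ) * (1 / 2)) = r4 (M : ℝ) * θ ^ L :=
    prod_r4 hRad θ L
  have hup : ∑ z ∈ Finset.range D,
      Real.exp (-(l * NND B (mw g W) (dw g h W) (gw g W) (cw g h W) F G L z)) ≤
      (Q : ℝ) ^ h * (r4 (K * M) * (r4 M * θ ^ L) * r4 (2 * M * (K * M))) := by
    calc ∑ z ∈ Finset.range D,
          Real.exp (-(l * NND B (mw g W) (dw g h W) (gw g W) (cw g h W) F G L z))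
        ≤ ∑ z ∈ Finset.range D, pwC v B g h w F G L (F z % M) (G z % M) :=
          Finset.sum_le_sum fun z _ => exp_NND_le hg hs hv hv1 L z
      _ ≤ (Q : ℝ) ^ h * ∑ a ∈ rd M D F, ∑ b ∈ rd M D G, pwC v B g h w F G L a b :=
          pair_sumC hg hQg hs L (fun a b => pwC v B g h w F G L a b)
            fun a b => pwC_nonneg hv.le _ _ _ _ _ _ _ _ _
      _ = (Q : ℝ) ^ h * ∑ S ∈ seqs (gw g W) L, ∑ T ∈ seqs (gw g W) L,
          (∏ j : Fin L, rh v (rlw g h w j) (S j) (T j)) *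
          (rrC v B g h w F L S * rrC v B g h w G L T) := by rw [← groupC v L]
      _ ≤ (Q : ℝ) ^ h * (r4 (K * M) *
          (∏ j : Fin L, (r4 (gw g W j : ℝ) * (1 / 2))) * r4 (2 * M * (K * M))) := by
          refine mul_le_mul_of_nonneg_left ?_ (by positivity)
          exact schur5 (gw g W) (fun j => rlw g h w j) (fun j X => DD g h w (W * j) X)
            (fun j => hw g hg hQg (W * j)) (fun j => rr_le hQg _ _)
            hv hv2 hC1 hvx hvQ L (rrC v B g h w F L) (rrC v B g h w G L) (K * M)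
            (r4 (2 * M * (K * M))) (by positivity)
            (rrC_nonneg hv.le _ _ _ _ _ _) (rrC_nonneg hv.le _ _ _ _ _ _)
            (hcl F hKF) (hcl G hKG)
            ((rrC_sum hv.le hv1 B g h w F L).trans (le_r4 hF4))
            ((rrC_sum hv.le hv1 B g h w G L).trans (le_r4 hG4))
      _ = _ := by rw [hprod]
  have hQh : (0 : ℝ) < (Q : ℝ) ^ h := by positivity
  have hfin : Real.exp (-(C * Λ)) ≤ ((Q : ℝ) ^ h * (Q : ℝ) ^ h) * (2 * K) * θ ^ L := by
    have h1 := (hlow.trans hup).trans (mul_le_mul_of_nonneg_left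
      (combine hMr hK1 (by positivity : 0 ≤ θ ^ L)) hQh.le)
    have h2 : (Q : ℝ) ^ h * (M * (2 * K * θ ^ L)) ≤
        D * (((Q : ℝ) ^ h * (Q : ℝ) ^ h) * (2 * K) * θ ^ L) := by
      calc (Q : ℝ) ^ h * (M * (2 * K * θ ^ L))
          ≤ (Q : ℝ) ^ h * (((Q : ℝ) ^ h * D) * (2 * K * θ ^ L)) := by gcongr
        _ = _ := by ring
    exact le_of_mul_le_mul_left (h1.trans h2) hDr
  have hlog := Real.log_le_log (Real.exp_pos _) hfin
  rw [Real.log_exp, Real.log_mul (by positivity) (pow_pos hθ0 L).ne',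
    Real.log_mul (by positivity) (mul_pos two_pos hK0).ne', Real.log_mul hQh.ne' hQh.ne',
    Real.log_pow, Real.log_pow] at hlog
  rw [div_mul_eq_mul_div, div_le_iff₀ (by positivity)]
  have h3 : -(C * Λ) ≤ Λ + L * Real.log θ := by
    rw [hΛ] at hlog ⊢
    linarith
  linarith

end Pool.Agent.Helper72.PG
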