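import Pool.Agent.Helper72.PG.Ex
import Pool.Agent.Helper72.PG.Few

/-! Abstract nodes: all pairs of residues of two summands occur. -/

namespace Pool.Agent.Helper72.PG

open Finset

/-- an abstract node -/
structure NodeS (g : ℕ → ℕ) (h i W : ℕ) (U V : Finset ℕ) (E : ℕ → ℕ → Prop) : Prop where
  ne : ∃ u v, E u v
  cl : ∀ u v s, E u v → s ≡ u + v [MOD rr g i h] → ∃ u' v', E u' v' ∧ u' + v' = s
  lip : ∀ k u v u' v', E u v → E u' v' → u + v ≡ u' + v' [MOD rr g i (k + h)] →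
    u ≡ u' [MOD rr g i k] ∧ v ≡ v' [MOD rr g i k]
  sub : ∀ u v, E u v → u % rr g i W ∈ U ∧ v % rr g i W ∈ V
  sur : ∀ u ∈ U, ∀ v ∈ V, ∃ u' v', E u' v' ∧ u' % rr g i W = u ∧ v' % rr g i W = v

variable {g : ℕ → ℕ} {h i W : ℕ} {U V : Finset ℕ} {E : ℕ → ℕ → Prop}

lemma NodeS.symm (H : NodeS g h i W U V E) : NodeS g h i W V U fun v u => E u v := by
  refine ⟨?_, ?_, ?_, ?_, ?_⟩
  · obtain ⟨u, v, h1⟩ := H.ne
    exact ⟨v, u, h1⟩
  · intro v u s h1 h2
    rw [add_comm] at h2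
    obtain ⟨u', v', h3, h4⟩ := H.cl u v s h1 h2
    exact ⟨v', u', h3, by omega⟩
  · intro k v u v' u' h1 h2 h3
    rw [add_comm v u, add_comm v' u'] at h3
    exact (H.lip k u v u' v' h1 h2 h3).symm
  · intro v u h1
    exact (H.sub u v h1).symm
  · intro v hv u hu
    obtain ⟨u', v', h1, h2, h3⟩ := H.sur u hu v hv
    exact ⟨v', u', h1, h3, h2⟩

lemma NodeS.neU (H : NodeS g h i W U V E) : U.Nonempty := by
  obtain ⟨u, v, h1⟩ := H.ne
  exact ⟨_, (H.sub u v h1).1⟩

lemma NodeS.neV (H : NodeS g h i W U V E) : V.Nonempty := H.symm.neU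

lemma NodeS.lt (hg : ∀ j, 2 ≤ g j) (H : NodeS g h i W U V E) {u : ℕ} (hu : u ∈ U) :
    u < rr g i W := by
  obtain ⟨v, hv⟩ := H.neV
  obtain ⟨u', v', _, h2, _⟩ := H.sur u hu v hv
  rw [← h2]
  exact Nat.mod_lt _ (rr_pos hg i W)

lemma NodeS.uniq (hg : ∀ j, 2 ≤ g j) (H : NodeS g h i W U V E) {u v u' v' : ℕ} (h1 : E u v)
    (h2 : E u' v') (he : u + v = u' + v') : u = u' ∧ v = v' := by
  obtain ⟨h3, h4⟩ := H.lip (u + u' + v + v') u v u' v' h1 h2 (by rw [he])
  have h5 := rr_ge hg i (u + u' + v + v')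
  have h6 : u + u' + v + v' < 2 ^ (u + u' + v + v') := Nat.lt_two_pow_self
  constructor
  · exact Nat.ModEq.eq_of_lt_of_lt h3 (by omega) (by omega)
  · exact Nat.ModEq.eq_of_lt_of_lt h4 (by omega) (by omega)

/-- pairs with a small sum are exact -/
lemma NodeS.exact (_ : ∀ j, 2 ≤ g j) (H : NodeS g h i W U V E) (hW : h ≤ W) {u v : ℕ}
    (hu : u ∈ U) (hv : v ∈ V) (hlt : u + v < rr g i (W - h)) : E u v := by
  obtain ⟨u', v', h1, h2, h3⟩ := H.sur u hu v hv
  have e1 : u ≡ u' [MOD rr g i W] := by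
    rw [← h2]
    exact Nat.mod_modEq _ _
  have e2 : v ≡ v' [MOD rr g i W] := by
    rw [← h3]
    exact Nat.mod_modEq _ _
  have e3 : u + v ≡ u' + v' [MOD rr g i W] := Nat.ModEq.add e1 e2
  obtain ⟨a, b, h4, h5⟩ := H.cl u' v' (u + v) h1 (e3.of_dvd (rr_dvd g i hW))
  have e4 : a + b ≡ u' + v' [MOD rr g i (W - h + h)] := by
    rw [Nat.sub_add_cancel hW, h5]
    exact e3
  obtain ⟨h6, h7⟩ := H.lip (W - h) a b u' v' h4 h1 e4
  have e5 : a ≡ u [MOD rr g i (W - h)] := h6.trans (e1.of_dvd (rr_dvd g i (by omega))).symm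
  have e6 : b ≡ v [MOD rr g i (W - h)] := h7.trans (e2.of_dvd (rr_dvd g i (by omega))).symm
  have e7 : a = u := Nat.ModEq.eq_of_lt_of_lt e5 (by omega) (by omega)
  have e8 : b = v := Nat.ModEq.eq_of_lt_of_lt e6 (by omega) (by omega)
  rw [← e7, ← e8]
  exact h4

lemma NodeS.mem (H : NodeS g h i W U V E) {u v : ℕ} (h1 : E u v) (hu : u < rr g i W)
    (hv : v < rr g i W) : u ∈ U ∧ v ∈ V := by
  have h2 := H.sub u v h1
  rwa [Nat.mod_eq_of_lt hu, Nat.mod_eq_of_lt hv] at h2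

/-- the exact pair -/
lemma NodeS.ex (hg : ∀ j, 2 ≤ g j) (H : NodeS g h i W U V E) (hW : h ≤ W) :
    EX U V (fun s => ∃ u v, E u v ∧ u + v = s) (rr g i (W - h)) (rr g i h) := by
  have hle : rr g i (W - h) ≤ rr g i W := rr_mono hg i (by omega)
  refine ⟨fun s => ⟨?_, ?_⟩, fun a ha c hc hlt => ⟨a, c, H.exact hg hW ha hc hlt, rfl⟩, ?_, ?_, ?_⟩
  · rintro ⟨u, v, h1, rfl⟩
    refine H.cl u v _ h1 ?_
    exact (Nat.add_mod_right _ _ : (u + v + rr g i h) % rr g i h = _)
  · rintro ⟨u, v, h1, h2⟩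
    refine H.cl u v _ h1 ?_
    rw [h2]
    exact (Nat.add_mod_right _ _ : (s + rr g i h) % rr g i h = _).symm
  · rintro s hs ⟨u, v, h1, h2⟩
    obtain ⟨h3, h4⟩ := H.mem h1 (by omega) (by omega)
    exact ⟨u, h3, v, h4, h2⟩
  · intro a ha c hc a' ha' c' hc' hlt he
    exact H.uniq hg (H.exact hg hW ha hc hlt) (H.exact hg hW ha' hc' (by omega)) he
  · obtain ⟨u, v, h1⟩ := H.ne
    refine ⟨(u + v) % rr g i h, Nat.mod_lt _ (rr_pos hg i h), ?_⟩
    exact H.cl u v _ h1 (Nat.mod_modEq _ _)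

/-- every residue has a small representative -/
lemma NodeS.rep (hg : ∀ j, 2 ≤ g j) (H : NodeS g h i W U V E) {w : ℕ} (hw : w + h ≤ W) {a : ℕ}
    (ha : a ∈ im (rr g i w) U) : ∃ u ∈ U, u < rr g i (w + h) ∧ u % rr g i w = a := by
  rw [mem_im] at ha
  obtain ⟨x, hx, rfl⟩ := ha
  obtain ⟨v, hv⟩ := H.neV
  obtain ⟨u', v', h1, h2, _⟩ := H.sur x hx v hv
  have hpos := rr_pos hg i (w + h)
  have e1 : (u' + v') % rr g i (w + h) ≡ u' + v' [MOD rr g i (w + h)] := Nat.mod_modEq _ _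
  obtain ⟨a, b, h4, h5⟩ := H.cl u' v' _ h1 (e1.of_dvd (rr_dvd g i (Nat.le_add_left _ _)))
  have hlt : (u' + v') % rr g i (w + h) < rr g i (w + h) := Nat.mod_lt _ hpos
  have hle : rr g i (w + h) ≤ rr g i W := rr_mono hg i hw
  obtain ⟨h6, _⟩ := H.lip w a b u' v' h4 h1 (by rw [h5]; exact e1)
  refine ⟨a, (H.mem h4 (by omega) (by omega)).1, by omega, ?_⟩
  have e2 : a % rr g i w = u' % rr g i w := h6
  rw [e2, ← h2, Nat.mod_mod_of_dvd u' (rr_dvd g i (by omega))]

/-- nodes inside of a node -/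
lemma NodeS.node (hg : ∀ j, 2 ≤ g j) (H : NodeS g h i W U V E) {k : ℕ} (hk : k ≤ W) {a b : ℕ}
    (ha : a ∈ im (rr g i k) U) (hb : b ∈ im (rr g i k) V) :
    NodeS g h (i + k) (W - k) (sb (rr g i k) U a) (sb (rr g i k) V b)
      fun u v => E (a + rr g i k * u) (b + rr g i k * v) := by
  set R := rr g i k with hR
  have hR0 : 0 < R := rr_pos hg i k
  have ha' := im_lt hR0 ha
  have hb' := im_lt hR0 hb
  have hN : rr g i W = R * rr g (i + k) (W - k) := by
    rw [hR, ← rr_add, Nat.add_sub_cancel' hk]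
  have hRh : ∀ l, rr g i (k + l) = R * rr g (i + k) l := fun l => by rw [hR, rr_add]
  have hmod : ∀ c < R, ∀ x, (c + R * x) % rr g i W = c + R * (x % rr g (i + k) (W - k)) := by
    intro c hc x
    rw [hN]
    have h1 := Nat.mod_add_div x (rr g (i + k) (W - k))
    have h2 : c + R * x = c + R * (x % rr g (i + k) (W - k)) +
        R * rr g (i + k) (W - k) * (x / rr g (i + k) (W - k)) := by
      conv_lhs => rw [← h1]
      ring
    rw [h2, Nat.add_mul_mod_self_left]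
    refine Nat.mod_eq_of_lt ?_
    have h3 := Nat.mod_lt x (rr_pos hg (i + k) (W - k))
    calc c + R * (x % rr g (i + k) (W - k)) < R + R * (x % rr g (i + k) (W - k)) := by omega
      _ = R * (x % rr g (i + k) (W - k) + 1) := by ring
      _ ≤ _ := Nat.mul_le_mul_left _ h3
  have hform : ∀ c < R, ∀ x, x ≡ c [MOD R] → ∃ y, x = c + R * y := by
    intro c hc x hx
    refine ⟨x / R, ?_⟩
    have h1 := Nat.mod_add_div x R
    have h2 : x % R = c := by
      have h3 : x % R = c % R := hx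
      rw [h3, Nat.mod_eq_of_lt hc]
    rw [h2] at h1
    exact h1.symm
  refine ⟨?_, ?_, ?_, ?_, ?_⟩
  · obtain ⟨x, hx⟩ := sb_ne ha
    obtain ⟨y, hy⟩ := sb_ne hb
    rw [mem_sb hR0 ha'] at hx
    rw [mem_sb hR0 hb'] at hy
    obtain ⟨u, v, h1, h2, h3⟩ := H.sur _ hx _ hy
    have e1 : u ≡ a [MOD R] := by
      have e2 : a + R * x ≡ u [MOD rr g i W] := by rw [← h2]; exact Nat.mod_modEq _ _
      have e3 : a + R * x ≡ a [MOD R] := Nat.add_mul_mod_self_left _ _ _
      exact (e2.of_dvd (by rw [hN]; exact Dvd.intro _ rfl)).symm.trans e3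
    have e1' : v ≡ b [MOD R] := by
      have e2 : b + R * y ≡ v [MOD rr g i W] := by rw [← h3]; exact Nat.mod_modEq _ _
      have e3 : b + R * y ≡ b [MOD R] := Nat.add_mul_mod_self_left _ _ _
      exact (e2.of_dvd (by rw [hN]; exact Dvd.intro _ rfl)).symm.trans e3
    obtain ⟨u', rfl⟩ := hform a ha' u e1
    obtain ⟨v', rfl⟩ := hform b hb' v e1'
    exact ⟨u', v', h1⟩
  · intro u v s h1 h2
    have e1 : a + b + R * s ≡ (a + R * u) + (b + R * v) [MOD rr g i (k + h)] := by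
      rw [hRh, show (a + R * u) + (b + R * v) = a + b + R * (u + v) by ring]
      exact Nat.ModEq.add_left _ (Nat.ModEq.mul_left' _ h2)
    obtain ⟨u', v', h3, h4⟩ := H.cl _ _ (a + b + R * s) h1
      (e1.of_dvd (rr_dvd g i (Nat.le_add_left _ _)))
    obtain ⟨h5, h6⟩ := H.lip k u' v' _ _ h3 h1 (by rw [h4]; exact e1)
    have e2 : u' ≡ a [MOD R] := h5.trans (Nat.add_mul_mod_self_left _ _ _)
    have e3 : v' ≡ b [MOD R] := h6.trans (Nat.add_mul_mod_self_left _ _ _)
    obtain ⟨x, rfl⟩ := hform a ha' u' e2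
    obtain ⟨y, rfl⟩ := hform b hb' v' e3
    refine ⟨x, y, h3, ?_⟩
    have h7 : R * (x + y) = R * s := by
      have : a + R * x + (b + R * y) = a + b + R * (x + y) := by ring
      omega
    exact Nat.eq_of_mul_eq_mul_left hR0 h7
  · intro l u v u' v' h1 h2 h3
    have e1 : (a + R * u) + (b + R * v) ≡ (a + R * u') + (b + R * v') [MOD rr g i (k + l + h)] := by
      rw [add_assoc k l h, hRh, show (a + R * u) + (b + R * v) = a + b + R * (u + v) by ring,
        show (a + R * u') + (b + R * v') = a + b + R * (u' + v') by ring]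
      exact Nat.ModEq.add_left _ (Nat.ModEq.mul_left' _ h3)
    obtain ⟨h4, h5⟩ := H.lip (k + l) _ _ _ _ h1 h2 e1
    rw [hRh] at h4 h5
    exact ⟨Nat.ModEq.mul_left_cancel' hR0.ne' (Nat.ModEq.add_left_cancel' a h4),
      Nat.ModEq.mul_left_cancel' hR0.ne' (Nat.ModEq.add_left_cancel' b h5)⟩
  · intro u v h1
    obtain ⟨h2, h3⟩ := H.sub _ _ h1
    rw [hmod a ha'] at h2
    rw [hmod b hb'] at h3
    exact ⟨(mem_sb hR0 ha').2 h2, (mem_sb hR0 hb').2 h3⟩
  · intro u hu v hv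
    rw [mem_sb hR0 ha'] at hu
    rw [mem_sb hR0 hb'] at hv
    obtain ⟨u', v', h1, h2, h3⟩ := H.sur _ hu _ hv
    have hult : ∀ c < R, ∀ x y, c + R * y < rr g i W → x % rr g i W = c + R * y →
        ∃ z, x = c + R * z ∧ z % rr g (i + k) (W - k) = y := by
      intro c hc x y hlt hx
      refine ⟨y + rr g (i + k) (W - k) * (x / rr g i W), ?_, ?_⟩
      · have h4 := Nat.mod_add_div x (rr g i W)
        rw [hx] at h4
        conv_lhs => rw [← h4]
        conv_lhs => rw [hN]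
        rw [hN]
        ring
      · rw [Nat.add_mul_mod_self_left]
        refine Nat.mod_eq_of_lt ?_
        rw [hN] at hlt
        exact Nat.lt_of_mul_lt_mul_left ((Nat.le_add_left _ _).trans_lt hlt)
    obtain ⟨x, rfl, hx2⟩ := hult a ha' u' u (H.lt hg hu) h2
    obtain ⟨y, rfl, hy2⟩ := hult b hb' v' v (H.symm.lt hg hv) h3
    exact ⟨x, y, h1, hx2, hy2⟩

/-- the number of pairs of residues, from above -/
lemma NodeS.count_up (hg : ∀ j, 2 ≤ g j) (H : NodeS g h i W U V E) {l : ℕ} (hl : l ≤ W) :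
    (im (rr g i l) U).card * (im (rr g i l) V).card ≤ rr g i (l + h) := by
  classical
  rw [← Finset.card_product]
  have hex : ∀ p : ℕ × ℕ, ∃ q : ℕ × ℕ, p ∈ im (rr g i l) U ×ˢ im (rr g i l) V →
      E q.1 q.2 ∧ q.1 % rr g i l = p.1 ∧ q.2 % rr g i l = p.2 := by
    intro p
    by_cases hp : p ∈ im (rr g i l) U ×ˢ im (rr g i l) V
    · have hp' := Finset.mem_product.1 hp
      rw [mem_im, mem_im] at hp'
      obtain ⟨⟨x, hx, h1⟩, y, hy, h2⟩ := hp'
      obtain ⟨u, v, h3, h4, h5⟩ := H.sur x hx y hy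
      refine ⟨(u, v), fun _ => ⟨h3, ?_, ?_⟩⟩
      · simp only
        rw [← h1, ← h4, Nat.mod_mod_of_dvd u (rr_dvd g i hl)]
      · simp only
        rw [← h2, ← h5, Nat.mod_mod_of_dvd v (rr_dvd g i hl)]
    · exact ⟨(0, 0), fun hh => absurd hh hp⟩
  choose q hq using hex
  calc (im (rr g i l) U ×ˢ im (rr g i l) V).card
      ≤ (Finset.range (rr g i (l + h))).card := by
        refine Finset.card_le_card_of_injOn (fun p => ((q p).1 + (q p).2) % rr g i (l + h)) ?_ ?_
        · intro p _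
          rw [Finset.mem_coe, Finset.mem_range]
          exact Nat.mod_lt _ (rr_pos hg i (l + h))
        · intro p hp p' hp' hpp
          rw [Finset.mem_coe] at hp hp'
          obtain ⟨h1, h2, h3⟩ := hq p hp
          obtain ⟨h1', h2', h3'⟩ := hq p' hp'
          obtain ⟨h4, h5⟩ := H.lip l _ _ _ _ h1 h1' hpp
          refine Prod.ext ?_ ?_
          · rw [← h2, ← h2']
            exact h4
          · rw [← h3, ← h3']
            exact h5
    _ = _ := Finset.card_range _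

/-- the number of pairs of residues, from below -/
lemma NodeS.count_low (hg : ∀ j, 2 ≤ g j) (H : NodeS g h i W U V E) {l : ℕ} (hl : l ≤ W) :
    rr g i l ≤ rr g i h * ((im (rr g i l) U).card * (im (rr g i l) V).card) := by
  classical
  have hUne : (im (rr g i l) U).Nonempty := by
    obtain ⟨u, hu⟩ := H.neU
    exact ⟨_, mem_im.2 ⟨u, hu, rfl⟩⟩
  have hVne : (im (rr g i l) V).Nonempty := by
    obtain ⟨u, hu⟩ := H.neV
    exact ⟨_, mem_im.2 ⟨u, hu, rfl⟩⟩
  have hU1 := Finset.card_pos.2 hUne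
  have hV1 := Finset.card_pos.2 hVne
  rcases Nat.lt_or_ge l h with hlh | hlh
  · have h1 : rr g i l ≤ rr g i h := rr_mono hg i hlh.le
    exact h1.trans (Nat.le_mul_of_pos_right _ (Nat.mul_pos hU1 hV1))
  · have hh : rr g i l = rr g i h * rr g (i + h) (l - h) := by
      rw [← rr_add, Nat.add_sub_cancel' hlh]
    rw [hh]
    refine Nat.mul_le_mul_left _ ?_
    rw [← Finset.card_product]
    obtain ⟨u₀, v₀, h0⟩ := H.ne
    set e := (u₀ + v₀) % rr g i h with he
    have hePlt : e < rr g i h := Nat.mod_lt _ (rr_pos hg i h)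
    have hex : ∀ t, ∃ q : ℕ × ℕ, E q.1 q.2 ∧ q.1 + q.2 = e + rr g i h * t := by
      intro t
      have h1 : e + rr g i h * t ≡ u₀ + v₀ [MOD rr g i h] := by
        have h2 : e + rr g i h * t ≡ e [MOD rr g i h] := Nat.add_mul_mod_self_left _ _ _
        exact h2.trans (Nat.mod_modEq _ _)
      obtain ⟨u, v, h3, h4⟩ := H.cl u₀ v₀ _ h0 h1
      exact ⟨(u, v), h3, h4⟩
    choose q hq using hex
    have hlt : ∀ t < rr g (i + h) (l - h), e + rr g i h * t < rr g i l := by
      intro t ht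
      rw [hh]
      calc e + rr g i h * t < rr g i h + rr g i h * t := by omega
        _ = rr g i h * (t + 1) := by ring
        _ ≤ _ := Nat.mul_le_mul_left _ ht
    have hlW : rr g i l ≤ rr g i W := rr_mono hg i hl
    calc rr g (i + h) (l - h) = (Finset.range (rr g (i + h) (l - h))).card :=
          (Finset.card_range _).symm
      _ ≤ _ := by
        refine Finset.card_le_card_of_injOn q ?_ ?_
        · intro t ht
          rw [Finset.mem_coe, Finset.mem_range] at ht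
          obtain ⟨h1, h2⟩ := hq t
          have h3 := hlt t ht
          obtain ⟨h4, h5⟩ := H.mem h1 (by omega) (by omega)
          rw [Finset.mem_coe, Finset.mem_product]
          exact ⟨mem_im.2 ⟨_, h4, Nat.mod_eq_of_lt (by omega)⟩,
            mem_im.2 ⟨_, h5, Nat.mod_eq_of_lt (by omega)⟩⟩
        · intro t _ t' _ htt
          have h1 := (hq t).2
          have h2 := (hq t').2
          rw [htt, h2] at h1
          have h3 : rr g i h * t' = rr g i h * t := by omega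
          exact (Nat.eq_of_mul_eq_mul_left (rr_pos hg i h) h3).symm

end Pool.Agent.Helper72.PG
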