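import Pool.Agent.Helper72.PG.Base

/-! The Schur test for a relation with boundedly many partners and few sums. -/

namespace Pool.Agent.Helper72.PG

open Finset Pool.Agent.Helper72.PW Pool.Agent.Helper72.PL

/-- a relation of codes of digit sets -/
structure GRel (g : ℕ) (rl : Finset ℕ → Finset ℕ → Prop) (D : Finset ℕ → Finset ℕ) (C : ℕ)
    (ζ : ℝ) : Prop where
  symm : ∀ {X Y}, rl X Y → rl Y X
  few : ∀ X, ∀ S : Finset (Finset ℕ), (∀ Y ∈ S, rl X Y) → S.card ≤ C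
  mul : ∀ {X Y}, rl X Y → ((sums (D X)).card : ℝ) * (sums (D Y)).card ≤ ζ * (g : ℝ) ^ 2
  sub : ∀ X, D X ⊆ Finset.range g

lemma rh_comm5 {g C : ℕ} {rl : Finset ℕ → Finset ℕ → Prop} {D : Finset ℕ → Finset ℕ} {ζ : ℝ}
    (hr : GRel g rl D C ζ) (w : ℝ) (X Y : Finset ℕ) : rh w rl X Y = rh w rl Y X := by
  unfold rh
  by_cases h : rl X Y
  · rw [if_pos h, if_pos (hr.symm h)]
  · rw [if_neg h, if_neg fun h' => h (hr.symm h')]

lemma e8_pow {w : ℝ} (hw : 0 ≤ w) (g : ℕ) (X : Finset ℕ) : e8 w g X ^ 8 = EE w g X := by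
  unfold e8 ee
  calc √(√(√(EE w g X))) ^ 8 = ((√(√(√(EE w g X))) ^ 2) ^ 2) ^ 2 := by ring
    _ = EE w g X := by
        rw [Real.sq_sqrt (Real.sqrt_nonneg _), Real.sq_sqrt (Real.sqrt_nonneg _),
          Real.sq_sqrt (EE_nonneg hw g X)]

lemma r4_pow (g : ℕ) : r4 (g : ℝ) ^ 4 = g := by
  unfold r4
  calc √(√(g : ℝ)) ^ 4 = (√(√(g : ℝ)) ^ 2) ^ 2 := by ring
    _ = (g : ℝ) := by rw [Real.sq_sqrt (Real.sqrt_nonneg _), Real.sq_sqrt (Nat.cast_nonneg _)]

/-- the local test -/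
lemma local5 {Q C g : ℕ} {rl : Finset ℕ → Finset ℕ → Prop} {D : Finset ℕ → Finset ℕ} {ζ : ℝ}
    (hr : GRel g rl D C ζ) (hgQ : g ≤ Q) {w : ℝ} (hw : 0 < w) (hw2 : w ≤ 1 / 2) (hC : 1 ≤ C)
    (hζ : ζ + 12 * w ≤ (1 / (4 * (C : ℝ))) ^ 8) (hw1 : w * (7 * 2 ^ Q) ≤ 1)
    {X : Finset ℕ} (_ : X ⊆ Finset.range g) :
    ∑ Y ∈ (Finset.range g).powerset, rh w rl X Y * (e8 w g (D X) * e8 w g (D Y)) ≤
      r4 (g : ℝ) * (1 / 2) := by
  classical
  have hr40 := r4_nonneg (g : ℝ)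
  have hg0 : (0 : ℝ) ≤ g := Nat.cast_nonneg _
  have hC0 : (0 : ℝ) < C := by exact_mod_cast hC
  have hsev : √(7 / 4 : ℝ) ≤ 7 / 4 := by
    rw [Real.sqrt_le_left (by norm_num)]
    norm_num
  rw [← Finset.sum_filter_add_sum_filter_not _ (fun Y => rl X Y)]
  have hA : ∑ Y ∈ (Finset.range g).powerset.filter (fun Y => rl X Y),
      rh w rl X Y * (e8 w g (D X) * e8 w g (D Y)) ≤ r4 (g : ℝ) * (1 / 4) := by
    calc ∑ Y ∈ (Finset.range g).powerset.filter (fun Y => rl X Y),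
          rh w rl X Y * (e8 w g (D X) * e8 w g (D Y))
        ≤ ∑ _Y ∈ (Finset.range g).powerset.filter (fun Y => rl X Y),
          r4 (g : ℝ) * (1 / (4 * (C : ℝ))) := by
          refine Finset.sum_le_sum fun Y hY => ?_
          rw [Finset.mem_filter] at hY
          unfold rh
          rw [if_pos hY.2, one_mul]
          have h0 : 0 ≤ r4 (g : ℝ) * (1 / (4 * (C : ℝ))) := by positivity
          refine le_of_pow_le_pow_left₀ (n := 8) (by norm_num) h0 ?_
          rw [mul_pow, e8_pow hw.le, e8_pow hw.le, mul_pow]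
          have h1 : r4 (g : ℝ) ^ 8 = (g : ℝ) ^ 2 := by
            calc r4 (g : ℝ) ^ 8 = (r4 (g : ℝ) ^ 4) ^ 2 := by ring
              _ = _ := by rw [r4_pow]
          rw [h1]
          have h2 := hr.mul hY.2
          have h3 : ((sums (D X)).card : ℝ) ≤ 2 * g := by exact_mod_cast card_sums_range (hr.sub X)
          have h4 : ((sums (D Y)).card : ℝ) ≤ 2 * g := by exact_mod_cast card_sums_range (hr.sub Y)
          unfold EE
          set s := ((sums (D X)).card : ℝ)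
          set s' := ((sums (D Y)).card : ℝ)
          have e1 : (s + 2 * g * w) * (s' + 2 * g * w) =
              s * s' + 2 * g * w * (s + s') + 4 * g ^ 2 * w * w := by ring
          rw [e1]
          have e2 : 2 * (g : ℝ) * w * (s + s') ≤ 2 * g * w * (4 * g) := by
            have : s + s' ≤ 4 * g := by linarith
            gcongr
          have e3 : 4 * (g : ℝ) ^ 2 * w * w ≤ 4 * g ^ 2 * w * 1 := by
            gcongr
            linarith
          have e4 := mul_le_mul_of_nonneg_left hζ (sq_nonneg (g : ℝ))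
          nlinarith
      _ = (((Finset.range g).powerset.filter (fun Y => rl X Y)).card : ℝ) *
          (r4 (g : ℝ) * (1 / (4 * (C : ℝ)))) := by
          rw [Finset.sum_const, nsmul_eq_mul]
      _ ≤ C * (r4 (g : ℝ) * (1 / (4 * (C : ℝ)))) := by
          have h1 := hr.few X ((Finset.range g).powerset.filter (fun Y => rl X Y))
            fun Y hY => (Finset.mem_filter.1 hY).2
          have h2 : ((((Finset.range g).powerset.filter (fun Y => rl X Y)).card : ℕ) : ℝ) ≤ C := by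
            exact_mod_cast h1
          exact mul_le_mul_of_nonneg_right h2 (by positivity)
      _ = _ := by field_simp
  have hB : ∑ Y ∈ (Finset.range g).powerset.filter (fun Y => ¬ rl X Y),
      rh w rl X Y * (e8 w g (D X) * e8 w g (D Y)) ≤ 2 ^ Q * (w * (r4 (g : ℝ) * (7 / 4))) := by
    calc ∑ Y ∈ (Finset.range g).powerset.filter (fun Y => ¬ rl X Y),
          rh w rl X Y * (e8 w g (D X) * e8 w g (D Y))
        ≤ ∑ Y ∈ (Finset.range g).powerset.filter (fun Y => ¬ rl X Y),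
          w * (r4 (g : ℝ) * (7 / 4)) := by
          refine Finset.sum_le_sum fun Y hY => ?_
          rw [Finset.mem_filter, Finset.mem_powerset] at hY
          unfold rh
          rw [if_neg hY.2, e8_mul]
          have h2 := ee_any hw hw2 (hr.sub X) (hr.sub Y)
          refine mul_le_mul_of_nonneg_left ?_ hw.le
          calc √(ee w g (D X) * ee w g (D Y)) ≤ √(√(g : ℝ) * (7 / 4)) := Real.sqrt_le_sqrt h2
            _ = r4 (g : ℝ) * √(7 / 4) := by
                rw [Real.sqrt_mul (Real.sqrt_nonneg _)]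
                rfl
            _ ≤ _ := mul_le_mul_of_nonneg_left hsev hr40
      _ = (((Finset.range g).powerset.filter (fun Y => ¬ rl X Y)).card : ℝ) *
          (w * (r4 (g : ℝ) * (7 / 4))) := by
          rw [Finset.sum_const, nsmul_eq_mul]
      _ ≤ 2 ^ Q * (w * (r4 (g : ℝ) * (7 / 4))) := by
          have h1 : ((Finset.range g).powerset.filter (fun Y => ¬ rl X Y)).card ≤ 2 ^ Q := by
            refine (Finset.card_filter_le _ _).trans ?_
            rw [Finset.card_powerset, Finset.card_range]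
            exact Nat.pow_le_pow_right (by norm_num) hgQ
          have h2 : ((((Finset.range g).powerset.filter
              (fun Y => ¬ rl X Y)).card : ℕ) : ℝ) ≤ 2 ^ Q := by exact_mod_cast h1
          have h3 : 0 ≤ w * (r4 (g : ℝ) * (7 / 4)) := by positivity
          exact mul_le_mul_of_nonneg_right h2 h3
  have hCC : 2 ^ Q * (w * (r4 (g : ℝ) * (7 / 4))) ≤ r4 (g : ℝ) * (1 / 4) := by
    calc 2 ^ Q * (w * (r4 (g : ℝ) * (7 / 4))) = r4 (g : ℝ) * (1 / 4) * (w * (7 * 2 ^ Q)) := by ring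
      _ ≤ r4 (g : ℝ) * (1 / 4) * 1 := mul_le_mul_of_nonneg_left hw1 (by positivity)
      _ = _ := mul_one _
  linarith

/-- the kernel -/
lemma kernel5 {Q C : ℕ} (g : ℕ → ℕ) (rl : ℕ → Finset ℕ → Finset ℕ → Prop)
    (D : ℕ → Finset ℕ → Finset ℕ) {ζ : ℝ}
    (hr : ∀ j, GRel (g j) (rl j) (D j) C ζ) (hg : ∀ j, g j ≤ Q) {w : ℝ} (hw : 0 < w)
    (hw2 : w ≤ 1 / 2) (hC : 1 ≤ C) (hζ : ζ + 12 * w ≤ (1 / (4 * (C : ℝ))) ^ 8)
    (hw1 : w * (7 * 2 ^ Q) ≤ 1) (J : ℕ) {G : Fin J → Finset ℕ}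
    (hG : G ∈ seqs g J) :
    ∑ H ∈ seqs g J, ∏ j : Fin J, (rh w (rl j) (G j) (H j) *
        (e8 w (g j) (D j (G j)) * e8 w (g j) (D j (H j))))
      ≤ ∏ j : Fin J, (r4 (g j : ℝ) * (1 / 2)) := by
  unfold seqs
  rw [← Finset.prod_univ_sum (fun j : Fin J => (Finset.range (g j)).powerset)
    (fun j Y => rh w (rl j) (G j) Y * (e8 w (g j) (D j (G j)) * e8 w (g j) (D j Y)))]
  refine Finset.prod_le_prod (fun j _ => Finset.sum_nonneg fun Y _ => ?_) fun j _ => ?_
  · exact mul_nonneg (rh_nonneg hw.le _ _ _) (mul_nonneg (e8_nonneg _ _ _) (e8_nonneg _ _ _))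
  · exact local5 (hr j) (hg j) hw hw2 hC hζ hw1 (mem_seqs.1 hG j)

/-- The Schur test. -/
theorem schur5 {Q C : ℕ} (g : ℕ → ℕ) (rl : ℕ → Finset ℕ → Finset ℕ → Prop)
    (D : ℕ → Finset ℕ → Finset ℕ) {ζ : ℝ}
    (hr : ∀ j, GRel (g j) (rl j) (D j) C ζ) (hg : ∀ j, g j ≤ Q) {w : ℝ} (hw : 0 < w)
    (hw2 : w ≤ 1 / 2) (hC : 1 ≤ C) (hζ : ζ + 12 * w ≤ (1 / (4 * (C : ℝ))) ^ 8)
    (hw1 : w * (7 * 2 ^ Q) ≤ 1) (J : ℕ) (r b : (Fin J → Finset ℕ) → ℝ) (R Y : ℝ)
    (hR : 0 ≤ R) (hr0 : ∀ G, 0 ≤ r G) (hb0 : ∀ G, 0 ≤ b G)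
    (hrr : ∀ G ∈ seqs g J, r G ^ 4 ≤ R * ∏ j : Fin J, EE w (g j) (D j (G j)))
    (hb : ∀ G ∈ seqs g J, b G ^ 4 ≤ R * ∏ j : Fin J, EE w (g j) (D j (G j)))
    (hrY : ∑ G ∈ seqs g J, r G ≤ Y) (hbY : ∑ G ∈ seqs g J, b G ≤ Y) :
    ∑ G ∈ seqs g J, ∑ H ∈ seqs g J, (∏ j : Fin J, rh w (rl j) (G j) (H j)) * (r G * b H) ≤
      r4 R * (∏ j : Fin J, (r4 (g j : ℝ) * (1 / 2))) * Y := by
  set κ := ∏ j : Fin J, (r4 (g j : ℝ) * (1 / 2)) with hκ
  have hroot : ∀ c : (Fin J → Finset ℕ) → ℝ, (∀ G, 0 ≤ c G) →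
      (∀ G ∈ seqs g J, c G ^ 4 ≤ R * ∏ j : Fin J, EE w (g j) (D j (G j))) →
      ∀ G ∈ seqs g J, √(c G) ≤ √(r4 R) * ∏ j : Fin J, e8 w (g j) (D j (G j)) := by
    intro c hc0 hc G hG
    have h1 : c G ^ 2 ≤ √R * ∏ j : Fin J, √(EE w (g j) (D j (G j))) := by
      have h2 : √R * ∏ j : Fin J, √(EE w (g j) (D j (G j))) =
          √(R * ∏ j : Fin J, EE w (g j) (D j (G j))) := by
        rw [Real.sqrt_mul hR, Real.sqrt_prod _ fun j _ => EE_nonneg hw.le _ _]
      rw [h2]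
      refine Real.le_sqrt_of_sq_le ?_
      calc (c G ^ 2) ^ 2 = c G ^ 4 := by ring
        _ ≤ _ := hc G hG
    have h2 : c G ≤ r4 R * ∏ j : Fin J, ee w (g j) (D j (G j)) := by
      have h3 : r4 R * ∏ j : Fin J, ee w (g j) (D j (G j)) =
          √(√R * ∏ j : Fin J, √(EE w (g j) (D j (G j)))) := by
        rw [Real.sqrt_mul (Real.sqrt_nonneg _), Real.sqrt_prod _ fun j _ => Real.sqrt_nonneg _]
        rfl
      rw [h3]
      exact Real.le_sqrt_of_sq_le h1
    have h3 : √(r4 R) * ∏ j : Fin J, e8 w (g j) (D j (G j)) =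
        √(r4 R * ∏ j : Fin J, ee w (g j) (D j (G j))) := by
      rw [Real.sqrt_mul (r4_nonneg _), Real.sqrt_prod _ fun j _ => ee_nonneg _ _ _]
      rfl
    rw [h3]
    exact Real.sqrt_le_sqrt h2
  have hterm : ∀ G ∈ seqs g J, ∀ H ∈ seqs g J,
      (∏ j : Fin J, rh w (rl j) (G j) (H j)) * (r G * b H) ≤
        r4 R * (∏ j : Fin J, (rh w (rl j) (G j) (H j) *
          (e8 w (g j) (D j (G j)) * e8 w (g j) (D j (H j))))) * ((r G + b H) / 2) := by
    intro G hG H hH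
    have h1 := hroot r hr0 hrr G hG
    have h2 := hroot b hb0 hb H hH
    have h3 : r G * b H = (√(r G) * √(b H)) * (√(r G) * √(b H)) := by
      have e1 := Real.mul_self_sqrt (hr0 G)
      have e2 := Real.mul_self_sqrt (hb0 H)
      calc r G * b H = (√(r G) * √(r G)) * (√(b H) * √(b H)) := by rw [e1, e2]
        _ = _ := by ring
    have h4 : √(r G) * √(b H) ≤ (r G + b H) / 2 := by
      have e1 := Real.sq_sqrt (hr0 G)
      have e2 := Real.sq_sqrt (hb0 H)
      nlinarith [sq_nonneg (√(r G) - √(b H))]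
    have h5 : √(r G) * √(b H) ≤
        r4 R * ∏ j : Fin J, (e8 w (g j) (D j (G j)) * e8 w (g j) (D j (H j))) := by
      rw [Finset.prod_mul_distrib]
      have e1 : √(r4 R) * √(r4 R) = r4 R := Real.mul_self_sqrt (r4_nonneg _)
      have e2 : 0 ≤ ∏ j : Fin J, e8 w (g j) (D j (G j)) :=
        Finset.prod_nonneg fun j _ => e8_nonneg _ _ _
      calc √(r G) * √(b H) ≤ (√(r4 R) * ∏ j : Fin J, e8 w (g j) (D j (G j))) *
            (√(r4 R) * ∏ j : Fin J, e8 w (g j) (D j (H j))) :=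
            mul_le_mul h1 h2 (Real.sqrt_nonneg _) (mul_nonneg (Real.sqrt_nonneg _) e2)
        _ = (√(r4 R) * √(r4 R)) * ((∏ j : Fin J, e8 w (g j) (D j (G j))) *
            ∏ j : Fin J, e8 w (g j) (D j (H j))) := by ring
        _ = _ := by rw [e1]
    have h6 : 0 ≤ ∏ j : Fin J, rh w (rl j) (G j) (H j) :=
      Finset.prod_nonneg fun j _ => rh_nonneg hw.le _ _ _
    have h7 : 0 ≤ ∏ j : Fin J, (e8 w (g j) (D j (G j)) * e8 w (g j) (D j (H j))) :=
      Finset.prod_nonneg fun j _ => mul_nonneg (e8_nonneg _ _ _) (e8_nonneg _ _ _)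
    rw [h3]
    calc (∏ j : Fin J, rh w (rl j) (G j) (H j)) * ((√(r G) * √(b H)) * (√(r G) * √(b H)))
        ≤ (∏ j : Fin J, rh w (rl j) (G j) (H j)) *
          ((r4 R * ∏ j : Fin J, (e8 w (g j) (D j (G j)) * e8 w (g j) (D j (H j)))) * ((r G + b H) / 2)) := by
          refine mul_le_mul_of_nonneg_left ?_ h6
          exact mul_le_mul h5 h4 (mul_nonneg (Real.sqrt_nonneg _) (Real.sqrt_nonneg _))
            (mul_nonneg (r4_nonneg _) h7)
      _ = r4 R * ((∏ j : Fin J, rh w (rl j) (G j) (H j)) *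
          ∏ j : Fin J, (e8 w (g j) (D j (G j)) * e8 w (g j) (D j (H j)))) * ((r G + b H) / 2) := by ring
      _ = _ := by rw [← Finset.prod_mul_distrib]
  set K : (Fin J → Finset ℕ) → (Fin J → Finset ℕ) → ℝ := fun G H =>
    ∏ j : Fin J, (rh w (rl j) (G j) (H j) * (e8 w (g j) (D j (G j)) * e8 w (g j) (D j (H j)))) with hK
  have hKsymm : ∀ G H, K G H = K H G := by
    intro G H
    rw [hK]
    simp only
    refine Finset.prod_congr rfl fun j _ => ?_
    rw [rh_comm5 (hr j), mul_comm (e8 w (g j) (D j (G j)))]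
  have hKsum : ∀ G ∈ seqs g J, ∑ H ∈ seqs g J, K G H ≤ κ := fun G hG =>
    kernel5 g rl D hr hg hw hw2 hC hζ hw1 J hG
  calc ∑ G ∈ seqs g J, ∑ H ∈ seqs g J, (∏ j : Fin J, rh w (rl j) (G j) (H j)) * (r G * b H)
      ≤ ∑ G ∈ seqs g J, ∑ H ∈ seqs g J, r4 R * K G H * ((r G + b H) / 2) :=
        Finset.sum_le_sum fun G hG => Finset.sum_le_sum fun H hH => hterm G hG H hH
    _ = r4 R / 2 * (∑ G ∈ seqs g J, r G * ∑ H ∈ seqs g J, K G H) +
        r4 R / 2 * (∑ H ∈ seqs g J, b H * ∑ G ∈ seqs g J, K H G) := by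
        have e1 : ∑ G ∈ seqs g J, ∑ H ∈ seqs g J, r4 R * K G H * ((r G + b H) / 2) =
            ∑ G ∈ seqs g J, ∑ H ∈ seqs g J, (r4 R / 2 * (r G * K G H)) +
            ∑ G ∈ seqs g J, ∑ H ∈ seqs g J, (r4 R / 2 * (b H * K H G)) := by
          rw [← Finset.sum_add_distrib]
          refine Finset.sum_congr rfl fun G _ => ?_
          rw [← Finset.sum_add_distrib]
          refine Finset.sum_congr rfl fun H _ => ?_
          rw [hKsymm H G]
          ring
        rw [e1]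
        congr 1
        · rw [Finset.mul_sum]
          refine Finset.sum_congr rfl fun G _ => ?_
          rw [Finset.mul_sum, Finset.mul_sum]
        · rw [Finset.sum_comm, Finset.mul_sum]
          refine Finset.sum_congr rfl fun H _ => ?_
          rw [Finset.mul_sum, Finset.mul_sum]
    _ ≤ r4 R / 2 * (∑ G ∈ seqs g J, r G * κ) + r4 R / 2 * (∑ H ∈ seqs g J, b H * κ) := by
        have e0 : 0 ≤ r4 R / 2 := by have := r4_nonneg R; positivity
        refine add_le_add (mul_le_mul_of_nonneg_left ?_ e0) (mul_le_mul_of_nonneg_left ?_ e0)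
        · exact Finset.sum_le_sum fun G hG => mul_le_mul_of_nonneg_left (hKsum G hG) (hr0 G)
        · exact Finset.sum_le_sum fun H hH => mul_le_mul_of_nonneg_left (hKsum H hH) (hb0 H)
    _ = r4 R / 2 * κ * (∑ G ∈ seqs g J, r G) + r4 R / 2 * κ * (∑ H ∈ seqs g J, b H) := by
        rw [← Finset.sum_mul, ← Finset.sum_mul]
        ring
    _ ≤ r4 R / 2 * κ * Y + r4 R / 2 * κ * Y := by
        have hκ0 : 0 ≤ κ := by
          have hmem : (fun _ : Fin J => (∅ : Finset ℕ)) ∈ seqs g J :=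
            mem_seqs.2 fun j => Finset.empty_subset _
          refine le_trans (Finset.sum_nonneg fun H _ => Finset.prod_nonneg fun j _ => ?_)
            (hKsum _ hmem)
          exact mul_nonneg (rh_nonneg hw.le _ _ _)
            (mul_nonneg (e8_nonneg _ _ _) (e8_nonneg _ _ _))
        have e0 : 0 ≤ r4 R / 2 * κ := by have := r4_nonneg R; positivity
        exact add_le_add (mul_le_mul_of_nonneg_left hrY e0) (mul_le_mul_of_nonneg_left hbY e0)
    _ = _ := by ring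

end Pool.Agent.Helper72.PG
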