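import Pool.Agent.Helper72.PG.Struct
import Pool.Agent.Helper72.PG.Schur5

/-! The relation between the codes of the two sets of a node. -/

namespace Pool.Agent.Helper72.PG

open Finset Pool.Agent.Helper72.PW Pool.Agent.Helper72.PL

variable {g : ℕ → ℕ} {h w i : ℕ} {U V X Y : Finset ℕ} {E : ℕ → ℕ → Prop}

/-- the small elements -/
def cd (g : ℕ → ℕ) (h w i : ℕ) (U : Finset ℕ) : Finset ℕ :=
  U.filter fun u => u < rr g i (w + h + 1)

/-- the codes of the two sets of a node -/
def rlt (g : ℕ → ℕ) (h w i : ℕ) (X Y : Finset ℕ) : Prop :=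
  ∃ U V E, NodeS g h i (w + 2 * h + 1) U V E ∧ cd g h w i U = X ∧ cd g h w i V = Y

/-- all digits with an admissible residue -/
def DD (g : ℕ → ℕ) (h w i : ℕ) (X : Finset ℕ) : Finset ℕ :=
  (Finset.range (rr g i (w + 2 * h + 1))).filter fun u => u % rr g i w ∈ im (rr g i w) X

lemma rlt_symm (hr : rlt g h w i X Y) : rlt g h w i Y X := by
  obtain ⟨U, V, E, H, h1, h2⟩ := hr
  exact ⟨V, U, _, H.symm, h2, h1⟩

/-- the code knows the residues -/
lemma im_cd (hg : ∀ j, 2 ≤ g j) (H : NodeS g h i (w + 2 * h + 1) U V E) :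
    im (rr g i w) (cd g h w i U) = im (rr g i w) U := by
  ext a
  constructor
  · intro ha
    rw [mem_im] at ha ⊢
    obtain ⟨x, hx, h1⟩ := ha
    exact ⟨x, (Finset.mem_filter.1 hx).1, h1⟩
  · intro ha
    obtain ⟨u, hu, hlt, h1⟩ := H.rep hg (by omega : w + h ≤ w + 2 * h + 1) ha
    rw [mem_im]
    exact ⟨u, Finset.mem_filter.2 ⟨hu, hlt.trans_le (rr_mono hg i (by omega))⟩, h1⟩

lemma sub_DD (hg : ∀ j, 2 ≤ g j) (H : NodeS g h i (w + 2 * h + 1) U V E) :
    U ⊆ DD g h w i (cd g h w i U) := by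
  intro u hu
  unfold DD
  rw [Finset.mem_filter, Finset.mem_range, im_cd hg H]
  exact ⟨H.lt hg hu, mem_im.2 ⟨u, hu, rfl⟩⟩

/-- the number of sums -/
lemma card_sums_DD (hg : ∀ j, 2 ≤ g j) (X : Finset ℕ) :
    (sums (DD g h w i X)).card ≤
      2 * rr g (i + w) (2 * h + 1) * (sm (im (rr g i w) X) (im (rr g i w) X)).card := by
  classical
  set M := rr g i w with hM
  set R := rr g (i + w) (2 * h + 1) with hR
  have hM0 : 0 < M := rr_pos hg _ _
  have hN : rr g i (w + 2 * h + 1) = M * R := by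
    rw [hM, hR, ← rr_add, add_assoc]
  have hsub : sums (DD g h w i X) ⊆ (sm (im M X) (im M X) ×ˢ Finset.range (2 * R)).image
      fun p => p.1 + M * p.2 := by
    intro s hs
    unfold sums at hs
    rw [Finset.mem_image] at hs
    obtain ⟨p, hp, rfl⟩ := hs
    rw [Finset.mem_product] at hp
    unfold DD at hp
    rw [Finset.mem_filter, Finset.mem_filter, Finset.mem_range, Finset.mem_range, hN] at hp
    obtain ⟨⟨h1, h2⟩, h3, h4⟩ := hp
    rw [Finset.mem_image]
    refine ⟨(p.1 % M + p.2 % M, p.1 / M + p.2 / M), ?_, ?_⟩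
    · rw [Finset.mem_product, Finset.mem_range]
      refine ⟨mem_sm.2 ⟨_, h2, _, h4, rfl⟩, ?_⟩
      have e1 := Nat.div_lt_of_lt_mul h1
      have e2 := Nat.div_lt_of_lt_mul h3
      simp only
      omega
    · have e1 := Nat.mod_add_div p.1 M
      have e2 := Nat.mod_add_div p.2 M
      simp only
      rw [mul_add]
      omega
  refine (Finset.card_le_card hsub).trans (Finset.card_image_le.trans (le_of_eq ?_))
  rw [Finset.card_product, Finset.card_range]
  ring

/-- boundedly many partners -/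
lemma rlt_few (hg : ∀ j, 2 ≤ g j) {Q : ℕ} (hQ : ∀ j, g j ≤ Q) (X : Finset ℕ)
    (S : Finset (Finset ℕ)) (hS : ∀ Y ∈ S, rlt g h w i X Y) : S.card ≤ 4 ^ (Q ^ h) := by
  classical
  set P := rr g i h with hP
  set N := rr g i (w + h + 1) with hN
  have hPN : P ≤ N := rr_mono hg i (by omega)
  have hex : ∀ Y, ∃ q : Finset ℕ × Finset ℕ × (ℕ → ℕ → Prop), Y ∈ S →
      NodeS g h i (w + 2 * h + 1) q.1 q.2.1 q.2.2 ∧ cd g h w i q.1 = X ∧
        cd g h w i q.2.1 = Y := by
    intro Y
    by_cases hY : Y ∈ S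
    · obtain ⟨U, V, E, h1, h2, h3⟩ := hS Y hY
      exact ⟨(U, V, E), fun _ => ⟨h1, h2, h3⟩⟩
    · exact ⟨(∅, ∅, fun _ _ => False), fun hh => absurd hh hY⟩
  choose q hq using hex
  set lam : Finset ℕ → Finset ℕ × Finset ℕ := fun Y =>
    ((Finset.range P).filter (fun s => ∃ v u, (q Y).2.2 u v ∧ v + u = s),
      Y.filter fun y => N ≤ y + P) with hlam
  have hmaps : ∀ Y ∈ S, lam Y ∈ (Finset.range P).powerset ×ˢ (Finset.Ico (N - P) N).powerset := by
    intro Y hY
    rw [Finset.mem_product, Finset.mem_powerset, Finset.mem_powerset]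
    refine ⟨Finset.filter_subset _ _, ?_⟩
    intro y hy
    rw [hlam] at hy
    simp only at hy
    rw [Finset.mem_filter] at hy
    rw [Finset.mem_Ico]
    refine ⟨by omega, ?_⟩
    have h1 := (hq Y hY).2.2
    rw [← h1] at hy
    unfold cd at hy
    exact (Finset.mem_filter.1 hy.1).2
  have hinj : Set.InjOn lam (S : Set (Finset ℕ)) := by
    intro Y hY Y' hY' he
    rw [Finset.mem_coe] at hY hY'
    obtain ⟨H, h1, h2⟩ := hq Y hY
    obtain ⟨H', h1', h2'⟩ := hq Y' hY'
    have hNN : rr g i (w + 2 * h + 1 - h) = N := by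
      rw [hN]
      congr 1
      omega
    have e1 := H.symm.ex hg (by omega : h ≤ w + 2 * h + 1)
    have e2 := H'.symm.ex hg (by omega : h ≤ w + 2 * h + 1)
    rw [hNN] at e1 e2
    rw [hlam] at he
    simp only [Prod.mk.injEq] at he
    have hdet := det e1 e2 hPN le_rfl (fun c hc => by
      have h3 : c ∈ cd g h w i (q Y).1 ↔ c ∈ cd g h w i (q Y').1 := by rw [h1, h1']
      unfold cd at h3
      rw [Finset.mem_filter, Finset.mem_filter] at h3
      constructor
      · intro h4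
        exact (h3.1 ⟨h4, hc⟩).1
      · intro h4
        exact (h3.2 ⟨h4, hc⟩).1) (fun e heP => by
      have h3 : e ∈ (Finset.range P).filter (fun s => ∃ v u, (q Y).2.2 u v ∧ v + u = s) ↔
          e ∈ (Finset.range P).filter (fun s => ∃ v u, (q Y').2.2 u v ∧ v + u = s) := by
        rw [he.1]
      simp only [Finset.mem_filter, Finset.mem_range] at h3
      constructor
      · intro h4
        exact (h3.1 ⟨heP, h4⟩).2
      · intro h4
        exact (h3.2 ⟨heP, h4⟩).2)
    ext y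
    have hY2 : y ∈ Y ↔ y ∈ (q Y).2.1 ∧ y < N := by
      conv_lhs => rw [← h2]
      unfold cd
      rw [Finset.mem_filter]
    have hY2' : y ∈ Y' ↔ y ∈ (q Y').2.1 ∧ y < N := by
      conv_lhs => rw [← h2']
      unfold cd
      rw [Finset.mem_filter]
    rcases Nat.lt_or_ge N (y + P) with h3 | h3
    · have h4 : y ∈ Y.filter (fun y => N ≤ y + P) ↔ y ∈ Y'.filter (fun y => N ≤ y + P) := by
        rw [he.2]
      rw [Finset.mem_filter, Finset.mem_filter] at h4
      constructor
      · intro h5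
        exact (h4.1 ⟨h5, h3.le⟩).1
      · intro h5
        exact (h4.2 ⟨h5, h3.le⟩).1
    · rw [hY2, hY2', hdet y h3]
  calc S.card ≤ ((Finset.range P).powerset ×ˢ (Finset.Ico (N - P) N).powerset).card :=
        Finset.card_le_card_of_injOn lam hmaps hinj
    _ = 2 ^ P * 2 ^ P := by
        rw [Finset.card_product, Finset.card_powerset, Finset.card_powerset, Finset.card_range,
          Nat.card_Ico, Nat.sub_sub_self hPN]
    _ = 4 ^ P := by
        rw [← mul_pow]
        norm_num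
    _ ≤ 4 ^ (Q ^ h) := Nat.pow_le_pow_right (by norm_num) (rr_le hQ _ _)

/-- The relation has the properties which the Schur test needs. -/
theorem rlt_good {Q : ℕ} (hQ2 : 2 ≤ Q) (h : ℕ) {ζ : ℝ} (hζ : 0 < ζ) :
    ∃ w : ℕ, ∀ (g : ℕ → ℕ), (∀ j, 2 ≤ g j) → (∀ j, g j ≤ Q) → ∀ i,
      GRel (rr g i (w + 2 * h + 1)) (rlt g h w i) (DD g h w i) (4 ^ (Q ^ h)) ζ := by
  obtain ⟨w, hw⟩ := node_sums hQ2 h (by positivity : 0 < ζ / 4)
  refine ⟨w, fun g hg hQ i => ⟨fun hr => rlt_symm hr, fun X S hS => rlt_few hg hQ X S hS, ?_,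
    fun X => Finset.filter_subset _ _⟩⟩
  intro X Y hr
  obtain ⟨U, V, E, H, rfl, rfl⟩ := hr
  have h1 := card_sums_DD (h := h) (w := w) (i := i) hg (cd g h w i U)
  have h2 := card_sums_DD (h := h) (w := w) (i := i) hg (cd g h w i V)
  rw [im_cd hg H] at h1
  rw [im_cd hg H.symm] at h2
  have h3 := hw g hg hQ i U V E H
  have h1' : ((sums (DD g h w i (cd g h w i U))).card : ℝ) ≤
      2 * rr g (i + w) (2 * h + 1) * (sm (im (rr g i w) U) (im (rr g i w) U)).card := by
    exact_mod_cast h1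
  have h2' : ((sums (DD g h w i (cd g h w i V))).card : ℝ) ≤
      2 * rr g (i + w) (2 * h + 1) * (sm (im (rr g i w) V) (im (rr g i w) V)).card := by
    exact_mod_cast h2
  have hN : (rr g i (w + 2 * h + 1) : ℝ) = rr g i w * rr g (i + w) (2 * h + 1) := by
    rw [add_assoc, rr_add]
    push_cast
    ring
  calc ((sums (DD g h w i (cd g h w i U))).card : ℝ) * (sums (DD g h w i (cd g h w i V))).card
      ≤ (2 * rr g (i + w) (2 * h + 1) * (sm (im (rr g i w) U) (im (rr g i w) U)).card) *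
        (2 * rr g (i + w) (2 * h + 1) * (sm (im (rr g i w) V) (im (rr g i w) V)).card) :=
        mul_le_mul h1' h2' (Nat.cast_nonneg _) (by positivity)
    _ = 4 * (rr g (i + w) (2 * h + 1) : ℝ) ^ 2 *
        (((sm (im (rr g i w) U) (im (rr g i w) U)).card : ℝ) *
          (sm (im (rr g i w) V) (im (rr g i w) V)).card) := by ring
    _ ≤ 4 * (rr g (i + w) (2 * h + 1) : ℝ) ^ 2 * (ζ / 4 * (rr g i w : ℝ) ^ 2) :=
        mul_le_mul_of_nonneg_left h3 (by positivity)
    _ = _ := by
        rw [hN]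
        ring

end Pool.Agent.Helper72.PG
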