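import Pool.Agent.Helper72.PG.NodeS

/-! The residues of the sets of a node form a pair of trees with few types. -/

namespace Pool.Agent.Helper72.PG

open Finset

variable {g : ℕ → ℕ} {h i W w : ℕ} {U V : Finset ℕ} {E : ℕ → ℕ → Prop}

lemma im_im {M N : ℕ} (hd : M ∣ N) (X : Finset ℕ) : im M (im N X) = im M X := by
  ext a
  rw [mem_im, mem_im]
  constructor
  · rintro ⟨x, hx, rfl⟩
    rw [mem_im] at hx
    obtain ⟨y, hy, rfl⟩ := hx
    exact ⟨y, hy, (Nat.mod_mod_of_dvd y hd).symm⟩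
  · rintro ⟨x, hx, rfl⟩
    exact ⟨x % N, mem_im.2 ⟨x, hx, rfl⟩, Nat.mod_mod_of_dvd x hd⟩

lemma sb_im {R R' : ℕ} (hR : 0 < R) (hR' : 0 < R') (U : Finset ℕ) {a : ℕ} (ha : a < R) :
    sb R (im (R * R') U) a = im R' (sb R U a) := by
  have hmod : ∀ x, (a + R * x) % (R * R') = a + R * (x % R') := by
    intro x
    have h1 := Nat.mod_add_div x R'
    have h2 : a + R * x = a + R * (x % R') + R * R' * (x / R') := by
      conv_lhs => rw [← h1]
      ring
    rw [h2, Nat.add_mul_mod_self_left]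
    refine Nat.mod_eq_of_lt ?_
    have h3 := Nat.mod_lt x hR'
    calc a + R * (x % R') < R + R * (x % R') := by omega
      _ = R * (x % R' + 1) := by ring
      _ ≤ _ := Nat.mul_le_mul_left _ h3
  ext y
  rw [mem_sb hR ha, mem_im, mem_im]
  constructor
  · rintro ⟨u, hu, h1⟩
    have h2 := Nat.mod_add_div u (R * R')
    rw [h1] at h2
    refine ⟨y + R' * (u / (R * R')), (mem_sb hR ha).2 ?_, ?_⟩
    · have h3 : a + R * (y + R' * (u / (R * R'))) = u := by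
        conv_rhs => rw [← h2]
        ring
      rw [h3]
      exact hu
    · rw [Nat.add_mul_mod_self_left]
      refine Nat.mod_eq_of_lt ?_
      have h3 : a + R * y < R * R' := by
        rw [← h1]
        exact Nat.mod_lt _ (Nat.mul_pos hR hR')
      exact Nat.lt_of_mul_lt_mul_left ((Nat.le_add_left _ _).trans_lt h3)
  · rintro ⟨x, hx, rfl⟩
    exact ⟨a + R * x, (mem_sb hR ha).1 hx, hmod x⟩

lemma card_image_factor {α β γ : Type*} [DecidableEq β] [DecidableEq γ] (s : Finset α)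
    (f : α → β) (lam : α → γ) (hf : ∀ a ∈ s, ∀ b ∈ s, lam a = lam b → f a = f b) :
    (s.image f).card ≤ (s.image lam).card := by
  classical
  rcases s.eq_empty_or_nonempty with rfl | ⟨a₀, _⟩
  · simp
  have hex : ∀ y, ∃ a, y ∈ s.image f → a ∈ s ∧ f a = y := by
    intro y
    by_cases hy : y ∈ s.image f
    · obtain ⟨a, ha, h1⟩ := Finset.mem_image.1 hy
      exact ⟨a, fun _ => ⟨ha, h1⟩⟩
    · exact ⟨a₀, fun hh => absurd hh hy⟩
  choose q hq using hex
  refine Finset.card_le_card_of_injOn (fun y => lam (q y)) ?_ ?_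
  · intro y hy
    rw [Finset.mem_coe] at hy ⊢
    exact Finset.mem_image_of_mem _ (hq y hy).1
  · intro y hy y' hy' hyy
    rw [Finset.mem_coe] at hy hy'
    obtain ⟨h1, h2⟩ := hq y hy
    obtain ⟨h3, h4⟩ := hq y' hy'
    rw [← h2, ← h4]
    exact hf _ h1 _ h3 hyy

/-- the form of the types -/
lemma types_form (hg : ∀ j, 2 ≤ g j) {k : ℕ} (hk : k ≤ w) {a : ℕ}
    (ha : a ∈ im (rr g i k) (im (rr g i w) U)) :
    a ∈ im (rr g i k) U ∧ sb (rr g i k) (im (rr g i w) U) a =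
      im (rr g (i + k) (w - k)) (sb (rr g i k) U a) := by
  rw [im_im (rr_dvd g i hk)] at ha
  refine ⟨ha, ?_⟩
  have h1 : rr g i w = rr g i k * rr g (i + k) (w - k) := by
    rw [← rr_add, Nat.add_sub_cancel' hk]
  rw [h1]
  exact sb_im (rr_pos hg _ _) (rr_pos hg _ _) U (im_lt (rr_pos hg _ _) ha)

lemma small_bound (hg : ∀ j, 2 ≤ g j) (i : ℕ) {k : ℕ} (hk : k ≤ w) {u : ℕ}
    (hu : u < rr g (i + k) (w - k + h)) :
    u + rr g (i + k) h ≤ rr g (i + k) (w + 2 * h + 1 - k - h) := by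
  have e : w + 2 * h + 1 - k - h = (w - k + h) + 1 := by omega
  rw [e]
  have h1 := rr_two hg (i + k) (w - k + h)
  have h2 : rr g (i + k) h ≤ rr g (i + k) (w - k + h) := rr_mono hg _ (Nat.le_add_left _ _)
  omega

/-- the exact pair at a subnode -/
lemma NodeS.exk (hg : ∀ j, 2 ≤ g j) (H : NodeS g h i (w + 2 * h + 1) U V E) {k : ℕ} (hk : k ≤ w)
    {a b : ℕ} (ha : a ∈ im (rr g i k) U) (hb : b ∈ im (rr g i k) V) :
    EX (sb (rr g i k) U a) (sb (rr g i k) V b)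
      (fun s => ∃ u v, E (a + rr g i k * u) (b + rr g i k * v) ∧ u + v = s)
      (rr g (i + k) (w + 2 * h + 1 - k - h)) (rr g (i + k) h) :=
  (H.node hg (by omega) ha hb).ex hg (by omega)

lemma NodeS.few (hg : ∀ j, 2 ≤ g j) {Q : ℕ} (hQ : ∀ j, g j ≤ Q)
    (H : NodeS g h i (w + 2 * h + 1) U V E) {k : ℕ} (hk : k ≤ w) :
    (tys (rr g i k) (im (rr g i w) U)).card ≤ 2 ^ (Q ^ h) := by
  classical
  obtain ⟨v₀, hv₀⟩ := H.neV
  have hb : v₀ % rr g i k ∈ im (rr g i k) V := mem_im.2 ⟨v₀, hv₀, rfl⟩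
  set b := v₀ % rr g i k with hbdef
  set lam : ℕ → Finset ℕ := fun a => (Finset.range (rr g (i + k) h)).filter
    fun s => ∃ u v, E (a + rr g i k * u) (b + rr g i k * v) ∧ u + v = s with hlam
  have h1 : (tys (rr g i k) (im (rr g i w) U)).card ≤
      ((im (rr g i k) (im (rr g i w) U)).image lam).card := by
    unfold tys
    refine card_image_factor _ _ lam ?_
    have hsub : ∀ a ∈ im (rr g i k) (im (rr g i w) U), ∀ a' ∈ im (rr g i k) (im (rr g i w) U),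
        lam a = lam a' → sb (rr g i k) (im (rr g i w) U) a ⊆
          sb (rr g i k) (im (rr g i w) U) a' := by
      intro a ha a' ha' he
      obtain ⟨q1, q2⟩ := types_form hg hk ha
      obtain ⟨q3, q4⟩ := types_form hg hk ha'
      rw [q2, q4]
      intro y hy
      obtain ⟨u, hu, hlt, hy2⟩ := (H.node hg (by omega : k ≤ w + 2 * h + 1) q1 hb).rep hg
        (by omega : w - k + h ≤ w + 2 * h + 1 - k) hy
      have e1 := H.exk hg hk q1 hb
      have e2 := H.exk hg hk q3 hb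
      have hle : rr g (i + k) h ≤ rr g (i + k) (w + 2 * h + 1 - k - h) :=
        rr_mono hg _ (by omega)
      have h2 := (det e1 e2 hle le_rfl (fun c _ => Iff.rfl) (fun e he' => by
        have h3 : e ∈ lam a ↔ e ∈ lam a' := by rw [he]
        rw [hlam] at h3
        simp only [Finset.mem_filter, Finset.mem_range, he', true_and] at h3
        exact h3) u (small_bound hg i hk hlt)).1 hu
      exact mem_im.2 ⟨u, h2, hy2⟩
    intro a ha a' ha' he
    exact Finset.Subset.antisymm (hsub a ha a' ha' he) (hsub a' ha' a ha he.symm)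
  refine h1.trans ?_
  have h2 : (im (rr g i k) (im (rr g i w) U)).image lam ⊆
      (Finset.range (rr g (i + k) h)).powerset := by
    intro y hy
    obtain ⟨a, _, rfl⟩ := Finset.mem_image.1 hy
    exact Finset.mem_powerset.2 (Finset.filter_subset _ _)
  refine (Finset.card_le_card h2).trans ?_
  rw [Finset.card_powerset, Finset.card_range]
  exact Nat.pow_le_pow_right (by norm_num) (rr_le hQ _ _)

lemma NodeS.nearT (hg : ∀ j, 2 ≤ g j) {Q : ℕ} (hQ : ∀ j, g j ≤ Q)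
    (H : NodeS g h i (w + 2 * h + 1) U V E) {k : ℕ} (hk : k ≤ w) {σ τ : Finset ℕ}
    (hσ : σ ∈ tys (rr g i k) (im (rr g i w) U)) (hτ : τ ∈ tys (rr g i k) (im (rr g i w) U)) :
    Nr (rr g (i + k) (w - k)) (Q ^ h) τ σ := by
  rw [mem_tys] at hσ hτ
  obtain ⟨a, ha, rfl⟩ := hσ
  obtain ⟨a', ha', rfl⟩ := hτ
  obtain ⟨q1, q2⟩ := types_form hg hk ha
  obtain ⟨q3, q4⟩ := types_form hg hk ha'
  obtain ⟨v₀, hv₀⟩ := H.neV
  have hb : v₀ % rr g i k ∈ im (rr g i k) V := mem_im.2 ⟨v₀, hv₀, rfl⟩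
  rw [q2, q4]
  intro y hy
  obtain ⟨u, hu, hlt, hy2⟩ := (H.node hg (by omega : k ≤ w + 2 * h + 1) q1 hb).rep hg
    (by omega : w - k + h ≤ w + 2 * h + 1 - k) hy
  obtain ⟨x, hx, h1, h2⟩ := near (H.exk hg hk q3 hb) (H.exk hg hk q1 hb) hu
    (small_bound hg i hk hlt)
  have hP : rr g (i + k) h ≤ Q ^ h := rr_le hQ _ _
  refine ⟨x % rr g (i + k) (w - k), mem_im.2 ⟨x, hx, rfl⟩, u + Q ^ h - x, by omega, ?_⟩
  have e1 : y ≡ u [MOD rr g (i + k) (w - k)] := by
    rw [← hy2]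
    exact Nat.mod_modEq _ _
  have e2 : x % rr g (i + k) (w - k) ≡ x [MOD rr g (i + k) (w - k)] := Nat.mod_modEq _ _
  have e3 : y + Q ^ h ≡ u + Q ^ h [MOD rr g (i + k) (w - k)] := Nat.ModEq.add_right _ e1
  have e4 : x % rr g (i + k) (w - k) + (u + Q ^ h - x) ≡ x + (u + Q ^ h - x)
      [MOD rr g (i + k) (w - k)] := Nat.ModEq.add_right _ e2
  have e5 : x + (u + Q ^ h - x) = u + Q ^ h := by omega
  rw [e5] at e4
  exact e3.trans e4.symm

/-- The residues of a node form a pair of trees. -/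
theorem NodeS.tp (hg : ∀ j, 2 ≤ g j) {Q : ℕ} (hQ : ∀ j, g j ≤ Q)
    (H : NodeS g h i (w + 2 * h + 1) U V E) :
    TP g i w (im (rr g i w) U) (im (rr g i w) V) (2 ^ (Q ^ h)) (Q ^ h) := by
  have hne : ∀ {U : Finset ℕ}, U.Nonempty → (im (rr g i w) U).Nonempty := by
    rintro U ⟨x, hx⟩
    exact ⟨_, mem_im.2 ⟨x, hx, rfl⟩⟩
  have hcard : ∀ {k l : ℕ}, k + l ≤ w → ∀ {U : Finset ℕ} {a : ℕ},
      im (rr g (i + k) l) (im (rr g (i + k) (w - k)) (sb (rr g i k) U a)) =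
        im (rr g (i + k) l) (sb (rr g i k) U a) := fun hkl {U a} =>
    im_im (rr_dvd g _ (by omega)) _
  refine ⟨hne H.neU, hne H.neV, fun x hx => im_lt (rr_pos hg _ _) hx,
    fun x hx => im_lt (rr_pos hg _ _) hx, fun k hk => H.few hg hQ hk,
    fun k hk => H.symm.few hg hQ hk, ?_, ?_, fun k hk σ hσ τ hτ => H.nearT hg hQ hk hσ hτ,
    fun k hk σ hσ τ hτ => H.symm.nearT hg hQ hk hσ hτ⟩
  · intro k l hkl σ hσ ρ hρ
    rw [mem_tys] at hσ hρ
    obtain ⟨a, ha, rfl⟩ := hσ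
    obtain ⟨b, hb, rfl⟩ := hρ
    obtain ⟨q1, q2⟩ := types_form hg (by omega : k ≤ w) ha
    obtain ⟨q3, q4⟩ := types_form hg (by omega : k ≤ w) hb
    rw [q2, q4, hcard hkl, hcard hkl]
    have h1 := (H.node hg (by omega : k ≤ w + 2 * h + 1) q1 q3).count_low hg
      (by omega : l ≤ w + 2 * h + 1 - k)
    exact h1.trans (Nat.mul_le_mul_right _ (rr_le hQ _ _))
  · intro k l hkl σ hσ ρ hρ
    rw [mem_tys] at hσ hρ
    obtain ⟨a, ha, rfl⟩ := hσ
    obtain ⟨b, hb, rfl⟩ := hρ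
    obtain ⟨q1, q2⟩ := types_form hg (by omega : k ≤ w) ha
    obtain ⟨q3, q4⟩ := types_form hg (by omega : k ≤ w) hb
    rw [q2, q4, hcard hkl, hcard hkl]
    have h1 := (H.node hg (by omega : k ≤ w + 2 * h + 1) q1 q3).count_up hg
      (by omega : l ≤ w + 2 * h + 1 - k)
    rw [rr_add] at h1
    refine h1.trans ?_
    rw [mul_comm]
    exact Nat.mul_le_mul_right _ (rr_le hQ _ _)

/-- The sets of a node have few sums of residues. -/
theorem node_sums {Q : ℕ} (hQ2 : 2 ≤ Q) (h : ℕ) {η : ℝ} (hη : 0 < η) :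
    ∃ w : ℕ, ∀ (g : ℕ → ℕ), (∀ j, 2 ≤ g j) → (∀ j, g j ≤ Q) → ∀ (i : ℕ) (U V : Finset ℕ)
      (E : ℕ → ℕ → Prop), NodeS g h i (w + 2 * h + 1) U V E →
      ((sm (im (rr g i w) U) (im (rr g i w) U)).card : ℝ) *
        (sm (im (rr g i w) V) (im (rr g i w) V)).card ≤ η * (rr g i w : ℝ) ^ 2 := by
  obtain ⟨w, hw⟩ := few_sums hQ2 (Nat.one_le_pow h Q (by omega)) (2 ^ (Q ^ h)) hη
  exact ⟨w, fun g hg hQ i U V E H => hw g hg hQ i _ _ (H.tp hg hQ)⟩

end Pool.Agent.Helper72.PG
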