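import Pool.Agent.Helper72.PG.Lev
import Pool.Agent.Helper72.PG.Rel

/-! Two functions with a linear sum; the good nodes are abstract nodes. -/

namespace Pool.Agent.Helper72.PG

open Finset Pool.Agent.Helper72.PW Pool.Agent.Helper72.PL

/-- two functions with bounded look-ahead and a linear sum -/
structure Sys2 (g : ℕ → ℕ) (h : ℕ) (F G : ℕ → ℕ) : Prop where
  add : ∀ z, F z + G z = rr g 0 h * z
  lf : ∀ i z z', z ≡ z' [MOD rr g h i] → F z ≡ F z' [MOD rr g 0 i]
  lg : ∀ i z z', z ≡ z' [MOD rr g h i] → G z ≡ G z' [MOD rr g 0 i]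

variable {g : ℕ → ℕ} {h W : ℕ} {F G : ℕ → ℕ}

lemma Sys2.symm (hs : Sys2 g h F G) : Sys2 g h G F :=
  ⟨fun z => by rw [add_comm]; exact hs.add z, hs.lg, hs.lf⟩

/-- the scales for the values -/
def mw (g : ℕ → ℕ) (W l : ℕ) : ℕ := rr g 0 (W * l)

/-- the scales for the arguments -/
def dw (g : ℕ → ℕ) (h W l : ℕ) : ℕ := rr g h (W * l)

/-- the sizes of the windows -/
def gw (g : ℕ → ℕ) (W l : ℕ) : ℕ := rr g (W * l) W

/-- the sizes of the windows for the arguments -/
def cw (g : ℕ → ℕ) (h W l : ℕ) : ℕ := rr g (h + W * l) W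

lemma rr_W_two (hg : ∀ j, 2 ≤ g j) (hW : 1 ≤ W) (i : ℕ) : 2 ≤ rr g i W := by
  calc 2 = 2 ^ 1 := rfl
    _ ≤ 2 ^ W := Nat.pow_le_pow_right (by norm_num) hW
    _ ≤ _ := rr_ge hg i W

lemma rad_mw (hg : ∀ j, 2 ≤ g j) (hW : 1 ≤ W) : Rad (mw g W) (gw g W) := by
  refine ⟨?_, fun j => ?_, fun j => rr_W_two hg hW _⟩
  · unfold mw
    rw [mul_zero, rr_zero]
  · unfold mw gw
    rw [mul_add, mul_one, rr_add, zero_add, mul_comm]

lemma rad_dw (hg : ∀ j, 2 ≤ g j) (hW : 1 ≤ W) : Rad (dw g h W) (cw g h W) := by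
  refine ⟨?_, fun j => ?_, fun j => rr_W_two hg hW _⟩
  · unfold dw
    rw [mul_zero, rr_zero]
  · unfold dw cw
    rw [mul_add, mul_one, rr_add, mul_comm]

lemma actD (hs : Sys2 g h F G) : ActD (mw g W) (dw g h W) F := by
  intro l z
  exact hs.lf (W * l) _ _ (Nat.mod_modEq z _).symm

/-- the two products of ratios -/
lemma rr_swap (g : ℕ → ℕ) (h i k : ℕ) : rr g 0 h * rr g h (i + k) = rr g 0 i * rr g i (k + h) := by
  have e1 := rr_add g 0 h (i + k)
  have e2 := rr_add g 0 i (k + h)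
  rw [zero_add] at e1 e2
  rw [← e1, ← e2]
  congr 1
  omega

lemma d2_le (hg : ∀ j, 2 ≤ g j) {Q : ℕ} (hQ : ∀ j, g j ≤ Q) (hs : Sys2 g h F G) (l a b : ℕ) :
    d2 (mw g W) (dw g h W) F G l a b ≤ Q ^ h := by
  classical
  unfold d2
  rw [← Finset.card_filter]
  set M := mw g W l with hM
  set P := rr g 0 h with hP
  have hM0 : 0 < M := rr_pos hg _ _
  have hP0 : 0 < P := rr_pos hg _ _
  have hPD : P * dw g h W l = M * rr g (W * l) h := by
    have := rr_swap g h (W * l) 0
    rw [add_zero, zero_add] at this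
    exact this
  have hinj : Set.InjOn (fun z => P * z / M)
      (((Finset.range (dw g h W l)).filter fun z => F z % M = a ∧ G z % M = b : Finset ℕ) :
        Set ℕ) := by
    intro z hz z' hz' hzz
    rw [Finset.mem_coe, Finset.mem_filter] at hz hz'
    have q1 : P * z ≡ P * z' [MOD M] := by
      rw [← hs.add z, ← hs.add z']
      refine Nat.ModEq.add ?_ ?_
      · exact hz.2.1.trans hz'.2.1.symm
      · exact hz.2.2.trans hz'.2.2.symm
    have q2 := Nat.div_add_mod (P * z) M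
    have q3 := Nat.div_add_mod (P * z') M
    simp only at hzz
    rw [hzz, show P * z % M = P * z' % M from q1, q3] at q2
    exact (Nat.eq_of_mul_eq_mul_left hP0 q2).symm
  rw [← Finset.card_image_of_injOn hinj]
  have hsub : ((Finset.range (dw g h W l)).filter fun z => F z % M = a ∧ G z % M = b).image
      (fun z => P * z / M) ⊆ Finset.range (rr g (W * l) h) := by
    intro y hy
    rw [Finset.mem_image] at hy
    obtain ⟨z, hz, rfl⟩ := hy
    rw [Finset.mem_filter, Finset.mem_range] at hz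
    rw [Finset.mem_range]
    refine Nat.div_lt_of_lt_mul ?_
    rw [← hPD]
    exact Nat.mul_lt_mul_of_pos_left hz.1 hP0
  refine (Finset.card_le_card hsub).trans ?_
  rw [Finset.card_range]
  exact rr_le hQ _ _

lemma e2_pos {m D F G : ℕ → ℕ} {l a b u v : ℕ} (h : 0 < e2 m D F G l a b u v) :
    ∃ z < D (l + 1), F z % m l = a ∧ G z % m l = b ∧ dg m l (F z) = u ∧ dg m l (G z) = v := by
  unfold e2 at h
  obtain ⟨z, hz, h2⟩ := Finset.exists_ne_zero_of_sum_ne_zero h.ne'
  rw [Finset.mem_range] at hz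
  by_cases h3 : (F z % m l = a ∧ G z % m l = b) ∧ (dg m l (F z) = u ∧ dg m l (G z) = v)
  · exact ⟨z, hz, h3.1.1, h3.1.2, h3.2.1, h3.2.2⟩
  · rw [if_neg h3] at h2
    exact absurd rfl h2

/-- the digit of a value in a residue class -/
lemma dg_form {m g : ℕ → ℕ} (h : Rad m g) (l : ℕ) {a : ℕ} (ha : a < m l) (u : ℕ) :
    dg m l (a + u * m l) = u % g l ∧ (a + u * m l) % m l = a := by
  have h1 : (a + u * m l) % m l = a := by
    rw [Nat.add_mul_mod_self_right, Nat.mod_eq_of_lt ha]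
  refine ⟨?_, h1⟩
  have h2 := mod_succ h l (a + u * m l)
  rw [h1] at h2
  have h3 : (a + u * m l) % m (l + 1) = a + u % g l * m l := by
    rw [h.succ]
    have h4 := Nat.mod_add_div u (g l)
    have h5 : a + u * m l = a + u % g l * m l + g l * m l * (u / g l) := by
      conv_lhs => rw [← h4]
      ring
    rw [h5, Nat.add_mul_mod_self_left]
    refine Nat.mod_eq_of_lt ?_
    have h6 := Nat.mod_lt u (by have := h.two l; omega : 0 < g l)
    calc a + u % g l * m l < m l + u % g l * m l := by omega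
      _ = (u % g l + 1) * m l := by ring
      _ ≤ _ := Nat.mul_le_mul_right _ h6
  rw [h3] at h2
  have h7 : dg m l (a + u * m l) * m l = u % g l * m l := by omega
  exact Nat.eq_of_mul_eq_mul_right (h.pos l) h7

/-- A good node is an abstract node. -/
theorem good_node {B : ℕ} (hg : ∀ j, 2 ≤ g j) (hW : 1 ≤ W) (hs : Sys2 g h F G) (l z₀ : ℕ)
    (hgood : GoodD B (mw g W) (dw g h W) (gw g W) (cw g h W) F G l (F z₀ % mw g W l)
      (G z₀ % mw g W l)) :
    NodeS g h (W * l) W
      (bigB B (gw g W l) (nuD (mw g W) (dw g h W) (cw g h W) F l (F z₀ % mw g W l)))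
      (bigB B (gw g W l) (nuD (mw g W) (dw g h W) (cw g h W) G l (G z₀ % mw g W l)))
      (fun u v => ∃ z, F z = F z₀ % mw g W l + u * mw g W l ∧
        G z = G z₀ % mw g W l + v * mw g W l) := by
  have hR := rad_mw hg hW
  have hRD := rad_dw (h := h) hg hW
  have hF := actD (W := W) hs
  have hG := actD (W := W) hs.symm
  set M := mw g W l with hM
  set N := gw g W l with hN
  set P := rr g 0 h with hP
  set a := F z₀ % M with ha
  set b := G z₀ % M with hb
  have hM0 : 0 < M := hR.pos l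
  have hP0 : 0 < P := rr_pos hg _ _
  have ha' : a < M := Nat.mod_lt _ hM0
  have hb' : b < M := Nat.mod_lt _ hM0
  have hswap : ∀ k, P * rr g h (W * l + k) = M * rr g (W * l) (k + h) := fun k =>
    rr_swap g h (W * l) k
  have hform : ∀ c < M, ∀ x, x ≡ c [MOD M] → ∃ y, x = c + y * M := by
    intro c hc x hx
    refine ⟨x / M, ?_⟩
    have h1 := Nat.mod_add_div x M
    have h2 : x % M = c := by
      have h3 : x % M = c % M := hx
      rw [h3, Nat.mod_eq_of_lt hc]
    rw [h2, mul_comm] at h1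
    exact h1.symm
  refine ⟨?_, ?_, ?_, ?_, ?_⟩
  · obtain ⟨x, hx⟩ := hform a ha' (F z₀) (Nat.mod_modEq _ _).symm
    obtain ⟨y, hy⟩ := hform b hb' (G z₀) (Nat.mod_modEq _ _).symm
    exact ⟨x, y, z₀, hx, hy⟩
  · rintro u v s ⟨z, h1, h2⟩ h3
    have q1 : P * z = a + b + (u + v) * M := by
      rw [← hs.add z, h1, h2]
      ring
    have q2 : a + b + s * M ≡ P * z [MOD P * rr g h (W * l)] := by
      have e0 := hswap 0
      rw [add_zero, zero_add] at e0
      rw [e0, q1, mul_comm s M, mul_comm (u + v) M]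
      exact Nat.ModEq.add_left _ (Nat.ModEq.mul_left' _ h3)
    have q3 : P ∣ a + b + s * M := by
      have e1 : a + b + s * M ≡ P * z [MOD P] := q2.of_dvd (Dvd.intro _ rfl)
      have e2 : P * z ≡ 0 [MOD P] := Nat.mul_mod_right _ _
      exact (Nat.modEq_zero_iff_dvd).1 (e1.trans e2)
    obtain ⟨z', hz'⟩ := q3
    have q4 : z' ≡ z [MOD rr g h (W * l)] := by
      rw [hz'] at q2
      exact Nat.ModEq.mul_left_cancel' hP0.ne' q2
    have q5 : F z' ≡ a [MOD M] := by
      refine (hs.lf (W * l) _ _ q4).trans ?_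
      rw [h1]
      exact Nat.add_mul_mod_self_right _ _ _
    have q6 : G z' ≡ b [MOD M] := by
      refine (hs.lg (W * l) _ _ q4).trans ?_
      rw [h2]
      exact Nat.add_mul_mod_self_right _ _ _
    obtain ⟨x, hx⟩ := hform a ha' _ q5
    obtain ⟨y, hy⟩ := hform b hb' _ q6
    refine ⟨x, y, ⟨z', hx, hy⟩, ?_⟩
    have q7 := hs.add z'
    rw [hx, hy, ← hP, ← hz'] at q7
    have q8 : (x + y) * M = s * M := by
      have : a + x * M + (b + y * M) = a + b + (x + y) * M := by ring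
      omega
    exact Nat.eq_of_mul_eq_mul_right hM0 q8
  · rintro k u v u' v' ⟨z, h1, h2⟩ ⟨z', h1', h2'⟩ h3
    have q1 : P * z = a + b + (u + v) * M := by
      rw [← hs.add z, h1, h2]
      ring
    have q1' : P * z' = a + b + (u' + v') * M := by
      rw [← hs.add z', h1', h2']
      ring
    have q2 : P * z ≡ P * z' [MOD P * rr g h (W * l + k)] := by
      rw [hswap k, q1, q1', mul_comm (u + v) M, mul_comm (u' + v') M]
      exact Nat.ModEq.add_left _ (Nat.ModEq.mul_left' _ h3)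
    have q3 : z ≡ z' [MOD rr g h (W * l + k)] := Nat.ModEq.mul_left_cancel' hP0.ne' q2
    have e0 : rr g 0 (W * l + k) = M * rr g (W * l) k := by
      rw [rr_add, zero_add]
      rfl
    have q4 := hs.lf _ _ _ q3
    have q5 := hs.lg _ _ _ q3
    rw [e0, h1, h1', mul_comm u M, mul_comm u' M] at q4
    rw [e0, h2, h2', mul_comm v M, mul_comm v' M] at q5
    exact ⟨Nat.ModEq.mul_left_cancel' hM0.ne' (Nat.ModEq.add_left_cancel' a q4),
      Nat.ModEq.mul_left_cancel' hM0.ne' (Nat.ModEq.add_left_cancel' b q5)⟩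
  · rintro u v ⟨z, h1, h2⟩
    have hN0 : 0 < N := by have := hR.two l; omega
    refine (hgood (u % N) (Nat.mod_lt _ hN0) (v % N) (Nat.mod_lt _ hN0)).1 ?_
    unfold e2
    refine Finset.sum_pos' (fun _ _ => Nat.zero_le _) ⟨z % dw g h W (l + 1),
      Finset.mem_range.2 (Nat.mod_lt _ (hRD.pos _)), ?_⟩
    have e1 : F (z % dw g h W (l + 1)) % mw g W (l + 1) = F z % mw g W (l + 1) :=
      (hF (l + 1) z).symm
    have e2 : G (z % dw g h W (l + 1)) % mw g W (l + 1) = G z % mw g W (l + 1) :=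
      (hG (l + 1) z).symm
    rw [mod_eqD hR] at e1 e2
    have e3 := dg_form hR l ha' u
    have e4 := dg_form hR l hb' v
    rw [← hM, ← h1] at e3
    rw [← hM, ← h2] at e4
    rw [if_pos ⟨⟨e1.1.trans e3.2, e2.1.trans e4.2⟩, e1.2.trans e3.1, e2.2.trans e4.1⟩]
    norm_num
  · intro u hu v hv
    have hu2 := (mem_bigB.1 hu).1
    have hv2 := (mem_bigB.1 hv).1
    obtain ⟨z, _, h1, h2, h3, h4⟩ := e2_pos ((hgood u hu2 v hv2).2 ⟨hu, hv⟩)
    obtain ⟨x, hx⟩ := hform a ha' (F z) (by rw [← h1]; exact (Nat.mod_modEq _ _).symm)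
    obtain ⟨y, hy⟩ := hform b hb' (G z) (by rw [← h2]; exact (Nat.mod_modEq _ _).symm)
    refine ⟨x, y, ⟨z, hx, hy⟩, ?_, ?_⟩
    · rw [hx, hM, (dg_form hR l ha' x).1] at h3
      exact h3
    · rw [hy, hM, (dg_form hR l hb' y).1] at h4
      exact h4

end Pool.Agent.Helper72.PG
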