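import Pool.Agent.Helper72.PG.Sys
import Pool.Agent.Helper72.PW.Main

/-! Comparison of the two sums, two chains. -/

namespace Pool.Agent.Helper72.PG

open Finset Pool.Agent.Helper72.PW Pool.Agent.Helper72.PL

variable {g : ℕ → ℕ} {h w B : ℕ} {F G : ℕ → ℕ}

/-- the length of the windows -/
def WW (w h : ℕ) : ℕ := w + 2 * h + 1

/-- the residues of `F` -/
def rd (M D : ℕ) (F : ℕ → ℕ) : Finset ℕ := (Finset.range D).image fun z => F z % M

lemma mem_rd {M D : ℕ} {F : ℕ → ℕ} {z : ℕ} (hz : z < D) : F z % M ∈ rd M D F :=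
  Finset.mem_image.2 ⟨z, Finset.mem_range.2 hz, rfl⟩

lemma rd_lt {M D : ℕ} (hM : 0 < M) {F : ℕ → ℕ} {a : ℕ} (ha : a ∈ rd M D F) : a < M := by
  unfold rd at ha
  rw [Finset.mem_image] at ha
  obtain ⟨z, _, rfl⟩ := ha
  exact Nat.mod_lt _ hM

lemma phiD_sum_le (hg : ∀ j, 2 ≤ g j) {Q W : ℕ} (hQ : ∀ j, g j ≤ Q) (hs : Sys2 g h F G) (L : ℕ) :
    ∑ z ∈ Finset.range (dw g h W L), phiD (mw g W) (dw g h W) F G L z ≤
      dw g h W L * (h * Real.log Q + Real.log ((rd (mw g W L) (dw g h W L) F).card : ℝ) +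
        Real.log ((rd (mw g W L) (dw g h W L) G).card : ℝ) - Real.log (dw g h W L)) := by
  have hD : 0 < dw g h W L := rr_pos hg _ _
  have h1 := entropy_le (fun z => F z % mw g W L) hD
  have h2 := entropy_le (fun z => G z % mw g W L) hD
  have q1 : ∀ (F : ℕ → ℕ) a, cnt (fun z => F z % mw g W L) (dw g h W L) a =
      d1 (mw g W) (dw g h W) F L a := by
    intro F a
    rw [cnt_eq]
    rfl
  have h3 : ∑ z ∈ Finset.range (dw g h W L), phiD (mw g W) (dw g h W) F G L z ≤
      dw g h W L * Real.log (dw g h W L) + dw g h W L * (h * Real.log Q) +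
      ∑ z ∈ Finset.range (dw g h W L),
        -Real.log (d1 (mw g W) (dw g h W) F L (F z % mw g W L)) +
      ∑ z ∈ Finset.range (dw g h W L),
        -Real.log (d1 (mw g W) (dw g h W) G L (G z % mw g W L)) := by
    have h4 : ∀ z ∈ Finset.range (dw g h W L), phiD (mw g W) (dw g h W) F G L z ≤
        Real.log (dw g h W L) + h * Real.log Q +
          -Real.log (d1 (mw g W) (dw g h W) F L (F z % mw g W L)) +
          -Real.log (d1 (mw g W) (dw g h W) G L (G z % mw g W L)) := by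
      intro z hz
      unfold phiD
      have h5 : Real.log (d2 (mw g W) (dw g h W) F G L (F z % mw g W L) (G z % mw g W L)) ≤
          h * Real.log Q := by
        rw [← Real.log_pow]
        refine Real.log_le_log ?_ ?_
        · exact_mod_cast d2_pos (mw g W) F G (Finset.mem_range.1 hz)
        · exact_mod_cast d2_le hg hQ hs L _ _
      linarith
    refine (Finset.sum_le_sum h4).trans (le_of_eq ?_)
    rw [Finset.sum_add_distrib, Finset.sum_add_distrib, Finset.sum_const, Finset.card_range,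
      nsmul_eq_mul, mul_add]
  simp only [q1] at h1 h2
  unfold rd
  linarith

/-- the code of a residue -/
noncomputable def TC (B : ℕ) (g : ℕ → ℕ) (h w : ℕ) (F : ℕ → ℕ) (l a : ℕ) : Finset ℕ :=
  cd g h w (WW w h * l) (bigB B (gw g (WW w h) l)
    (nuD (mw g (WW w h)) (dw g h (WW w h)) (cw g h (WW w h)) F l a))

/-- the codes along `a` -/
noncomputable def TSC (B : ℕ) (g : ℕ → ℕ) (h w : ℕ) (F : ℕ → ℕ) (L a : ℕ) : Fin L → Finset ℕ :=
  fun j => TC B g h w F j (a % mw g (WW w h) j)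

/-- the digits which are allowed by a sequence of codes -/
def DS (g : ℕ → ℕ) (h w : ℕ) {L : ℕ} (T : Fin L → Finset ℕ) : Fin L → Finset ℕ :=
  fun j => DD g h w (WW w h * j) (T j)

/-- the relation in the window `j` -/
def rlw (g : ℕ → ℕ) (h w j : ℕ) (X Y : Finset ℕ) : Prop := rlt g h w (WW w h * j) X Y

lemma TSC_mem (B : ℕ) (g : ℕ → ℕ) (h w : ℕ) (F : ℕ → ℕ) (L a : ℕ) :
    TSC B g h w F L a ∈ seqs (gw g (WW w h)) L := by
  rw [mem_seqs]
  intro j
  unfold TSC TC cd
  exact (Finset.filter_subset _ _).trans (bigB_sub _ _ _)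

/-- the weight of a pair -/
noncomputable def pwC (v : ℝ) (B : ℕ) (g : ℕ → ℕ) (h w : ℕ) (F G : ℕ → ℕ) (L a b : ℕ) : ℝ :=
  wt v (mw g (WW w h)) (DS g h w (TSC B g h w F L a)) a *
    wt v (mw g (WW w h)) (DS g h w (TSC B g h w G L b)) b *
    ∏ j : Fin L, rh v (rlw g h w j) (TSC B g h w F L a j) (TSC B g h w G L b j)

lemma pwC_nonneg {v : ℝ} (hv : 0 ≤ v) (B : ℕ) (g : ℕ → ℕ) (h w : ℕ) (F G : ℕ → ℕ) (L a b : ℕ) :
    0 ≤ pwC v B g h w F G L a b :=
  mul_nonneg (mul_nonneg (wt_nonneg hv _ _ _) (wt_nonneg hv _ _ _))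
    (Finset.prod_nonneg fun _ _ => rh_nonneg hv _ _ _)

lemma dg_modC (hg : ∀ j, 2 ≤ g j) {W : ℕ} (hW : 1 ≤ W) {L j : ℕ} (hj : j < L) (x : ℕ) :
    dg (mw g W) j (x % mw g W L) = dg (mw g W) j x := by
  unfold dg
  rw [Nat.mod_mod_of_dvd x ((rad_mw hg hW).dvd_le hj)]

lemma one_le_WW (w h : ℕ) : 1 ≤ WW w h := by unfold WW; omega

lemma exp_NND_le (hg : ∀ j, 2 ≤ g j) (hs : Sys2 g h F G) {v : ℝ} (hv : 0 < v)
    (hv1 : v ≤ 1) (L z : ℕ) :
    Real.exp (-(-(3 * Real.log v) * NND B (mw g (WW w h)) (dw g h (WW w h)) (gw g (WW w h))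
      (cw g h (WW w h)) F G L z)) ≤
      pwC v B g h w F G L (F z % mw g (WW w h) L) (G z % mw g (WW w h) L) := by
  classical
  have hW := one_le_WW w h
  have hR := rad_mw hg hW
  have h1 : Real.exp (-(-(3 * Real.log v) * NND B (mw g (WW w h)) (dw g h (WW w h))
      (gw g (WW w h)) (cw g h (WW w h)) F G L z)) =
      ∏ j : Fin L, Real.exp (3 * Real.log v *
        badD B (mw g (WW w h)) (dw g h (WW w h)) (gw g (WW w h)) (cw g h (WW w h)) F G j
          (F z % mw g (WW w h) j) (G z % mw g (WW w h) j)) := by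
    rw [← Real.exp_sum, ← Finset.mul_sum]
    unfold NND
    rw [Finset.sum_range]
    congr 1
    ring
  rw [h1]
  unfold pwC wt
  rw [← Finset.prod_mul_distrib, ← Finset.prod_mul_distrib]
  refine Finset.prod_le_prod (fun j _ => (Real.exp_pos _).le) fun j _ => ?_
  have eF : TSC B g h w F L (F z % mw g (WW w h) L) j =
      TC B g h w F j (F z % mw g (WW w h) j) := by
    unfold TSC
    rw [Nat.mod_mod_of_dvd (F z) (hR.dvd_le j.2.le)]
  have eG : TSC B g h w G L (G z % mw g (WW w h) L) j =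
      TC B g h w G j (G z % mw g (WW w h) j) := by
    unfold TSC
    rw [Nat.mod_mod_of_dvd (G z) (hR.dvd_le j.2.le)]
  unfold DS
  rw [eF, eG, dg_modC hg hW j.2 (F z), dg_modC hg hW j.2 (G z)]
  have hwA := w_le_ite hv1 (dg (mw g (WW w h)) j (F z) ∈
    DD g h w (WW w h * j) (TC B g h w F j (F z % mw g (WW w h) j)))
  have hwB := w_le_ite hv1 (dg (mw g (WW w h)) j (G z) ∈
    DD g h w (WW w h * j) (TC B g h w G j (G z % mw g (WW w h) j)))
  have hwC : v ≤ rh v (rlw g h w j) (TC B g h w F j (F z % mw g (WW w h) j))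
      (TC B g h w G j (G z % mw g (WW w h) j)) := by
    unfold rh
    exact w_le_ite hv1 _
  by_cases hgood : GoodD B (mw g (WW w h)) (dw g h (WW w h)) (gw g (WW w h)) (cw g h (WW w h))
      F G j (F z % mw g (WW w h) j) (G z % mw g (WW w h) j)
  · have hb : badD B (mw g (WW w h)) (dw g h (WW w h)) (gw g (WW w h)) (cw g h (WW w h))
      F G j (F z % mw g (WW w h) j) (G z % mw g (WW w h) j) = 0 := by
      unfold badD
      rw [if_pos hgood]
    have H := good_node hg hW hs j z hgood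
    have q1 : rlw g h w j (TC B g h w F j (F z % mw g (WW w h) j))
      (TC B g h w G j (G z % mw g (WW w h) j)) := ⟨_, _, _, H, rfl, rfl⟩
    obtain ⟨x, y, z', hx, hy⟩ := H.ne
    have hsub := H.sub (F z / mw g (WW w h) j) (G z / mw g (WW w h) j) ⟨z, by
      rw [Nat.mul_comm, Nat.mod_add_div], by rw [Nat.mul_comm, Nat.mod_add_div]⟩
    have hdg : ∀ x : ℕ, dg (mw g (WW w h)) j x =
        x / mw g (WW w h) j % rr g (WW w h * j) (WW w h) := by
      intro x
      have e1 := (dg_form hR j (Nat.mod_lt x (hR.pos j)) (x / mw g (WW w h) j)).1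
      rw [Nat.mul_comm (x / mw g (WW w h) j), Nat.mod_add_div] at e1
      exact e1
    have q2 : dg (mw g (WW w h)) j (F z) ∈
        DD g h w (WW w h * j) (TC B g h w F j (F z % mw g (WW w h) j)) := by
      rw [hdg]
      exact sub_DD hg H hsub.1
    have q3 : dg (mw g (WW w h)) j (G z) ∈
        DD g h w (WW w h * j) (TC B g h w G j (G z % mw g (WW w h) j)) := by
      rw [hdg]
      exact sub_DD hg H.symm hsub.2
    rw [hb, mul_zero, Real.exp_zero]
    unfold rh
    rw [if_pos q1, if_pos q2, if_pos q3, one_mul, one_mul]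
  · have hb : badD B (mw g (WW w h)) (dw g h (WW w h)) (gw g (WW w h)) (cw g h (WW w h))
      F G j (F z % mw g (WW w h) j) (G z % mw g (WW w h) j) = 1 := by
      unfold badD
      rw [if_neg hgood]
    have q1 : Real.exp (3 * Real.log v * 1) = v * v * v := by
      rw [mul_one, show 3 * Real.log v = Real.log v + Real.log v + Real.log v by ring,
        Real.exp_add, Real.exp_add, Real.exp_log hv]
    rw [hb, q1]
    exact mul_le_mul (mul_le_mul hwA hwB hv.le (hv.le.trans hwA)) hwC hv.le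
      (mul_nonneg (hv.le.trans hwA) (hv.le.trans hwB))

/-- The sum over `z` is at most a constant times the sum over all pairs. -/
lemma pair_sumC (hg : ∀ j, 2 ≤ g j) {Q W : ℕ} (hQ : ∀ j, g j ≤ Q) (hs : Sys2 g h F G) (L : ℕ)
    (H : ℕ → ℕ → ℝ) (hH : ∀ a b, 0 ≤ H a b) :
    ∑ z ∈ Finset.range (dw g h W L), H (F z % mw g W L) (G z % mw g W L) ≤
      (Q : ℝ) ^ h * ∑ a ∈ rd (mw g W L) (dw g h W L) F,
        ∑ b ∈ rd (mw g W L) (dw g h W L) G, H a b := by
  classical
  have h1 : ∑ z ∈ Finset.range (dw g h W L), H (F z % mw g W L) (G z % mw g W L) =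
      ∑ q ∈ rd (mw g W L) (dw g h W L) F ×ˢ rd (mw g W L) (dw g h W L) G,
        (((Finset.range (dw g h W L)).filter fun z =>
          (F z % mw g W L, G z % mw g W L) = q).card : ℝ) * H q.1 q.2 := by
    rw [← Finset.sum_fiberwise_of_maps_to
      (t := rd (mw g W L) (dw g h W L) F ×ˢ rd (mw g W L) (dw g h W L) G)
      (g := fun z => (F z % mw g W L, G z % mw g W L))]
    · refine Finset.sum_congr rfl fun q _ => ?_
      rw [Finset.sum_congr rfl (g := fun _ => H q.1 q.2) fun z hz => by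
        rw [← (Finset.mem_filter.1 hz).2]]
      rw [Finset.sum_const, nsmul_eq_mul]
    · intro z hz
      rw [Finset.mem_product]
      exact ⟨mem_rd (Finset.mem_range.1 hz), mem_rd (Finset.mem_range.1 hz)⟩
  rw [h1, ← Finset.sum_product', Finset.mul_sum]
  refine Finset.sum_le_sum fun q _ => ?_
  refine mul_le_mul_of_nonneg_right ?_ (hH _ _)
  have h2 := d2_le (W := W) hg hQ hs L q.1 q.2
  have h3 : ((Finset.range (dw g h W L)).filter fun z =>
      (F z % mw g W L, G z % mw g W L) = q).card = d2 (mw g W) (dw g h W) F G L q.1 q.2 := by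
    unfold d2
    rw [Finset.card_filter]
    refine Finset.sum_congr rfl fun z _ => ?_
    exact ite_one ⟨fun hh => by rw [← hh]; exact ⟨rfl, rfl⟩, fun hh => Prod.ext hh.1 hh.2⟩
  rw [h3]
  exact_mod_cast h2

open Classical in
/-- total weight of a class -/
noncomputable def rrC (v : ℝ) (B : ℕ) (g : ℕ → ℕ) (h w : ℕ) (F : ℕ → ℕ) (L : ℕ)
    (T : Fin L → Finset ℕ) : ℝ :=
  ∑ a ∈ (rd (mw g (WW w h) L) (dw g h (WW w h) L) F).filter (fun a => TSC B g h w F L a = T),
    wt v (mw g (WW w h)) (DS g h w T) a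

lemma groupC (v : ℝ) (L : ℕ) :
    ∑ a ∈ rd (mw g (WW w h) L) (dw g h (WW w h) L) F,
      ∑ b ∈ rd (mw g (WW w h) L) (dw g h (WW w h) L) G, pwC v B g h w F G L a b =
      ∑ S ∈ seqs (gw g (WW w h)) L, ∑ T ∈ seqs (gw g (WW w h)) L,
        (∏ j : Fin L, rh v (rlw g h w j) (S j) (T j)) *
        (rrC v B g h w F L S * rrC v B g h w G L T) := by
  classical
  rw [← Finset.sum_fiberwise_of_maps_to (g := fun a => TSC B g h w F L a)
    (fun a _ => TSC_mem B g h w F L a)]
  refine Finset.sum_congr rfl fun S _ => ?_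
  have h1 : ∀ a, ∑ b ∈ rd (mw g (WW w h) L) (dw g h (WW w h) L) G, pwC v B g h w F G L a b =
      ∑ T ∈ seqs (gw g (WW w h)) L, ∑ b ∈ (rd (mw g (WW w h) L) (dw g h (WW w h) L) G).filter
        (fun b => TSC B g h w G L b = T), pwC v B g h w F G L a b := fun a =>
    (Finset.sum_fiberwise_of_maps_to (g := fun b => TSC B g h w G L b)
      (fun b _ => TSC_mem B g h w G L b) _).symm
  simp_rw [h1]
  rw [Finset.sum_comm]
  refine Finset.sum_congr rfl fun T _ => ?_
  unfold rrC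
  rw [Finset.sum_mul_sum, Finset.mul_sum]
  refine Finset.sum_congr (by congr) fun a ha => ?_
  rw [Finset.mul_sum]
  refine Finset.sum_congr (by congr) fun b hb => ?_
  rw [Finset.mem_filter] at ha hb
  unfold pwC
  rw [ha.2, hb.2]
  ring

lemma rrC_nonneg {v : ℝ} (hv : 0 ≤ v) (B : ℕ) (g : ℕ → ℕ) (h w : ℕ) (F : ℕ → ℕ) (L : ℕ)
    (T : Fin L → Finset ℕ) : 0 ≤ rrC v B g h w F L T :=
  Finset.sum_nonneg fun _ _ => wt_nonneg hv _ _ _

lemma rrC_sum {v : ℝ} (hv : 0 ≤ v) (hv1 : v ≤ 1) (B : ℕ) (g : ℕ → ℕ) (h w : ℕ) (F : ℕ → ℕ)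
    (L : ℕ) :
    ∑ T ∈ seqs (gw g (WW w h)) L, rrC v B g h w F L T ≤
      (rd (mw g (WW w h) L) (dw g h (WW w h) L) F).card := by
  classical
  have h1 : ∑ T ∈ seqs (gw g (WW w h)) L, rrC v B g h w F L T =
      ∑ a ∈ rd (mw g (WW w h) L) (dw g h (WW w h) L) F,
        wt v (mw g (WW w h)) (DS g h w (TSC B g h w F L a)) a := by
    rw [← Finset.sum_fiberwise_of_maps_to (g := fun a => TSC B g h w F L a)
      (fun a _ => TSC_mem B g h w F L a)]
    refine Finset.sum_congr rfl fun T _ => ?_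
    unfold rrC
    refine Finset.sum_congr (by congr) fun a ha => ?_
    rw [Finset.mem_filter] at ha
    rw [ha.2]
  rw [h1]
  refine (Finset.sum_le_sum fun a _ => wt_le_one hv hv1 _ _ _).trans (le_of_eq ?_)
  rw [Finset.sum_const, nsmul_eq_mul, mul_one]

end Pool.Agent.Helper72.PG
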